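import Mathlib

/-!
Definitions for MP_e62723_gt: convex bodies, brightness, minimal volume for constant brightness.
-/

open MeasureTheory Set

namespace Pool.Agent.Lib.MP_e62723_gt

/-- Euclidean space `ℝⁿ`. -/
abbrev E (n : ℕ) : Type := EuclideanSpace ℝ (Fin n)

/-- A convex body: a compact convex set with nonempty interior. -/
structure IsConvexBody {n : ℕ} (K : Set (E n)) : Prop where
  compact : IsCompact K
  convex : Convex ℝ K
  interior_nonempty : (interior K).Nonempty

/-- The brightness `v_K(u)`: the `(n-1)`-dimensional volume (Euclidean Hausdorff measure, which is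
the Lebesgue measure on every `(n-1)`-dimensional subspace) of the orthogonal projection of `K`
onto `u^⊥`. -/
noncomputable def brightness {n : ℕ} (K : Set (E n)) (u : E n) : ℝ :=
  (Measure.euclideanHausdorffMeasure (n - 1) ((ℝ ∙ u)ᗮ.starProjection '' K)).toReal

/-- `κ_k`, the volume of the unit ball of `ℝᵏ`. -/
noncomputable def kappa (k : ℕ) : ℝ := (volume (Metric.ball (0 : E k) 1)).toReal

/-- `K` has constant brightness `b`. -/
def HasConstantBrightness {n : ℕ} (K : Set (E n)) (b : ℝ) : Prop :=
  ∀ u : E n, ‖u‖ = 1 → brightness K u = b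

/-- `m_B(n)`: the infimum of the volumes of the convex bodies of constant brightness
`κ_{n-1}` in `ℝⁿ`. -/
noncomputable def mB (n : ℕ) : ℝ :=
  sInf {v : ℝ | ∃ K : Set (E n), IsConvexBody K ∧ HasConstantBrightness K (kappa (n - 1)) ∧
    v = (volume K).toReal}

end Pool.Agent.Lib.MP_e62723_gt
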