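import Pool.Agent.Lib.MP_e62723_gt.Defs

open MeasureTheory Set Metric
open scoped ENNReal InnerProductSpace

namespace Pool.Agent.Lib.MP_e62723_gt

variable {n : ℕ}

/-- the rotation average `J a = ∫_B |⟨x,a⟩| dx`. -/
private noncomputable def JJ (a : E n) : ℝ≥0∞ :=
  ∫⁻ x in ball (0 : E n) 1, ENNReal.ofReal |⟪x, a⟫_ℝ|

private lemma JJ_map (L : E n ≃ₗᵢ[ℝ] E n) (a : E n) : JJ (L a) = JJ a := by
  have hmp : MeasurePreserving L (volume : Measure (E n)) volume := L.measurePreserving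
  have hball : L ⁻¹' (ball (0 : E n) 1) = ball (0 : E n) 1 := by
    ext x; simp
  unfold JJ
  have h1 := (hmp.restrict_preimage_emb L.toMeasurableEquiv.measurableEmbedding
    (ball (0 : E n) 1))
  rw [hball] at h1
  have h2 := h1.lintegral_comp_emb L.toMeasurableEquiv.measurableEmbedding
    (fun x => ENNReal.ofReal |⟪x, L a⟫_ℝ|)
  rw [← h2]
  simp only [LinearIsometryEquiv.inner_map_map]

private lemma JJ_unit {a b : E n} (h : ‖a‖ = ‖b‖) : JJ a = JJ b := by
  have := JJ_map ((ℝ ∙ (a - b))ᗮ.reflection) a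
  rw [Submodule.reflection_sub h] at this
  exact this.symm

private lemma JJ_smul (t : ℝ) (ht : 0 ≤ t) (a : E n) : JJ (t • a) = ENNReal.ofReal t * JJ a := by
  unfold JJ
  rw [← lintegral_const_mul' _ _ ENNReal.ofReal_ne_top]
  congr 1
  ext x
  rw [inner_smul_right, abs_mul, abs_of_nonneg ht, ENNReal.ofReal_mul ht]

private lemma JJ_lt_top (a : E n) : JJ a < ∞ := by
  unfold JJ
  calc ∫⁻ x in ball (0 : E n) 1, ENNReal.ofReal |⟪x, a⟫_ℝ|
      ≤ ∫⁻ x in ball (0 : E n) 1, ENNReal.ofReal ‖a‖ := by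
        refine setLIntegral_mono measurable_const ?_
        intro x hx
        refine ENNReal.ofReal_le_ofReal ?_
        have h1 : ‖x‖ ≤ 1 := by
          have := mem_ball_zero_iff.1 hx
          linarith
        calc |⟪x, a⟫_ℝ| ≤ ‖x‖ * ‖a‖ := abs_real_inner_le_norm x a
          _ ≤ 1 * ‖a‖ := by gcongr
          _ = ‖a‖ := one_mul _
    _ = ENNReal.ofReal ‖a‖ * volume (ball (0 : E n) 1) := by
        rw [lintegral_const, Measure.restrict_apply_univ]
    _ < ∞ := ENNReal.mul_lt_top ENNReal.ofReal_lt_top measure_ball_lt_top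

private lemma JJ_pos {a : E n} (ha : a ≠ 0) : 0 < JJ a := by
  unfold JJ
  have hmeas : Measurable (fun x : E n => ENNReal.ofReal |⟪x, a⟫_ℝ|) := by
    fun_prop
  rw [lintegral_pos_iff_support hmeas]
  rw [Measure.restrict_apply (measurableSet_support hmeas)]
  have hopen : IsOpen (Function.support (fun x : E n => ENNReal.ofReal |⟪x, a⟫_ℝ|) ∩ 
      ball (0 : E n) 1) := by
    refine IsOpen.inter ?_ isOpen_ball
    have : Continuous (fun x : E n => ENNReal.ofReal |⟪x, a⟫_ℝ|) :=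
      ENNReal.continuous_ofReal.comp (by fun_prop)
    exact this.isOpen_support
  refine hopen.measure_pos volume ?_
  have hna : 0 < ‖a‖ := norm_pos_iff.2 ha
  refine ⟨(1 / (2 * ‖a‖)) • a, ?_, ?_⟩
  · rw [Function.mem_support]
    have : 0 < |⟪(1 / (2 * ‖a‖)) • a, a⟫_ℝ| := by
      rw [inner_smul_left, real_inner_self_eq_norm_sq]
      refine abs_pos.2 (mul_ne_zero ?_ (by positivity))
      simp only [conj_trivial]
      positivity
    simpa using this
  · rw [mem_ball_zero_iff, norm_smul, Real.norm_of_nonneg (by positivity)]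
    field_simp
    norm_num

/-- JOB BallAvg (a). Rotation invariance: `∫_B |⟨x,a⟩| dx = c ‖a‖` with `c > 0`.
Proof. For unit vectors `a, b` there is a linear isometry equivalence with `a ↦ b`
(a reflection, `reflection_sub`-type lemma), it preserves the volume and the ball
(`LinearIsometryEquiv.measurePreserving`). Positivity: the integrand is positive off a hyperplane.
Homogeneity for general `a`. -/
theorem ball_abs_inner (hn : 1 ≤ n) : ∃ c : ℝ, 0 < c ∧
    ∀ a : E n, ∫⁻ x in ball (0 : E n) 1, ENNReal.ofReal |⟪x, a⟫_ℝ| = ENNReal.ofReal (c * ‖a‖) := by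
  obtain ⟨e, he⟩ : ∃ e : E n, ‖e‖ = 1 :=
    ⟨EuclideanSpace.single ⟨0, hn⟩ (1 : ℝ), by simp⟩
  have he0 : e ≠ 0 := by
    intro h; rw [h] at he; simp at he
  refine ⟨(JJ e).toReal, ENNReal.toReal_pos (JJ_pos he0).ne' (JJ_lt_top e).ne, ?_⟩
  intro a
  change JJ a = _
  have h1 : JJ a = JJ (‖a‖ • e) := by
    apply JJ_unit
    rw [norm_smul, he, mul_one, norm_norm]
  rw [h1, JJ_smul _ (norm_nonneg a), mul_comm, ENNReal.ofReal_mul ENNReal.toReal_nonneg,
    ENNReal.ofReal_toReal (JJ_lt_top e).ne]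

/-- JOB BallAvg (b). If two measures have the same cosine transform then they have the same
integrals of `‖A y‖` for all linear `A`.
Proof. By Tonelli `∫_{x ∈ B} ∫ |⟨y, A* x⟩| dμ(y) dx = ∫ (∫_{x ∈ B} |⟨x, A y⟩| dx) dμ(y) =
c ∫ ‖A y‖ dμ(y)` by (a) (`ContinuousLinearMap.adjoint_inner_right` etc.); the left hand side is the
same for both measures; divide by `c`. -/
theorem norm_integrals (hn : 1 ≤ n) {μ1 μ2 : Measure (E n)} [SFinite μ1] [SFinite μ2]
    (h : ∀ u : E n, ∫⁻ y, ENNReal.ofReal |⟪y, u⟫_ℝ| ∂μ1 = ∫⁻ y, ENNReal.ofReal |⟪y, u⟫_ℝ| ∂μ2)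
    (A : E n →L[ℝ] E n) :
    ∫⁻ y, ENNReal.ofReal ‖A y‖ ∂μ1 = ∫⁻ y, ENNReal.ofReal ‖A y‖ ∂μ2 := by
  obtain ⟨c, hc, hcc⟩ := ball_abs_inner hn
  have key : ∀ (μ : Measure (E n)) [SFinite μ],
      ENNReal.ofReal c * ∫⁻ y, ENNReal.ofReal ‖A y‖ ∂μ =
      ∫⁻ x in ball (0 : E n) 1, ∫⁻ y, ENNReal.ofReal |⟪y, A.adjoint x⟫_ℝ| ∂μ := by
    intro μ _
    rw [← lintegral_const_mul' _ _ ENNReal.ofReal_ne_top]
    rw [lintegral_lintegral_swap]
    · congr 1
      ext y
      rw [← ENNReal.ofReal_mul hc.le, ← hcc (A y)]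
      congr 1
      ext x
      rw [ContinuousLinearMap.adjoint_inner_right, real_inner_comm]
    · have : Continuous (fun p : E n × E n => ENNReal.ofReal |⟪p.2, A.adjoint p.1⟫_ℝ|) :=
        ENNReal.continuous_ofReal.comp (by fun_prop)
      exact this.measurable.aemeasurable
  have h1 := key μ1
  have h2 := key μ2
  have h3 : (∫⁻ x in ball (0 : E n) 1, ∫⁻ y, ENNReal.ofReal |⟪y, A.adjoint x⟫_ℝ| ∂μ1) =
      ∫⁻ x in ball (0 : E n) 1, ∫⁻ y, ENNReal.ofReal |⟪y, A.adjoint x⟫_ℝ| ∂μ2 := by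
    congr 1
    ext x
    exact h _
  rw [h3, ← h2] at h1
  exact (ENNReal.mul_right_inj (by simpa using hc) ENNReal.ofReal_ne_top).1 h1

end Pool.Agent.Lib.MP_e62723_gt
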