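import Pool.Agent.Lib.MP_e62723_gt.Gauge

open MeasureTheory Set
open scoped ENNReal InnerProductSpace

namespace Pool.Agent.Lib.MP_e62723_gt

variable {n : ℕ}

/-- JOB BallB (a). -/
theorem body_ball : Body (Metric.closedBall (0 : E n) 1) := by
  refine ⟨isCompact_closedBall _ _, convex_closedBall _ _, ?_⟩
  exact Metric.ball_subset_interior_closedBall (Metric.mem_ball_self one_pos)

/-- JOB BallB (b). -/
theorem isConvexBody_ball : IsConvexBody (Metric.closedBall (0 : E n) 1) :=
  ⟨body_ball.compact, body_ball.convex, ⟨0, body_ball.zero_mem⟩⟩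

/-- JOB BallB (c). The gauge of the closed unit ball is the norm (`gauge_closedBall`); gradient of the
norm in a Euclidean space. -/
theorem grad_ball {x : E n} (hx : x ≠ 0) :
    grad (Metric.closedBall (0 : E n) 1) x = ‖x‖⁻¹ • x := by
  have h1 : gauge (Metric.closedBall (0 : E n) 1) = fun y : E n => ‖y‖ := by
    funext y
    rw [gauge_closedBall zero_le_one, div_one]
  unfold grad
  rw [h1]
  have hx' : ‖x‖ ≠ 0 := norm_ne_zero_iff.2 hx
  have h2 : HasFDerivAt (fun y : E n => ‖y‖ ^ 2) (2 • innerSL ℝ x) x :=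
    (hasStrictFDerivAt_norm_sq x).hasFDerivAt
  have h3 := h2.sqrt (by positivity)
  have h4 : (fun y : E n => √(‖y‖ ^ 2)) = fun y : E n => ‖y‖ := by
    funext y
    rw [Real.sqrt_sq (norm_nonneg y)]
  rw [h4, Real.sqrt_sq (norm_nonneg x)] at h3
  have h5 : HasGradientAt (fun y : E n => ‖y‖) (‖x‖⁻¹ • x) x := by
    rw [hasGradientAt_iff_hasFDerivAt]
    have h6 : (InnerProductSpace.toDual ℝ (E n)) (‖x‖⁻¹ • x) =
        (1 / (2 * ‖x‖)) • 2 • (innerSL ℝ) x := by
      refine ContinuousLinearMap.ext fun y => ?_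
      have h7 : ((1 / (2 * ‖x‖)) • 2 • (innerSL ℝ) x) y = (1 / (2 * ‖x‖)) * (2 * ⟪x, y⟫_ℝ) := by
        simp
      rw [h7, InnerProductSpace.toDual_apply_apply, real_inner_smul_left]
      field_simp
    rw [h6]
    exact h3
  exact h5.gradient

/-- JOB BallB (d). The projection of the closed unit ball is the closed unit ball of `u^⊥`; its
measure is `κ_{n-1}` (`Isometry.euclideanHausdorffMeasure_image` for the isometric inclusion
`E (n-1) ≃ u^⊥ → E n` given by `LinearIsometryEquiv.ofInnerProductSpace`/`stdOrthonormalBasis`,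
`InnerProductSpace.euclideanHausdorffMeasure_eq_volume` or
`Measure.euclideanHausdorffMeasure`-on-`EuclideanSpace` lemma). `n ≥ 1` follows from `‖u‖ = 1`. -/
theorem hausdorff_proj_ball {u : E n} (hu : ‖u‖ = 1) :
    Measure.euclideanHausdorffMeasure (n - 1)
        ((ℝ ∙ u)ᗮ.starProjection '' Metric.closedBall (0 : E n) 1) =
      volume (Metric.ball (0 : E (n - 1)) 1) := by
  have hu0 : u ≠ 0 := by
    rintro rfl
    simp at hu
  have hn : n ≠ 0 := by
    rintro rfl
    exact hu0 (Subsingleton.elim _ _)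
  obtain ⟨m, rfl⟩ : ∃ m, n = m + 1 := ⟨n - 1, by omega⟩
  have hfact : Fact (Module.finrank ℝ (E (m + 1)) = m + 1) := ⟨by simp⟩
  have hrank : Module.finrank ℝ (ℝ ∙ u)ᗮ = m := Submodule.finrank_orthogonal_span_singleton hu0
  have e : E m ≃ₗᵢ[ℝ] (ℝ ∙ u)ᗮ :=
    ((stdOrthonormalBasis ℝ (ℝ ∙ u)ᗮ).reindex (finCongr hrank)).repr.symm
  have hiso : Isometry (fun x : E m => ((e x : (ℝ ∙ u)ᗮ) : E (m + 1))) :=
    (isometry_subtype_coe).comp e.isometry
  have himg : ((ℝ ∙ u)ᗮ.starProjection '' Metric.closedBall (0 : E (m + 1)) 1) =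
      (fun x : E m => ((e x : (ℝ ∙ u)ᗮ) : E (m + 1))) '' Metric.closedBall (0 : E m) 1 := by
    ext y
    constructor
    · rintro ⟨x, hx, rfl⟩
      rw [mem_closedBall_zero_iff] at hx
      refine ⟨e.symm ((ℝ ∙ u)ᗮ.orthogonalProjectionOnto x), ?_, ?_⟩
      · rw [mem_closedBall_zero_iff, LinearIsometryEquiv.norm_map]
        exact ((ℝ ∙ u)ᗮ.norm_orthogonalProjectionOnto_apply_le x).trans hx
      · simp only [LinearIsometryEquiv.apply_symm_apply]
        rfl
    · rintro ⟨x, hx, rfl⟩
      rw [mem_closedBall_zero_iff] at hx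
      refine ⟨(e x : E (m + 1)), ?_, ?_⟩
      · rw [mem_closedBall_zero_iff]
        have : ‖((e x : (ℝ ∙ u)ᗮ) : E (m + 1))‖ = ‖x‖ := by
          rw [← Submodule.coe_norm, LinearIsometryEquiv.norm_map]
        rw [this]
        exact hx
      · exact Submodule.starProjection_eq_self_iff.2 (e x).2
  rw [himg]
  change Measure.euclideanHausdorffMeasure m _ = volume (Metric.ball (0 : E m) 1)
  rw [hiso.euclideanHausdorffMeasure_image,
    EuclideanSpace.euclideanHausdorffMeasure_eq_volume]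
  rcases Nat.eq_zero_or_pos m with rfl | hm
  · congr 1
    ext x
    have hx : x = 0 := Subsingleton.elim _ _
    rw [hx]
    simp
  · have : Nonempty (Fin m) := ⟨⟨0, hm⟩⟩
    exact Measure.addHaar_closedBall_eq_addHaar_ball volume (0 : E m) 1

/-- JOB BallB (e). -/
theorem brightness_ball : HasConstantBrightness (Metric.closedBall (0 : E n) 1) (kappa (n - 1)) := by
  intro u hu
  unfold brightness kappa
  rw [hausdorff_proj_ball hu]

end Pool.Agent.Lib.MP_e62723_gt
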