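import Pool.Agent.Lib.MP_e62723_gt.Gauge

open MeasureTheory Set
open scoped ENNReal InnerProductSpace Pointwise

namespace Pool.Agent.Lib.MP_e62723_gt

variable {n : ℕ} {K : Set (E n)}

theorem center_average_ball (x₀ : E n) {ε : ℝ} (hε : 0 < ε) :
    (⨍ x in Metric.ball x₀ ε, x) = x₀ := by
  have h0 : ∫ x in Metric.ball (0 : E n) ε, x = 0 := by
    rw [← integral_indicator Metric.isOpen_ball.measurableSet]
    set f : E n → E n := (Metric.ball (0 : E n) ε).indicator fun x => x with hf
    have h1 : ∀ x, f (-x) = -f x := by
      intro x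
      rw [hf]
      by_cases hx : x ∈ Metric.ball (0 : E n) ε
      · have hx' : -x ∈ Metric.ball (0 : E n) ε := by simpa using hx
        rw [indicator_of_mem hx, indicator_of_mem hx']
      · have hx' : -x ∉ Metric.ball (0 : E n) ε := by simpa using hx
        rw [indicator_of_notMem hx, indicator_of_notMem hx', neg_zero]
    have h2 := integral_neg_eq_self f volume
    simp only [h1] at h2
    rw [integral_neg] at h2
    have h3 : (2 : ℝ) • ∫ x, f x = 0 := by
      rw [two_smul]
      nth_rewrite 1 [← h2]
      exact neg_add_cancel _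
    exact (smul_eq_zero.1 h3).resolve_left (by norm_num)
  have hpos : (volume (Metric.ball x₀ ε)) ≠ 0 := (Metric.measure_ball_pos _ _ hε).ne'
  have hfin : (volume (Metric.ball x₀ ε)) ≠ ∞ := measure_ball_lt_top.ne
  have hint : IntegrableOn (fun x : E n => x) (Metric.ball x₀ ε) := by
    refine Measure.integrableOn_of_bounded (M := ‖x₀‖ + ε) hfin
      (by fun_prop) ?_
    refine (ae_restrict_iff' Metric.isOpen_ball.measurableSet).2 (ae_of_all _ fun x hx => ?_)
    have : ‖x - x₀‖ < ε := by rwa [← dist_eq_norm]
    calc ‖x‖ = ‖x₀ + (x - x₀)‖ := by congr 1; abel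
      _ ≤ ‖x₀‖ + ‖x - x₀‖ := norm_add_le _ _
      _ ≤ _ := by linarith
  have h4 : ∫ x in Metric.ball x₀ ε, (x - x₀) = 0 := by
    rw [← h0, ← integral_indicator Metric.isOpen_ball.measurableSet,
      ← integral_indicator Metric.isOpen_ball.measurableSet,
      ← integral_sub_right_eq_self (fun x => (Metric.ball (0 : E n) ε).indicator (fun x => x) x) x₀]
    refine integral_congr_ae (ae_of_all _ fun x => ?_)
    simp only
    by_cases hx : x ∈ Metric.ball x₀ ε
    · have hx' : x - x₀ ∈ Metric.ball (0 : E n) ε := by
        rw [mem_ball_zero_iff, ← dist_eq_norm]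
        exact hx
      rw [indicator_of_mem hx, indicator_of_mem hx']
    · have hx' : x - x₀ ∉ Metric.ball (0 : E n) ε := by
        rw [mem_ball_zero_iff, ← dist_eq_norm]
        exact hx
      rw [indicator_of_notMem hx, indicator_of_notMem hx']
  rw [integral_sub hint (integrableOn_const hfin)] at h4
  rw [setAverage_eq, sub_eq_zero.1 h4, integral_const, smul_smul]
  have : (volume.real (Metric.ball x₀ ε)) ≠ 0 := by
    rw [measureReal_def]
    exact (ENNReal.toReal_pos hpos hfin).ne'
  rw [measureReal_restrict_apply_univ, inv_mul_cancel₀ this, one_smul]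

/-- JOB Center (a). Every convex body has a translate with centroid `0` (and then `0` is an interior
point).
Proof. Let `c = ⨍ x in K, x`. By `Convex.average_mem_interior_of_set` (with a small ball around an
interior point; the average over a ball is its centre by symmetry) `c ∈ interior K`. Take `z = -c`. -/
theorem exists_center (hK : IsConvexBody K) : ∃ z : E n,
    Body ((fun x => x + z) '' K) ∧
      ∀ v : E n, ∫ x in (fun x => x + z) '' K, ⟪x, v⟫_ℝ = 0 := by
  obtain ⟨x₀, hx₀⟩ := hK.interior_nonempty
  obtain ⟨ε, hε, hball⟩ := Metric.mem_nhds_iff.1 (mem_interior_iff_mem_nhds.1 hx₀)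
  have hmeas : MeasurableSet K := hK.compact.isClosed.measurableSet
  have hfin : volume K ≠ ∞ := hK.compact.measure_lt_top.ne
  have hint : IntegrableOn (fun x : E n => x) K :=
    (continuous_id.continuousOn).integrableOn_compact hK.compact
  have : IsFiniteMeasure (volume.restrict K) := ⟨by
    rw [Measure.restrict_apply_univ]
    exact hK.compact.measure_lt_top⟩
  set c : E n := ⨍ x in K, x with hc
  have hbK : (volume.restrict K).restrict (Metric.ball x₀ ε) =
      volume.restrict (Metric.ball x₀ ε) := by
    rw [Measure.restrict_restrict Metric.isOpen_ball.measurableSet,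
      inter_eq_left.2 hball]
  have hcint : c ∈ interior K := by
    refine hK.convex.average_mem_interior_of_set (μ := volume.restrict K)
      (t := Metric.ball x₀ ε) ?_ ?_ hint ?_
    · rw [Measure.restrict_apply Metric.isOpen_ball.measurableSet, inter_eq_left.2 hball]
      exact (Metric.measure_ball_pos _ _ hε).ne'
    · exact (ae_restrict_iff' hmeas).2 (ae_of_all _ fun x hx => hx)
    · rw [hbK, center_average_ball x₀ hε]
      exact hx₀
  have hvol : volume K ≠ 0 := by
    intro h
    have := measure_mono_null hball h
    exact (Metric.measure_ball_pos volume x₀ hε).ne' this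
  have himg : (fun x => x + -c) '' K = (fun x => x + c) ⁻¹' K := by
    rw [image_add_right, neg_neg]
  refine ⟨-c, ⟨hK.compact.image (by fun_prop), ?_, ?_⟩, fun v => ?_⟩
  · have := hK.convex.translate (-c)
    have e : (fun x => x + -c) '' K = (fun x => -c + x) '' K := by
      congr 1
      funext x
      exact add_comm _ _
    rw [e]
    exact this
  · have := (Homeomorph.addRight (-c)).image_interior K
    have e : (fun x => x + -c) '' K = (Homeomorph.addRight (-c)) '' K := rfl
    rw [e, ← this]
    exact ⟨c, hcint, by simp⟩
  · have h1 : ∫ x in (fun x => x + -c) '' K, ⟪x, v⟫_ℝ = ∫ x in K, ⟪x - c, v⟫_ℝ := by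
      have hm := (Homeomorph.addRight (-c)).measurableEmbedding
      have := (measurePreserving_add_right volume (-c)).setIntegral_image_emb hm
        (fun x => ⟪x, v⟫_ℝ) K
      rw [this]
      refine integral_congr_ae (ae_of_all _ fun x => ?_)
      simp only
      rw [sub_eq_add_neg]
    rw [h1]
    have h2 : ∫ x in K, ⟪x - c, v⟫_ℝ = ⟪∫ x in K, (x - c), v⟫_ℝ := by
      have hs : Integrable (fun x : E n => x - c) (volume.restrict K) :=
        hint.sub (integrableOn_const hfin)
      simp_rw [real_inner_comm v]
      rw [integral_inner hs]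
    rw [h2, integral_sub hint (integrableOn_const hfin), integral_const,
      measureReal_restrict_apply_univ]
    have h3 : ∫ x in K, x = volume.real K • c := by
      rw [hc, setAverage_eq, smul_smul, mul_inv_cancel₀, one_smul]
      rw [measureReal_def]
      exact (ENNReal.toReal_pos hvol hfin).ne'
    rw [h3, sub_self, inner_zero_left]

/-- JOB Center (b). -/
theorem volume_translate (z : E n) : volume ((fun x => x + z) '' K) = volume K := by
  rw [image_add_right, measure_preimage_add_right]

/-- JOB Center (c). `P(x + z) = P x + P z`, and the Hausdorff measure is invariant under translations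
(`Isometry.euclideanHausdorffMeasure_image`). -/
theorem brightness_translate (z u : E n) :
    Measure.euclideanHausdorffMeasure (n - 1) ((ℝ ∙ u)ᗮ.starProjection '' ((fun x => x + z) '' K)) =
      Measure.euclideanHausdorffMeasure (n - 1) ((ℝ ∙ u)ᗮ.starProjection '' K) := by
  have h : (ℝ ∙ u)ᗮ.starProjection '' ((fun x => x + z) '' K) =
      (fun y => y + (ℝ ∙ u)ᗮ.starProjection z) '' ((ℝ ∙ u)ᗮ.starProjection '' K) := by
    rw [image_image, image_image]
    refine image_congr fun x _ => ?_
    rw [map_add]
  rw [h]
  exact (isometry_add_right _).euclideanHausdorffMeasure_image _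

end Pool.Agent.Lib.MP_e62723_gt
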