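import Mathlib

open MeasureTheory Set

namespace Pool.Agent.Lib.MP_e62723_gt

private theorem Sqrt_meas (k : ℕ) (r t : ℝ) :
    Measurable (fun τ : ℝ => τ ^ k * (1 + t * τ) ^ r) := by
  have h1 : Measurable (fun τ : ℝ => 1 + t * τ) := by fun_prop
  exact (measurable_id.pow_const k).mul (h1.pow_const r)

private theorem Sqrt_bound {M t τ : ℝ} (ht : 0 ≤ t) (hτ : τ ∈ Icc 0 M) (k : ℕ) :
    ‖τ ^ k * (1 + t * τ) ^ ((1 : ℝ) / 2 - k)‖ ≤ M ^ k * (1 + t * M) ^ ((1 : ℝ) / 2) := by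
  have h0 := hτ.1
  have hM := hτ.2
  have h1 : 1 ≤ 1 + t * τ := by nlinarith [mul_nonneg ht h0]
  have h2 : (1 + t * τ) ^ ((1 : ℝ) / 2 - k) ≤ (1 + t * M) ^ ((1 : ℝ) / 2) := by
    calc (1 + t * τ) ^ ((1 : ℝ) / 2 - k) ≤ (1 + t * τ) ^ ((1 : ℝ) / 2) := by
          apply Real.rpow_le_rpow_of_exponent_le h1
          have : (0 : ℝ) ≤ k := Nat.cast_nonneg k
          linarith
      _ ≤ (1 + t * M) ^ ((1 : ℝ) / 2) := by
          apply Real.rpow_le_rpow (by linarith) _ (by norm_num)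
          have := mul_le_mul_of_nonneg_left hM ht
          linarith
  have h3 : 0 ≤ (1 + t * τ) ^ ((1 : ℝ) / 2 - k) := Real.rpow_nonneg (by linarith) _
  rw [norm_mul, norm_pow, Real.norm_of_nonneg h0, Real.norm_of_nonneg h3]
  exact mul_le_mul (pow_le_pow_left₀ h0 hM k) h2 h3 (pow_nonneg (h0.trans hM) k)

private theorem Sqrt_int {ν : Measure ℝ} [IsFiniteMeasure ν] {M : ℝ}
    (h : ∀ᵐ τ ∂ν, τ ∈ Icc 0 M) {t : ℝ} (ht : 0 ≤ t) (k : ℕ) :
    Integrable (fun τ : ℝ => τ ^ k * (1 + t * τ) ^ ((1 : ℝ) / 2 - k)) ν := by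
  refine Integrable.of_bound (Sqrt_meas k _ t).aestronglyMeasurable
    (M ^ k * (1 + t * M) ^ ((1 : ℝ) / 2)) ?_
  filter_upwards [h] with τ hτ
  exact Sqrt_bound ht hτ k

private theorem Sqrt_deriv {ν : Measure ℝ} [IsFiniteMeasure ν] {M : ℝ}
    (h : ∀ᵐ τ ∂ν, τ ∈ Icc 0 M) {t₀ : ℝ} (ht : 0 < t₀) (k : ℕ) :
    HasDerivAt (fun t : ℝ => ∫ τ, τ ^ k * (1 + t * τ) ^ ((1 : ℝ) / 2 - k) ∂ν)
      (((1 : ℝ) / 2 - k) * ∫ τ, τ ^ (k + 1) * (1 + t₀ * τ) ^ ((1 : ℝ) / 2 - (k + 1 : ℕ)) ∂ν)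
      t₀ := by
  have key := hasDerivAt_integral_of_dominated_loc_of_deriv_le (μ := ν) (𝕜 := ℝ)
    (F := fun t τ => τ ^ k * (1 + t * τ) ^ ((1 : ℝ) / 2 - k))
    (F' := fun t τ => ((1 : ℝ) / 2 - k) *
      (τ ^ (k + 1) * (1 + t * τ) ^ ((1 : ℝ) / 2 - (k + 1 : ℕ))))
    (x₀ := t₀) (s := Ioi 0) (bound := fun _ => |(1 : ℝ) / 2 - k| * M ^ (k + 1))
    (Ioi_mem_nhds ht)
    (Filter.Eventually.of_forall fun t => (Sqrt_meas k _ t).aestronglyMeasurable)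
    (Sqrt_int h ht.le k)
    (((Sqrt_meas (k + 1) _ t₀).const_mul _).aestronglyMeasurable)
    (by
      filter_upwards [h] with τ hτ t ht'
      have h0 := hτ.1
      have hM := hτ.2
      have ht'' : 0 < t := ht'
      have h1 : 1 ≤ 1 + t * τ := by nlinarith [mul_nonneg ht''.le h0]
      have h2 : (1 + t * τ) ^ ((1 : ℝ) / 2 - (k + 1 : ℕ)) ≤ 1 := by
        apply Real.rpow_le_one_of_one_le_of_nonpos h1
        have : (0 : ℝ) ≤ k := Nat.cast_nonneg k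
        push_cast
        linarith
      have h3 : 0 ≤ (1 + t * τ) ^ ((1 : ℝ) / 2 - (k + 1 : ℕ)) :=
        Real.rpow_nonneg (by linarith) _
      rw [norm_mul, norm_mul, norm_pow, Real.norm_of_nonneg h0, Real.norm_of_nonneg h3,
        Real.norm_eq_abs]
      refine mul_le_mul_of_nonneg_left ?_ (abs_nonneg _)
      calc τ ^ (k + 1) * (1 + t * τ) ^ ((1 : ℝ) / 2 - (k + 1 : ℕ)) ≤ τ ^ (k + 1) * 1 :=
            mul_le_mul_of_nonneg_left h2 (pow_nonneg h0 _)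
        _ ≤ M ^ (k + 1) := by
            rw [mul_one]
            exact pow_le_pow_left₀ h0 hM _)
    (integrable_const _)
    (by
      filter_upwards [h] with τ hτ t ht'
      have h0 := hτ.1
      have ht'' : 0 < t := ht'
      have h1 : 0 < 1 + t * τ := by nlinarith [mul_nonneg ht''.le h0]
      have d1 : HasDerivAt (fun t : ℝ => 1 + t * τ) τ t := by
        simpa using ((hasDerivAt_id t).mul_const τ).const_add 1
      have d2 := (d1.rpow_const (p := (1 : ℝ) / 2 - k) (Or.inl h1.ne')).const_mul (τ ^ k)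
      have e : (1 : ℝ) / 2 - (k + 1 : ℕ) = 1 / 2 - k - 1 := by
        push_cast
        ring
      have e2 : ((1 : ℝ) / 2 - k) * (τ ^ (k + 1) * (1 + t * τ) ^ ((1 : ℝ) / 2 - (k + 1 : ℕ))) =
          τ ^ k * (τ * ((1 : ℝ) / 2 - k) * (1 + t * τ) ^ ((1 : ℝ) / 2 - k - 1)) := by
        rw [e]
        ring
      rw [← e2] at d2
      exact d2)
  have e : ∫ τ, ((1 : ℝ) / 2 - k) *
      (τ ^ (k + 1) * (1 + t₀ * τ) ^ ((1 : ℝ) / 2 - (k + 1 : ℕ))) ∂ν =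
      ((1 : ℝ) / 2 - k) * ∫ τ, τ ^ (k + 1) * (1 + t₀ * τ) ^ ((1 : ℝ) / 2 - (k + 1 : ℕ)) ∂ν :=
    integral_const_mul _ _
  rw [← e]
  exact key.2

private theorem Sqrt_lim {ν : Measure ℝ} [IsFiniteMeasure ν] {M : ℝ}
    (h : ∀ᵐ τ ∂ν, τ ∈ Icc 0 M) (k : ℕ) :
    Filter.Tendsto (fun m : ℕ => ∫ τ, τ ^ k * (1 + (1 / ((m : ℝ) + 1)) * τ) ^ ((1 : ℝ) / 2 - k) ∂ν)
      Filter.atTop (nhds (∫ τ, τ ^ k ∂ν)) := by
  refine tendsto_integral_of_dominated_convergence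
    (fun _ => M ^ k * (1 + 1 * M) ^ ((1 : ℝ) / 2))
    (fun m => (Sqrt_meas k _ _).aestronglyMeasurable) (integrable_const _) ?_ ?_
  · intro m
    filter_upwards [h] with τ hτ
    have hm : (0 : ℝ) ≤ 1 / ((m : ℝ) + 1) := by positivity
    have hm1 : 1 / ((m : ℝ) + 1) ≤ 1 := by
      rw [div_le_one (by positivity)]
      have : (0 : ℝ) ≤ m := Nat.cast_nonneg m
      linarith
    refine (Sqrt_bound hm hτ k).trans ?_
    have hM : 0 ≤ M := hτ.1.trans hτ.2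
    refine mul_le_mul_of_nonneg_left ?_ (pow_nonneg hM k)
    apply Real.rpow_le_rpow (by positivity) _ (by norm_num)
    have := mul_le_mul_of_nonneg_right hm1 hM
    linarith
  · filter_upwards with τ
    have h1 : Filter.Tendsto (fun m : ℕ => 1 + 1 / ((m : ℝ) + 1) * τ) Filter.atTop (nhds 1) := by
      have := (tendsto_one_div_add_atTop_nhds_zero_nat (𝕜 := ℝ)).mul_const τ
      simpa using this.const_add 1
    have h2 := h1.rpow_const (p := (1 : ℝ) / 2 - k) (Or.inl one_ne_zero)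
    rw [Real.one_rpow] at h2
    simpa using h2.const_mul (τ ^ k)

/-- JOB Sqrt. The functions `τ ↦ √(1 + t τ)`, `t > 0`, determine the moments of a finite measure on
`[0, M]`.
Proof. By induction on `k`: for all `t > 0` the integrals of `τ^k (1 + t τ)^(1/2 - k)` (real power)
agree; differentiate in `t` under the integral (`hasDerivAt_integral_of_dominated_loc_of_deriv_le`):
the derivative of `τ^k (1 + t τ)^(1/2-k)` is `(1/2 - k) τ^(k+1) (1 + t τ)^(1/2-(k+1))`, bounded on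
`[0,M]`, and `1/2 - k ≠ 0`. Then let `t → 0+` (dominated convergence). -/
theorem moments_of_sqrt {ν1 ν2 : Measure ℝ} [IsFiniteMeasure ν1] [IsFiniteMeasure ν2] {M : ℝ}
    (h1 : ∀ᵐ τ ∂ν1, τ ∈ Icc 0 M) (h2 : ∀ᵐ τ ∂ν2, τ ∈ Icc 0 M)
    (h : ∀ t : ℝ, 0 < t → ∫ τ, √(1 + t * τ) ∂ν1 = ∫ τ, √(1 + t * τ) ∂ν2) (k : ℕ) :
    ∫ τ, τ ^ k ∂ν1 = ∫ τ, τ ^ k ∂ν2 := by
  have key : ∀ k : ℕ, ∀ t : ℝ, 0 < t →
      ∫ τ, τ ^ k * (1 + t * τ) ^ ((1 : ℝ) / 2 - k) ∂ν1 =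
      ∫ τ, τ ^ k * (1 + t * τ) ^ ((1 : ℝ) / 2 - k) ∂ν2 := by
    intro k
    induction k with
    | zero =>
      intro t ht
      have := h t ht
      simpa [Real.sqrt_eq_rpow] using this
    | succ k ih =>
      intro t ht
      have d1 := Sqrt_deriv h1 ht k
      have d2 := Sqrt_deriv h2 ht k
      have d3 : HasDerivAt (fun t : ℝ => ∫ τ, τ ^ k * (1 + t * τ) ^ ((1 : ℝ) / 2 - k) ∂ν1)
          (((1 : ℝ) / 2 - k) *
            ∫ τ, τ ^ (k + 1) * (1 + t * τ) ^ ((1 : ℝ) / 2 - (k + 1 : ℕ)) ∂ν2) t := by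
        refine d2.congr_of_eventuallyEq ?_
        filter_upwards [Ioi_mem_nhds ht] with s hs
        exact ih s hs
      have e := d1.unique d3
      have hk : (1 : ℝ) / 2 - k ≠ 0 := by
        intro h0
        have h1 : (1 : ℝ) = 2 * k := by linarith
        have h2 : (1 : ℕ) = 2 * k := by exact_mod_cast h1
        omega
      exact mul_left_cancel₀ hk e
  refine tendsto_nhds_unique (Sqrt_lim h1 k) ?_
  refine (Sqrt_lim h2 k).congr fun m => ?_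
  exact (key k _ (by positivity)).symm

end Pool.Agent.Lib.MP_e62723_gt
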