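import Pool.Agent.Lib.MP_e62723_gt.BallAvg
import Pool.Agent.Lib.MP_e62723_gt.Sqrt

open MeasureTheory Set
open scoped ENNReal InnerProductSpace

namespace Pool.Agent.Lib.MP_e62723_gt

variable {n : ℕ}

private theorem CosineA_exists_s {t m : ℝ} (ht : 0 < t) (hm : 0 ≤ m) :
    ∃ s : ℝ, 0 ≤ s ∧ 2 * s + s ^ 2 * m = t := by
  have hc : ContinuousOn (fun s : ℝ => 2 * s + s ^ 2 * m) (Icc 0 t) := by fun_prop
  have h := intermediate_value_Icc ht.le hc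
  have ht' : t ∈ Icc (2 * (0 : ℝ) + 0 ^ 2 * m) (2 * t + t ^ 2 * m) := by
    constructor
    · simp only [mul_zero, ne_eq, OfNat.ofNat_ne_zero, not_false_eq_true, zero_pow, zero_mul,
        add_zero]
      exact ht.le
    · have : 0 ≤ t ^ 2 * m := by positivity
      linarith
  obtain ⟨s, hs, hs'⟩ := h ht'
  exact ⟨s, hs.1, hs'⟩

private theorem CosineA_norm (ξ y : E n) (hy : ‖y‖ = 1) {s t : ℝ}
    (hst : 2 * s + s ^ 2 * ‖ξ‖ ^ 2 = t) :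
    ‖y + (s * ⟪y, ξ⟫_ℝ) • ξ‖ = √(1 + t * ⟪y, ξ⟫_ℝ ^ 2) := by
  have h : ‖y + (s * ⟪y, ξ⟫_ℝ) • ξ‖ ^ 2 = 1 + t * ⟪y, ξ⟫_ℝ ^ 2 := by
    rw [norm_add_sq_real, hy, inner_smul_right, norm_smul, mul_pow, Real.norm_eq_abs, sq_abs]
    rw [← hst]
    ring
  rw [← h, Real.sqrt_sq (norm_nonneg _)]

private theorem CosineA_sqrt (hn : 1 ≤ n) {μ1 μ2 : Measure (E n)} [IsFiniteMeasure μ1]
    [IsFiniteMeasure μ2] (h1 : ∀ᵐ y ∂μ1, ‖y‖ = 1) (h2 : ∀ᵐ y ∂μ2, ‖y‖ = 1)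
    (h : ∀ u : E n, ∫⁻ y, ENNReal.ofReal |⟪y, u⟫_ℝ| ∂μ1 = ∫⁻ y, ENNReal.ofReal |⟪y, u⟫_ℝ| ∂μ2)
    (ξ : E n) {t : ℝ} (ht : 0 < t) :
    ∫ y, √(1 + t * ⟪y, ξ⟫_ℝ ^ 2) ∂μ1 = ∫ y, √(1 + t * ⟪y, ξ⟫_ℝ ^ 2) ∂μ2 := by
  obtain ⟨s, hs, hst⟩ := CosineA_exists_s ht (sq_nonneg ‖ξ‖)
  let A : E n →L[ℝ] E n := ContinuousLinearMap.id ℝ (E n) +
    s • (innerSL ℝ ξ).smulRight ξ
  have hA : ∀ y : E n, A y = y + (s * ⟪y, ξ⟫_ℝ) • ξ := by
    intro y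
    simp only [A, _root_.add_apply, ContinuousLinearMap.id_apply,
      _root_.smul_apply, ContinuousLinearMap.smulRight_apply, innerSL_apply_apply,
      smul_smul, real_inner_comm]
  have hN := norm_integrals hn h A
  have key : ∀ (μ : Measure (E n)) [IsFiniteMeasure μ], (∀ᵐ y ∂μ, ‖y‖ = 1) →
      ∫ y, √(1 + t * ⟪y, ξ⟫_ℝ ^ 2) ∂μ = (∫⁻ y, ENNReal.ofReal ‖A y‖ ∂μ).toReal := by
    intro μ _ hμ
    rw [integral_eq_lintegral_of_nonneg_ae (Filter.Eventually.of_forall fun y => Real.sqrt_nonneg _)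
      (by fun_prop)]
    congr 1
    refine lintegral_congr_ae ?_
    filter_upwards [hμ] with y hy
    rw [hA y, CosineA_norm ξ y hy hst]
  rw [key μ1 h1, key μ2 h2, hN]

/-- JOB CosineA. The even moments of linear functionals agree.
Proof. For `s ≥ 0` let `A y = y + s ⟨ξ, y⟩ ξ`; for unit vectors `y`:
`‖A y‖² = 1 + (2 s + s² ‖ξ‖²) ⟨ξ, y⟩²`, and `t = 2 s + s² ‖ξ‖²` takes all positive values. So by
`norm_integrals` the integrals of `√(1 + t ⟨ξ,y⟩²)` agree for all `t > 0`. Apply `moments_of_sqrt` to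
the images of `μ1, μ2` under `y ↦ ⟨ξ, y⟩²` (values in `[0, ‖ξ‖²]`). -/
theorem even_moments (hn : 1 ≤ n) {μ1 μ2 : Measure (E n)} [IsFiniteMeasure μ1]
    [IsFiniteMeasure μ2] (h1 : ∀ᵐ y ∂μ1, ‖y‖ = 1) (h2 : ∀ᵐ y ∂μ2, ‖y‖ = 1)
    (h : ∀ u : E n, ∫⁻ y, ENNReal.ofReal |⟪y, u⟫_ℝ| ∂μ1 = ∫⁻ y, ENNReal.ofReal |⟪y, u⟫_ℝ| ∂μ2)
    (ξ : E n) (k : ℕ) :
    ∫ y, ⟪y, ξ⟫_ℝ ^ (2 * k) ∂μ1 = ∫ y, ⟪y, ξ⟫_ℝ ^ (2 * k) ∂μ2 := by
  have hg : Measurable (fun y : E n => ⟪y, ξ⟫_ℝ ^ 2) := by fun_prop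
  have hrange : ∀ (μ : Measure (E n)), (∀ᵐ y ∂μ, ‖y‖ = 1) →
      ∀ᵐ τ ∂(μ.map (fun y : E n => ⟪y, ξ⟫_ℝ ^ 2)), τ ∈ Icc 0 (‖ξ‖ ^ 2) := by
    intro μ hμ
    refine (ae_map_iff (p := fun τ => τ ∈ Icc 0 (‖ξ‖ ^ 2)) hg.aemeasurable measurableSet_Icc).2 ?_
    filter_upwards [hμ] with y hy
    refine ⟨sq_nonneg _, ?_⟩
    have h3 := abs_real_inner_le_norm y ξ
    rw [hy, one_mul] at h3
    exact sq_le_sq' (by linarith [neg_abs_le ⟪y, ξ⟫_ℝ]) ((le_abs_self _).trans h3)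
  have hint : ∀ (μ : Measure (E n)) (j : ℕ),
      ∫ τ, τ ^ j ∂(μ.map (fun y : E n => ⟪y, ξ⟫_ℝ ^ 2)) = ∫ y, ⟪y, ξ⟫_ℝ ^ (2 * j) ∂μ := by
    intro μ j
    rw [integral_map hg.aemeasurable (by fun_prop)]
    simp only [pow_mul]
  have hsq : ∀ (μ : Measure (E n)) (t : ℝ),
      ∫ τ, √(1 + t * τ) ∂(μ.map (fun y : E n => ⟪y, ξ⟫_ℝ ^ 2)) =
        ∫ y, √(1 + t * ⟪y, ξ⟫_ℝ ^ 2) ∂μ := by
    intro μ t
    rw [integral_map hg.aemeasurable (by fun_prop)]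
  have := moments_of_sqrt (ν1 := μ1.map (fun y : E n => ⟪y, ξ⟫_ℝ ^ 2))
    (ν2 := μ2.map (fun y : E n => ⟪y, ξ⟫_ℝ ^ 2)) (hrange μ1 h1) (hrange μ2 h2)
    (fun t ht => by rw [hsq, hsq]; exact CosineA_sqrt hn h1 h2 h ξ ht) k
  rw [hint, hint] at this
  exact this

private theorem CosineB_cos {μ : Measure (E n)} [IsFiniteMeasure μ] (h1 : ∀ᵐ y ∂μ, ‖y‖ = 1)
    (ξ : E n) :
    HasSum (fun k : ℕ => (-1 : ℝ) ^ k / ((2 * k).factorial : ℝ) * ∫ y, ⟪y, ξ⟫_ℝ ^ (2 * k) ∂μ)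
      (∫ y, Real.cos ⟪y, ξ⟫_ℝ ∂μ) := by
  have hmeas : Measurable (fun y : E n => ⟪y, ξ⟫_ℝ) :=
    (continuous_id.inner continuous_const).measurable
  have hb : ∀ k : ℕ, ∀ᵐ y ∂μ, ‖(-1 : ℝ) ^ k * ⟪y, ξ⟫_ℝ ^ (2 * k) / ((2 * k).factorial : ℝ)‖ ≤
      ‖ξ‖ ^ (2 * k) / ((2 * k).factorial : ℝ) := by
    intro k
    filter_upwards [h1] with y hy
    have hi : |⟪y, ξ⟫_ℝ| ≤ ‖ξ‖ := by
      have := abs_real_inner_le_norm y ξ
      rwa [hy, one_mul] at this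
    rw [norm_div, norm_mul, norm_pow, norm_neg, norm_one, one_pow, one_mul, norm_pow,
      Real.norm_eq_abs, Real.norm_natCast]
    gcongr
  have hint : ∀ k : ℕ, Integrable
      (fun y : E n => (-1 : ℝ) ^ k * ⟪y, ξ⟫_ℝ ^ (2 * k) / ((2 * k).factorial : ℝ)) μ := by
    intro k
    refine Integrable.of_bound ?_ _ (hb k)
    exact (((hmeas.pow_const _).const_mul _).div_const _).aestronglyMeasurable
  have hsum0 : Summable (fun k : ℕ => ‖ξ‖ ^ (2 * k) / ((2 * k).factorial : ℝ)) :=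
    (Real.summable_pow_div_factorial ‖ξ‖).comp_injective
      (i := fun k : ℕ => 2 * k) (fun a b hab => by simpa using hab)
  have hsum : Summable (fun k : ℕ =>
      ∫ y, ‖(-1 : ℝ) ^ k * ⟪y, ξ⟫_ℝ ^ (2 * k) / ((2 * k).factorial : ℝ)‖ ∂μ) := by
    refine Summable.of_nonneg_of_le (fun k => integral_nonneg (fun y => norm_nonneg _)) ?_
      (hsum0.mul_left (μ.real univ))
    intro k
    have h2 := integral_mono_ae (hint k).norm (integrable_const _) (hb k)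
    rwa [integral_const, smul_eq_mul] at h2
  have key := hasSum_integral_of_summable_integral_norm hint hsum
  have e1 : (∫ y, ∑' k : ℕ, (-1 : ℝ) ^ k * ⟪y, ξ⟫_ℝ ^ (2 * k) / ((2 * k).factorial : ℝ) ∂μ) =
      ∫ y, Real.cos ⟪y, ξ⟫_ℝ ∂μ := by
    refine integral_congr_ae (Filter.Eventually.of_forall fun y => ?_)
    exact (Real.hasSum_cos _).tsum_eq
  rw [e1] at key
  have e2 : (fun k : ℕ => (-1 : ℝ) ^ k / ((2 * k).factorial : ℝ) * ∫ y, ⟪y, ξ⟫_ℝ ^ (2 * k) ∂μ) =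
      fun k : ℕ => ∫ y, (-1 : ℝ) ^ k * ⟪y, ξ⟫_ℝ ^ (2 * k) / ((2 * k).factorial : ℝ) ∂μ := by
    funext k
    rw [← integral_const_mul]
    refine integral_congr_ae (Filter.Eventually.of_forall fun y => ?_)
    simp only
    ring
  rw [e2]
  exact key

private theorem CosineB_charFun {μ : Measure (E n)} [IsFiniteMeasure μ] (ξ : E n) :
    charFun (μ + μ.map (fun y => -y)) ξ = ((2 * ∫ y, Real.cos ⟪y, ξ⟫_ℝ ∂μ : ℝ) : ℂ) := by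
  have hneg : Measurable (fun y : E n => -y) := measurable_neg
  have hcont : Continuous (fun y : E n => Complex.exp (⟪y, ξ⟫_ℝ * Complex.I)) := by fun_prop
  have hint : ∀ ν : Measure (E n), IsFiniteMeasure ν →
      Integrable (fun y : E n => Complex.exp (⟪y, ξ⟫_ℝ * Complex.I)) ν := by
    intro ν hν
    refine Integrable.of_bound hcont.aestronglyMeasurable 1 ?_
    filter_upwards with y
    rw [Complex.norm_exp_ofReal_mul_I]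
  have hcos : Integrable (fun y : E n => Complex.exp (⟪y, ξ⟫_ℝ * Complex.I)) μ := hint μ inferInstance
  have hcont2 : Continuous (fun y : E n => Complex.exp (⟪-y, ξ⟫_ℝ * Complex.I)) := by fun_prop
  have hcos2 : Integrable (fun y : E n => Complex.exp (⟪-y, ξ⟫_ℝ * Complex.I)) μ := by
    refine Integrable.of_bound hcont2.aestronglyMeasurable 1 ?_
    filter_upwards with y
    rw [Complex.norm_exp_ofReal_mul_I]
  rw [charFun_apply, integral_add_measure hcos (hint _ inferInstance),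
    integral_map hneg.aemeasurable hcont.aestronglyMeasurable, ← integral_add hcos hcos2]
  rw [← integral_const_mul, ← integral_complex_ofReal]
  refine integral_congr_ae (Filter.Eventually.of_forall fun y => ?_)
  simp only [inner_neg_left, Complex.ofReal_neg, Complex.ofReal_mul, Complex.ofReal_cos,
    Complex.ofReal_ofNat]
  rw [Complex.cos]
  ring

/-- JOB CosineB. If all even moments of linear functionals of two finite measures on the unit sphere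
agree, then the symmetrised measures agree.
Proof. `charFun (μ + μ.map (-·)) ξ = ∫ 2 cos ⟨y, ξ⟩ dμ = 2 ∑_k (-1)^k/(2k)! ∫ ⟨y,ξ⟩^(2k) dμ`
(`Real.cos_eq_tsum` or `Real.hasSum_cos`, dominated convergence
`hasSum_integral_of_summable_integral_norm`, `|⟨y,ξ⟩| ≤ ‖ξ‖`); `Measure.ext_of_charFun`. -/
theorem symm_eq_of_moments {μ1 μ2 : Measure (E n)} [IsFiniteMeasure μ1]
    [IsFiniteMeasure μ2] (h1 : ∀ᵐ y ∂μ1, ‖y‖ = 1) (h2 : ∀ᵐ y ∂μ2, ‖y‖ = 1)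
    (h : ∀ (ξ : E n) (k : ℕ),
      ∫ y, ⟪y, ξ⟫_ℝ ^ (2 * k) ∂μ1 = ∫ y, ⟪y, ξ⟫_ℝ ^ (2 * k) ∂μ2) :
    μ1 + μ1.map (fun y => -y) = μ2 + μ2.map (fun y => -y) := by
  apply Measure.ext_of_charFun
  funext ξ
  rw [CosineB_charFun, CosineB_charFun]
  have e1 := CosineB_cos h1 ξ
  have e2 := CosineB_cos h2 ξ
  simp only [h ξ] at e1
  rw [e1.unique e2]

theorem cosine_unique (hn : 1 ≤ n) {μ1 μ2 : Measure (E n)} [IsFiniteMeasure μ1]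
    [IsFiniteMeasure μ2] (h1 : ∀ᵐ y ∂μ1, ‖y‖ = 1) (h2 : ∀ᵐ y ∂μ2, ‖y‖ = 1)
    (h : ∀ u : E n, ∫⁻ y, ENNReal.ofReal |⟪y, u⟫_ℝ| ∂μ1 = ∫⁻ y, ENNReal.ofReal |⟪y, u⟫_ℝ| ∂μ2) :
    μ1 + μ1.map (fun y => -y) = μ2 + μ2.map (fun y => -y) :=
  symm_eq_of_moments h1 h2 (fun ξ k => even_moments hn h1 h2 h ξ k)

end Pool.Agent.Lib.MP_e62723_gt
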