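import Pool.Agent.Lib.MP_e62723_gt.Defs

/-!
Basic facts on the gauge `g` of a convex body with `0` in its interior, its gradient and the
support function.
-/

open MeasureTheory Set
open scoped InnerProductSpace NNReal ENNReal Gradient

namespace Pool.Agent.Lib.MP_e62723_gt

variable {n : ℕ} {K : Set (E n)}

/-- A convex body with the origin in its interior. -/
structure Body (K : Set (E n)) : Prop where
  compact : IsCompact K
  convex : Convex ℝ K
  zero_mem : (0 : E n) ∈ interior K

/-- the gradient of the gauge -/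
noncomputable def grad (K : Set (E n)) (x : E n) : E n := gradient (gauge K) x

/-- the support function -/
noncomputable def supp (K : Set (E n)) (v : E n) : ℝ := sSup ((fun x => ⟪x, v⟫_ℝ) '' K)

namespace Body

theorem mem_nhds (hK : Body K) : K ∈ nhds (0 : E n) := mem_interior_iff_mem_nhds.1 hK.zero_mem

theorem zero_mem' (hK : Body K) : (0 : E n) ∈ K := mem_of_mem_nhds hK.mem_nhds

theorem absorbent (hK : Body K) : Absorbent ℝ K := absorbent_nhds_zero hK.mem_nhds

theorem exists_lipschitz (hK : Body K) : ∃ C : ℝ≥0, LipschitzWith C (gauge K) := by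
  obtain ⟨r, hr, hball⟩ := Metric.mem_nhds_iff.1 hK.mem_nhds
  exact ⟨_, hK.convex.lipschitzWith_gauge (r := ⟨r, hr.le⟩) hr hball⟩

theorem continuous_gauge (hK : Body K) : Continuous (gauge K) := by
  obtain ⟨C, hC⟩ := hK.exists_lipschitz
  exact hC.continuous

theorem mem_iff (hK : Body K) {x : E n} : x ∈ K ↔ gauge K x ≤ 1 := by
  rw [gauge_le_one_iff_mem_closure hK.convex hK.mem_nhds, hK.compact.isClosed.closure_eq]

theorem gauge_pos (hK : Body K) {x : E n} (hx : x ≠ 0) : 0 < gauge K x := by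
  rw [_root_.gauge_pos hK.absorbent]
  · exact hx
  · exact (NormedSpace.isVonNBounded_iff ℝ).2 hK.compact.isBounded

theorem gauge_nonneg' (x : E n) : 0 ≤ gauge K x := gauge_nonneg x

theorem gauge_smul {r : ℝ} (hr : 0 ≤ r) (x : E n) : gauge K (r • x) = r * gauge K x := by
  rw [gauge_smul_of_nonneg hr, smul_eq_mul]

theorem gauge_add_le (hK : Body K) (x y : E n) : gauge K (x + y) ≤ gauge K x + gauge K y :=
  _root_.gauge_add_le hK.convex hK.absorbent x y

theorem convexOn_gauge (hK : Body K) : ConvexOn ℝ univ (gauge K) := by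
  refine ⟨convex_univ, fun x _ y _ a b ha hb _ => ?_⟩
  refine (hK.gauge_add_le _ _).trans ?_
  rw [gauge_smul ha, gauge_smul hb]
  rfl

theorem ae_differentiableAt (hK : Body K) :
    ∀ᵐ x : E n, DifferentiableAt ℝ (gauge K) x := by
  obtain ⟨C, hC⟩ := hK.exists_lipschitz
  exact hC.ae_differentiableAt

theorem inner_grad_eq {x : E n} (y : E n) : ⟪grad K x, y⟫_ℝ = fderiv ℝ (gauge K) x y := by
  unfold grad gradient
  simp

theorem inner_grad_self {x : E n} (h : DifferentiableAt ℝ (gauge K) x) :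
    ⟪grad K x, x⟫_ℝ = gauge K x := by
  rw [inner_grad_eq]
  have h1 : HasDerivAt (fun t : ℝ => gauge K (x + t • x)) (fderiv ℝ (gauge K) x x) 0 := by
    have h2 : HasFDerivAt (gauge K) (fderiv ℝ (gauge K) x) (x + (0 : ℝ) • x) := by
      rw [zero_smul, add_zero]; exact h.hasFDerivAt
    have h3 : HasDerivAt (fun t : ℝ => x + t • x) x 0 := by
      have := ((hasDerivAt_id (0 : ℝ)).smul_const x).const_add x
      simpa using this
    exact h2.comp_hasDerivAt 0 h3
  have h4 : HasDerivAt (fun t : ℝ => (1 + t) * gauge K x) (gauge K x) 0 := by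
    have := ((hasDerivAt_id (0 : ℝ)).const_add 1).mul_const (gauge K x)
    simpa using this
  have h5 : (fun t : ℝ => gauge K (x + t • x)) =ᶠ[nhds 0] fun t : ℝ => (1 + t) * gauge K x := by
    have : ∀ᶠ t : ℝ in nhds 0, -1 < t := eventually_gt_nhds (by norm_num)
    filter_upwards [this] with t ht
    have : x + t • x = (1 + t) • x := by rw [add_smul, one_smul]
    rw [this, gauge_smul (by linarith)]
  exact (h1.congr_of_eventuallyEq h5.symm).unique h4

theorem inner_grad_le (hK : Body K) {x : E n} (h : DifferentiableAt ℝ (gauge K) x) (y : E n) :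
    ⟪grad K x, y⟫_ℝ ≤ gauge K y := by
  rw [inner_grad_eq]
  have h2 : HasFDerivAt (gauge K) (fderiv ℝ (gauge K) x) (x + (0 : ℝ) • y) := by
    rw [zero_smul, add_zero]; exact h.hasFDerivAt
  have h3 : HasDerivAt (fun t : ℝ => x + t • y) y 0 := by
    have := ((hasDerivAt_id (0 : ℝ)).smul_const y).const_add x
    simpa using this
  have h1 : HasDerivAt (fun t : ℝ => gauge K (x + t • y)) (fderiv ℝ (gauge K) x y) 0 := by
    exact h2.comp_hasDerivAt 0 h3
  have h4 : Filter.Tendsto (slope (fun t : ℝ => gauge K (x + t • y)) 0) (nhdsWithin 0 (Ioi 0))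
      (nhds (fderiv ℝ (gauge K) x y)) :=
    (hasDerivAt_iff_tendsto_slope.1 h1).mono_left
      (nhdsWithin_mono 0 fun t ht => ne_of_gt ht)
  refine le_of_tendsto h4 ?_
  filter_upwards [self_mem_nhdsWithin] with t ht
  have ht' : (0 : ℝ) < t := ht
  rw [slope_def_field, sub_zero, div_le_iff₀ ht', zero_smul, add_zero]
  have := hK.gauge_add_le x (t • y)
  rw [gauge_smul ht'.le] at this
  linarith

theorem grad_ne_zero (hK : Body K) {x : E n} (h : DifferentiableAt ℝ (gauge K) x)
    (hx : x ≠ 0) : grad K x ≠ 0 := by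
  intro h0
  have h1 := inner_grad_self h
  rw [h0, inner_zero_left] at h1
  exact (hK.gauge_pos hx).ne h1

theorem exists_norm_grad_le (hK : Body K) : ∃ C : ℝ, 0 ≤ C ∧ ∀ x, ‖grad K x‖ ≤ C := by
  obtain ⟨C, hC⟩ := hK.exists_lipschitz
  refine ⟨C, C.2, fun x => ?_⟩
  unfold grad gradient
  rw [LinearIsometryEquiv.norm_map]
  exact norm_fderiv_le_of_lipschitz ℝ hC

theorem measurable_grad : Measurable (grad K) := by
  unfold grad gradient
  exact (LinearIsometryEquiv.continuous _).measurable.comp (measurable_fderiv ℝ (gauge K))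

/-! ### the support function -/

theorem bddAbove (hK : Body K) (v : E n) : BddAbove ((fun x => ⟪x, v⟫_ℝ) '' K) :=
  (hK.compact.image (by fun_prop)).bddAbove

theorem inner_le_supp (hK : Body K) {x : E n} (hx : x ∈ K) (v : E n) : ⟪x, v⟫_ℝ ≤ supp K v :=
  le_csSup (hK.bddAbove v) ⟨x, hx, rfl⟩

theorem exists_supp (hK : Body K) (v : E n) : ∃ x ∈ K, ⟪x, v⟫_ℝ = supp K v := by
  have := (hK.compact.image (f := fun x => ⟪x, v⟫_ℝ) (by fun_prop)).sSup_mem
    ⟨_, 0, hK.zero_mem', rfl⟩
  obtain ⟨x, hx, he⟩ := this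
  exact ⟨x, hx, he⟩

theorem supp_nonneg (hK : Body K) (v : E n) : 0 ≤ supp K v := by
  have := hK.inner_le_supp hK.zero_mem' v
  rwa [inner_zero_left] at this

theorem inner_le_mul (hK : Body K) (x v : E n) : ⟪x, v⟫_ℝ ≤ gauge K x * supp K v := by
  by_cases hx : x = 0
  · rw [hx, inner_zero_left, gauge_zero, zero_mul]
  have hg := hK.gauge_pos hx
  have h1 : (gauge K x)⁻¹ • x ∈ K := by
    rw [hK.mem_iff, gauge_smul (by positivity), inv_mul_cancel₀ hg.ne']
  have h2 := hK.inner_le_supp h1 v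
  rw [real_inner_smul_left] at h2
  calc ⟪x, v⟫_ℝ = gauge K x * ((gauge K x)⁻¹ * ⟪x, v⟫_ℝ) := by
        rw [← mul_assoc, mul_inv_cancel₀ hg.ne', one_mul]
    _ ≤ gauge K x * supp K v := mul_le_mul_of_nonneg_left h2 hg.le

theorem supp_smul (hK : Body K) {r : ℝ} (hr : 0 ≤ r) (v : E n) :
    supp K (r • v) = r * supp K v := by
  apply le_antisymm
  · obtain ⟨x, hx, he⟩ := hK.exists_supp (r • v)
    rw [← he, real_inner_smul_right]
    exact mul_le_mul_of_nonneg_left (hK.inner_le_supp hx v) hr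
  · obtain ⟨x, hx, he⟩ := hK.exists_supp v
    rw [← he, ← real_inner_smul_right]
    exact hK.inner_le_supp hx _

theorem supp_pos (hK : Body K) {v : E n} (hv : v ≠ 0) : 0 < supp K v := by
  obtain ⟨r, hr, hball⟩ := Metric.mem_nhds_iff.1 hK.mem_nhds
  have hv' : 0 < ‖v‖ := norm_pos_iff.2 hv
  have h1 : (r / (2 * ‖v‖)) • v ∈ K := by
    apply hball
    rw [mem_ball_zero_iff, norm_smul, Real.norm_of_nonneg (by positivity)]
    have : r / (2 * ‖v‖) * ‖v‖ = r / 2 := by field_simp
    rw [this]
    linarith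
  have h2 := hK.inner_le_supp h1 v
  rw [real_inner_smul_left, real_inner_self_eq_norm_sq] at h2
  have : 0 < r / (2 * ‖v‖) * ‖v‖ ^ 2 := by positivity
  linarith

theorem supp_le_add (hK : Body K) (v w : E n) : supp K (v + w) ≤ supp K v + supp K w := by
  obtain ⟨x, hx, he⟩ := hK.exists_supp (v + w)
  rw [← he, inner_add_right]
  exact add_le_add (hK.inner_le_supp hx v) (hK.inner_le_supp hx w)

theorem continuous_supp (hK : Body K) : Continuous (supp K) := by
  obtain ⟨R, hR⟩ := hK.compact.isBounded.exists_norm_le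
  have hb : ∀ v, supp K v ≤ R * ‖v‖ := by
    intro v
    obtain ⟨x, hx, he⟩ := hK.exists_supp v
    rw [← he]
    exact (real_inner_le_norm x v).trans
      (mul_le_mul_of_nonneg_right (hR x hx) (norm_nonneg v))
  have hR0 : 0 ≤ R := (norm_nonneg _).trans (hR 0 hK.zero_mem')
  have : LipschitzWith ⟨R, hR0⟩ (supp K) := by
    refine LipschitzWith.of_le_add_mul _ fun v w => ?_
    have h1 := hK.supp_le_add w (v - w)
    rw [add_sub_cancel] at h1
    have h2 := hb (v - w)
    rw [dist_eq_norm]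
    show supp K v ≤ supp K w + R * ‖v - w‖
    linarith
  exact this.continuous

theorem supp_grad_le (hK : Body K) {x : E n} (h : DifferentiableAt ℝ (gauge K) x) :
    supp K (grad K x) ≤ 1 := by
  obtain ⟨y, hy, he⟩ := hK.exists_supp (grad K x)
  rw [← he, real_inner_comm]
  exact (hK.inner_grad_le h y).trans (hK.mem_iff.1 hy)

end Body

end Pool.Agent.Lib.MP_e62723_gt
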