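import Mathlib

open MeasureTheory Set
open scoped ENNReal Pointwise

namespace Pool.Agent.Lib.MP_e62723_gt

private theorem halfA_compact {K L S : Set ℝ} (hK : IsCompact K) (hL : IsCompact L)
    (hKn : K.Nonempty) (hLn : L.Nonempty) (hS : ∀ x ∈ K, ∀ y ∈ L, x + y ∈ S) :
    volume K + volume L ≤ volume S := by
  obtain ⟨k, hk, hkmax⟩ := hK.exists_isGreatest hKn
  obtain ⟨l, hl, hlmin⟩ := hL.exists_isLeast hLn
  have hm1 : MeasurableSet ((fun x => x + l) '' K) :=
    (hK.image (by fun_prop)).measurableSet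
  have hm2 : MeasurableSet ((fun x => k + x) '' L) :=
    (hL.image (by fun_prop)).measurableSet
  have e1 : volume ((fun x => x + l) '' K) = volume K := by
    rw [image_add_right, measure_preimage_add_right]
  have e2 : volume ((fun x => k + x) '' L) = volume L := by
    rw [image_add_left, measure_preimage_add]
  have hsub : ((fun x => x + l) '' K) ∪ ((fun x => k + x) '' L) ⊆ S := by
    rintro z (⟨x, hx, rfl⟩ | ⟨y, hy, rfl⟩)
    · exact hS x hx l hl
    · exact hS k hk y hy
  have hint : volume (((fun x => x + l) '' K) ∩ ((fun x => k + x) '' L)) = 0 := by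
    refine measure_mono_null (t := {k + l}) ?_ (by simp)
    rintro z ⟨⟨x, hx, rfl⟩, ⟨y, hy, hxy⟩⟩
    have h1 : x ≤ k := hkmax hx
    have h2 : l ≤ y := hlmin hy
    simp only at hxy
    rw [mem_singleton_iff]
    simp only
    linarith
  calc volume K + volume L = volume ((fun x => x + l) '' K) + volume ((fun x => k + x) '' L) := by
        rw [e1, e2]
    _ = volume (((fun x => x + l) '' K) ∪ ((fun x => k + x) '' L))
        + volume (((fun x => x + l) '' K) ∩ ((fun x => k + x) '' L)) :=
        (measure_union_add_inter _ hm2).symm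
    _ = volume (((fun x => x + l) '' K) ∪ ((fun x => k + x) '' L)) := by rw [hint, add_zero]
    _ ≤ volume S := measure_mono hsub

private theorem halfA_bm {A B S : Set ℝ} (hA : MeasurableSet A) (hB : MeasurableSet B)
    (hAn : A.Nonempty) (hBn : B.Nonempty) (hS : ∀ x ∈ A, ∀ y ∈ B, x + y ∈ S) :
    volume A + volume B ≤ volume S := by
  have key : ∀ K ⊆ A, IsCompact K → ∀ L ⊆ B, IsCompact L → volume K + volume L ≤ volume S := by
    intro K hKA hK L hLB hL
    obtain ⟨a, ha⟩ := hAn
    obtain ⟨b, hb⟩ := hBn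
    have h1 := halfA_compact (K := insert a K) (L := insert b L) (S := S) (hK.insert a)
      (hL.insert b) ⟨a, mem_insert _ _⟩ ⟨b, mem_insert _ _⟩ (by
        intro x hx y hy
        have hx' : x ∈ A := by
          rcases hx with rfl | hx
          · exact ha
          · exact hKA hx
        have hy' : y ∈ B := by
          rcases hy with rfl | hy
          · exact hb
          · exact hLB hy
        exact hS x hx' y hy')
    exact (add_le_add (measure_mono (subset_insert _ _)) (measure_mono (subset_insert _ _))).trans h1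
  have key2 : ∀ L ⊆ B, IsCompact L → volume A + volume L ≤ volume S := by
    intro L hLB hL
    have hfin : volume L ≠ ∞ := hL.measure_lt_top.ne
    have hle : volume L ≤ volume S := by
      have := key ∅ (empty_subset _) isCompact_empty L hLB hL
      simpa using this
    have : volume A ≤ volume S - volume L := by
      rw [hA.measure_eq_iSup_isCompact]
      refine iSup_le fun K => iSup_le fun hKA => iSup_le fun hK => ?_
      exact ENNReal.le_sub_of_add_le_right hfin (key K hKA hK L hLB hL)
    calc volume A + volume L ≤ (volume S - volume L) + volume L := by gcongr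
      _ = volume S := tsub_add_cancel_of_le hle
  by_cases hfin : volume A = ∞
  · have := key2 ∅ (empty_subset _) isCompact_empty
    rw [hfin] at this
    simp only [measure_empty, add_zero, top_le_iff] at this
    rw [this]
    exact le_top
  · have hle : volume A ≤ volume S := by
      have := key2 ∅ (empty_subset _) isCompact_empty
      simpa using this
    have : volume B ≤ volume S - volume A := by
      rw [hB.measure_eq_iSup_isCompact]
      refine iSup_le fun K => iSup_le fun hKA => iSup_le fun hK => ?_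
      apply ENNReal.le_sub_of_add_le_left hfin
      exact key2 K hKA hK
    calc volume A + volume B ≤ volume A + (volume S - volume A) := by gcongr
      _ = volume S := add_tsub_cancel_of_le hle

private theorem halfA_scale (S : Set ℝ) : volume ((fun z : ℝ => z / 2) ⁻¹' S) = 2 * volume S := by
  have h := Real.volume_preimage_mul_right (a := (1 / 2 : ℝ)) (by norm_num) S
  have : (fun z : ℝ => z / 2) = (fun z : ℝ => z * (1 / 2)) := by
    ext z; ring
  rw [this, h]
  norm_num

/-- normalised case -/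
private theorem halfA_norm {f g H : ℝ → ℝ} (hf : Measurable f) (hg : Measurable g)
    (hH : Measurable H) (hf0 : ∀ x, 0 ≤ f x) (hg0 : ∀ x, 0 ≤ g x) (hH0 : ∀ x, 0 ≤ H x)
    (h : ∀ x y, f x * g y ≤ H ((x + y) / 2) ^ 2) (hf1 : ∀ x, f x ≤ 1) (hg1 : ∀ x, g x ≤ 1)
    (hfs : ∀ t < 1, ∃ x, t < f x) (hgs : ∀ t < 1, ∃ x, t < g x) :
    (∫⁻ x, ENNReal.ofReal (f x)) + (∫⁻ x, ENNReal.ofReal (g x))
      ≤ 2 * ∫⁻ x, ENNReal.ofReal (H x) := by
  rw [lintegral_eq_lintegral_meas_lt volume (Filter.Eventually.of_forall hf0) hf.aemeasurable,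
    lintegral_eq_lintegral_meas_lt volume (Filter.Eventually.of_forall hg0) hg.aemeasurable,
    lintegral_eq_lintegral_meas_lt volume (Filter.Eventually.of_forall hH0) hH.aemeasurable]
  have hanti : ∀ F : ℝ → ℝ, Antitone fun t => volume {a : ℝ | t < F a} := by
    intro F s t hst
    exact measure_mono fun a (ha : t < F a) => lt_of_le_of_lt hst ha
  rw [← lintegral_add_left (hanti f).measurable, ← lintegral_const_mul' _ _ (by norm_num)]
  refine setLIntegral_mono' measurableSet_Ioi fun t ht => ?_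
  have ht0 : 0 < t := ht
  by_cases ht1 : t < 1
  · rw [← halfA_scale]
    refine halfA_bm (measurableSet_lt measurable_const hf) (measurableSet_lt measurable_const hg)
      (hfs t ht1) (hgs t ht1) ?_
    intro x hx y hy
    have hx' : t < f x := hx
    have hy' : t < g y := hy
    show t < H ((x + y) / 2)
    have h1 := h x y
    have h2 : t ^ 2 < H ((x + y) / 2) ^ 2 := by nlinarith
    exact lt_of_pow_lt_pow_left₀ 2 (hH0 _) h2
  · have e1 : {a : ℝ | t < f a} = ∅ := by
      ext a
      simp only [mem_ofPred_eq, mem_empty_iff_false, iff_false, not_lt]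
      exact (hf1 a).trans (not_lt.mp ht1)
    have e2 : {a : ℝ | t < g a} = ∅ := by
      ext a
      simp only [mem_ofPred_eq, mem_empty_iff_false, iff_false, not_lt]
      exact (hg1 a).trans (not_lt.mp ht1)
    rw [e1, e2, measure_empty, add_zero]
    exact zero_le

private theorem halfA_amgm (x y : ℝ≥0∞) : 4 * (x * y) ≤ (x + y) ^ 2 := by
  by_cases hx : x = ∞
  · subst hx; simp
  by_cases hy : y = ∞
  · subst hy; simp
  lift x to NNReal using hx
  lift y to NNReal using hy
  norm_cast
  rw [← NNReal.coe_le_coe]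
  push_cast
  nlinarith [sq_nonneg ((x : ℝ) - y)]

private theorem halfA_bdd {f g H : ℝ → ℝ} (hf : Measurable f) (hg : Measurable g)
    (hH : Measurable H) (hf0 : ∀ x, 0 ≤ f x) (hg0 : ∀ x, 0 ≤ g x) (hH0 : ∀ x, 0 ≤ H x)
    (h : ∀ x y, f x * g y ≤ H ((x + y) / 2) ^ 2) (hfb : BddAbove (range f))
    (hgb : BddAbove (range g)) :
    (∫⁻ x, ENNReal.ofReal (f x)) * (∫⁻ x, ENNReal.ofReal (g x))
      ≤ (∫⁻ x, ENNReal.ofReal (H x)) ^ 2 := by
  set a := ⨆ x, f x with ha
  set b := ⨆ x, g x with hb
  have hfa : ∀ x, f x ≤ a := fun x => le_ciSup hfb x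
  have hgb' : ∀ x, g x ≤ b := fun x => le_ciSup hgb x
  have ha0 : 0 ≤ a := (hf0 0).trans (hfa 0)
  have hb0 : 0 ≤ b := (hg0 0).trans (hgb' 0)
  rcases ha0.eq_or_lt with ha0' | ha0'
  · have : ∀ x, f x = 0 := fun x => le_antisymm (ha0' ▸ hfa x) (hf0 x)
    simp [this]
  rcases hb0.eq_or_lt with hb0' | hb0'
  · have : ∀ x, g x = 0 := fun x => le_antisymm (hb0' ▸ hgb' x) (hg0 x)
    simp [this]
  set c := Real.sqrt (a * b) with hc
  have hab : 0 < a * b := mul_pos ha0' hb0'
  have hc0 : 0 < c := Real.sqrt_pos.mpr hab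
  have hcc : c * c = a * b := Real.mul_self_sqrt hab.le
  have hn := halfA_norm (f := fun x => f x / a) (g := fun x => g x / b) (H := fun x => H x / c)
    (by fun_prop) (by fun_prop) (by fun_prop) (fun x => div_nonneg (hf0 x) ha0)
    (fun x => div_nonneg (hg0 x) hb0) (fun x => div_nonneg (hH0 x) hc0.le)
    (fun x y => by
      have := h x y
      rw [div_pow, div_mul_div_comm, sq c, hcc]
      gcongr)
    (fun x => (div_le_one ha0').mpr (hfa x)) (fun x => (div_le_one hb0').mpr (hgb' x))
    (fun t ht => by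
      have : t * a < ⨆ x, f x := by nlinarith
      obtain ⟨x, hx⟩ := exists_lt_of_lt_ciSup this
      exact ⟨x, (lt_div_iff₀ ha0').mpr hx⟩)
    (fun t ht => by
      have : t * b < ⨆ x, g x := by nlinarith
      obtain ⟨x, hx⟩ := exists_lt_of_lt_ciSup this
      exact ⟨x, (lt_div_iff₀ hb0').mpr hx⟩)
  have hsc : ∀ (F : ℝ → ℝ) (s : ℝ), 0 < s →
      ∫⁻ x, ENNReal.ofReal (F x) = ENNReal.ofReal s * ∫⁻ x, ENNReal.ofReal (F x / s) := by
    intro F s hs
    rw [← lintegral_const_mul' _ _ ENNReal.ofReal_ne_top]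
    refine lintegral_congr fun x => ?_
    rw [← ENNReal.ofReal_mul hs.le]
    congr 1
    field_simp
  rw [hsc f a ha0', hsc g b hb0', hsc H c hc0]
  set P := ∫⁻ x, ENNReal.ofReal (f x / a)
  set Q := ∫⁻ x, ENNReal.ofReal (g x / b)
  set R := ∫⁻ x, ENNReal.ofReal (H x / c)
  have h1 : P * Q ≤ R ^ 2 := by
    have h4 : 4 * (P * Q) ≤ 4 * R ^ 2 := by
      calc 4 * (P * Q) ≤ (P + Q) ^ 2 := halfA_amgm P Q
        _ ≤ (2 * R) ^ 2 := by gcongr
        _ = 4 * R ^ 2 := by ring
    exact (ENNReal.mul_le_mul_iff_right (by norm_num) (by norm_num)).mp h4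
  have hcab : ENNReal.ofReal c * ENNReal.ofReal c = ENNReal.ofReal a * ENNReal.ofReal b := by
    rw [← ENNReal.ofReal_mul hc0.le, ← ENNReal.ofReal_mul ha0, hcc]
  calc ENNReal.ofReal a * P * (ENNReal.ofReal b * Q)
      = (ENNReal.ofReal a * ENNReal.ofReal b) * (P * Q) := by ring
    _ ≤ (ENNReal.ofReal a * ENNReal.ofReal b) * R ^ 2 := by gcongr
    _ = (ENNReal.ofReal c * R) ^ 2 := by rw [← hcab]; ring

/-- JOB HalfA. One-dimensional Prekopa-Leindler inequality (`λ = 1/2`, product form), `H` explicit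
and integrable. -/
theorem prekopa {F G : ℝ → ℝ≥0∞} {H : ℝ → ℝ} (hF : Measurable F) (hG : Measurable G)
    (hH : Measurable H) (hH0 : ∀ x, 0 ≤ H x)
    (h : ∀ x y, F x * G y ≤ ENNReal.ofReal (H ((x + y) / 2) ^ 2)) :
    (∫⁻ x, F x) * (∫⁻ y, G y) ≤ (∫⁻ x, ENNReal.ofReal (H x)) ^ 2 := by
  have hsup : ∀ F : ℝ → ℝ≥0∞, Measurable F →
      ∫⁻ x, F x = ⨆ m : ℕ, ∫⁻ x, min (F x) (m : ℝ≥0∞) := by
    intro F hF
    rw [← lintegral_iSup]
    · refine lintegral_congr fun x => ?_
      apply le_antisymm
      · by_cases hx : F x = ∞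
        · rw [hx]
          simp only [le_top, inf_of_le_right]
          rw [ENNReal.iSup_natCast]
        · obtain ⟨m, hm⟩ := ENNReal.exists_nat_gt hx
          refine le_iSup_of_le m ?_
          rw [min_eq_left hm.le]
      · exact iSup_le fun m => min_le_left _ _
    · intro m
      exact hF.min measurable_const
    · intro m n hmn x
      simp only
      gcongr
  have hm : ∀ m n : ℕ, (∫⁻ x, min (F x) (m : ℝ≥0∞)) * (∫⁻ x, min (G x) (n : ℝ≥0∞))
      ≤ (∫⁻ x, ENNReal.ofReal (H x)) ^ 2 := by
    intro m n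
    have hfin : ∀ (F : ℝ → ℝ≥0∞) (m : ℕ) (x : ℝ), min (F x) (m : ℝ≥0∞) ≠ ∞ := by
      intro F m x
      exact (lt_of_le_of_lt (min_le_right _ _) (ENNReal.natCast_lt_top m)).ne
    have hb : ∀ (F : ℝ → ℝ≥0∞) (m : ℕ),
        BddAbove (range fun x => (min (F x) (m : ℝ≥0∞)).toReal) := by
      intro F m
      refine ⟨m, ?_⟩
      rintro _ ⟨x, rfl⟩
      have := ENNReal.toReal_mono (ENNReal.natCast_ne_top m) (min_le_right (F x) (m : ℝ≥0∞))
      simpa using this
    have := halfA_bdd (f := fun x => (min (F x) (m : ℝ≥0∞)).toReal)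
      (g := fun x => (min (G x) (n : ℝ≥0∞)).toReal) (H := H)
      (hF.min measurable_const).ennreal_toReal (hG.min measurable_const).ennreal_toReal hH
      (fun x => ENNReal.toReal_nonneg) (fun x => ENNReal.toReal_nonneg) hH0
      (fun x y => by
        rw [← ENNReal.toReal_mul]
        apply ENNReal.toReal_le_of_le_ofReal (sq_nonneg _)
        refine le_trans ?_ (h x y)
        gcongr
        · exact min_le_left _ _
        · exact min_le_left _ _) (hb F m) (hb G n)
    simpa only [ENNReal.ofReal_toReal (hfin F m _), ENNReal.ofReal_toReal (hfin G n _)] using this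
  rw [hsup F hF, hsup G hG, ENNReal.iSup_mul]
  refine iSup_le fun m => ?_
  rw [ENNReal.mul_iSup]
  exact iSup_le fun n => hm m n

private theorem halfB_subst (f : ℝ → ℝ≥0∞) :
    ∫⁻ s in Ioi (0 : ℝ), f s = ∫⁻ a : ℝ, f (Real.exp a) * ENNReal.ofReal (Real.exp a) := by
  have h := lintegral_image_eq_lintegral_abs_deriv_mul (s := univ) (f := Real.exp)
    (f' := Real.exp) MeasurableSet.univ (fun x _ => (Real.hasDerivAt_exp x).hasDerivWithinAt)
    Real.exp_injective.injOn f
  rw [image_univ, Real.range_exp, Measure.restrict_univ] at h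
  rw [h]
  refine lintegral_congr fun a => ?_
  rw [abs_of_pos (Real.exp_pos a), mul_comm]

/-- JOB HalfB. Multiplicative version on the half line.
Proof. Substitute `s = e^a`, `t = e^b`: `F a = f (e^a) e^a`, `G b = g (e^b) e^b`,
`H c = √C exp(-e^{2c} + c)`; `F a G b ≤ H((a+b)/2)²`; `∫ H = √C ∫_0^∞ e^{-u²} du = √C √π / 2`.
(`lintegral_image_eq_lintegral_abs_deriv_mul` for `exp`, `integral_gaussian_Ioi`.) -/
theorem halfLine {f g : ℝ → ℝ≥0∞} (hf : Measurable f) (hg : Measurable g) {C : ℝ} (hC : 0 ≤ C)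
    (h : ∀ s > 0, ∀ t > 0, f s * g t ≤ ENNReal.ofReal (C * Real.exp (-2 * (s * t)))) :
    (∫⁻ s in Ioi 0, f s) * (∫⁻ t in Ioi 0, g t) ≤ ENNReal.ofReal (C * (Real.pi / 4)) := by
  set H : ℝ → ℝ := fun c => Real.sqrt C * (Real.exp (-(Real.exp c) ^ 2) * Real.exp c) with hH
  have hHm : Measurable H := by rw [hH]; fun_prop
  have hH0 : ∀ x, 0 ≤ H x := fun x => by rw [hH]; positivity
  have hp := prekopa (F := fun a => f (Real.exp a) * ENNReal.ofReal (Real.exp a))
    (G := fun a => g (Real.exp a) * ENNReal.ofReal (Real.exp a)) (H := H)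
    ((hf.comp Real.measurable_exp).mul (ENNReal.measurable_ofReal.comp Real.measurable_exp))
    ((hg.comp Real.measurable_exp).mul (ENNReal.measurable_ofReal.comp Real.measurable_exp))
    hHm hH0 (fun a b => by
      have e1 : H ((a + b) / 2) ^ 2
          = C * Real.exp (-2 * (Real.exp a * Real.exp b)) * (Real.exp a * Real.exp b) := by
        rw [hH]
        simp only
        have e2 : Real.exp ((a + b) / 2) ^ 2 = Real.exp a * Real.exp b := by
          rw [← Real.exp_nat_mul, ← Real.exp_add]
          congr 1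
          push_cast
          ring
        rw [mul_pow, mul_pow, Real.sq_sqrt hC, e2, ← Real.exp_nat_mul, mul_assoc]
        congr 3
        push_cast
        ring
      rw [e1, ENNReal.ofReal_mul (by positivity), ENNReal.ofReal_mul (Real.exp_pos a).le]
      calc f (Real.exp a) * ENNReal.ofReal (Real.exp a)
            * (g (Real.exp b) * ENNReal.ofReal (Real.exp b))
          = (f (Real.exp a) * g (Real.exp b))
            * (ENNReal.ofReal (Real.exp a) * ENNReal.ofReal (Real.exp b)) := by ring
        _ ≤ _ := by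
          gcongr
          exact h _ (Real.exp_pos a) _ (Real.exp_pos b))
  rw [← halfB_subst, ← halfB_subst] at hp
  refine hp.trans (le_of_eq ?_)
  have hint : ∫⁻ x, ENNReal.ofReal (H x)
      = ENNReal.ofReal (Real.sqrt C) * ENNReal.ofReal (Real.sqrt Real.pi / 2) := by
    have e1 : ∀ x, ENNReal.ofReal (H x) = ENNReal.ofReal (Real.sqrt C)
        * ((fun u : ℝ => ENNReal.ofReal (Real.exp (-u ^ 2))) (Real.exp x)
          * ENNReal.ofReal (Real.exp x)) := by
      intro x
      rw [hH]
      simp only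
      rw [ENNReal.ofReal_mul (Real.sqrt_nonneg C), ENNReal.ofReal_mul (Real.exp_pos _).le]
    simp_rw [e1]
    rw [lintegral_const_mul' _ _ ENNReal.ofReal_ne_top,
      ← halfB_subst (fun u : ℝ => ENNReal.ofReal (Real.exp (-u ^ 2)))]
    congr 1
    have hg1 := integral_gaussian_Ioi 1
    rw [← ofReal_integral_eq_lintegral_ofReal]
    · congr 1
      simp only [neg_mul, one_mul, div_one] at hg1
      exact hg1
    · have := (integrable_exp_neg_mul_sq (b := 1) one_pos).integrableOn (s := Ioi (0 : ℝ))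
      simp only [neg_mul, one_mul] at this
      exact this
    · exact Filter.Eventually.of_forall fun x => (Real.exp_pos _).le
  rw [hint, ← ENNReal.ofReal_mul (Real.sqrt_nonneg C), ← ENNReal.ofReal_pow (by positivity)]
  congr 1
  rw [mul_pow, div_pow, Real.sq_sqrt hC, Real.sq_sqrt Real.pi_pos.le]
  ring

end Pool.Agent.Lib.MP_e62723_gt
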