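import Mathlib

open MeasureTheory Set
open scoped ENNReal

namespace Pool.Agent.Lib.MP_e62723_gt

private lemma LehecB_continuous_Iio (ν : Measure ℝ) [IsFiniteMeasure ν] [NullSingletonClass ν] :
    Continuous fun b : ℝ => ν.real (Iio b) := by
  rw [continuous_iff_continuousAt]
  intro a
  have h := (integrableOn_const (C := (1 : ℝ)) (μ := ν) (s := Iio (a + 1))
    (measure_ne_top _ _)).continuousOn_Iic_primitive_Iio
  have h2 : ContinuousAt (fun b => ∫ x in Iio b, (1 : ℝ) ∂ν) a :=
    h.continuousAt (Iic_mem_nhds (by linarith))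
  simpa using h2

private lemma LehecB_median (ν : Measure ℝ) [IsFiniteMeasure ν] [NullSingletonClass ν] :
    ∃ c : ℝ, ν (Ioi c) = ν (Iio c) := by
  by_cases h0 : ν univ = 0
  · have : ν = 0 := Measure.measure_univ_eq_zero.1 h0
    exact ⟨0, by simp [this]⟩
  have hM : 0 < ν.real univ := by
    rw [Measure.real, ENNReal.toReal_pos_iff]
    exact ⟨pos_iff_ne_zero.2 h0, measure_lt_top _ _⟩
  have hIic : ∀ c : ℝ, ν.real (Iic c) = ν.real (Iio c) := by
    intro c
    rw [Measure.real, Measure.real, ← Iio_union_right, measure_union (by simp) (by simp)]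
    simp
  have hcomp : ∀ c : ℝ, ν.real (Ioi c) = ν.real univ - ν.real (Iio c) := by
    intro c
    have h : Ioi c = (Iic c)ᶜ := by simp
    rw [h, measureReal_compl measurableSet_Iic, hIic]
  -- small values at `-∞`, large values at `∞`
  have htop : ∃ b : ℝ, ν.real univ / 2 ≤ ν.real (Iio b) := by
    have h1 : Filter.Tendsto (fun c : ℝ => ν.real (Iic c)) Filter.atTop (nhds (ν.real univ)) :=
      (ENNReal.tendsto_toReal (measure_ne_top _ _)).comp (tendsto_measure_Iic_atTop ν)
    obtain ⟨b, hb⟩ := (h1.eventually (lt_mem_nhds (show ν.real univ / 2 < ν.real univ by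
      linarith))).exists
    exact ⟨b, by rw [← hIic]; exact hb.le⟩
  have hbot : ∃ b : ℝ, ν.real (Iio b) ≤ ν.real univ / 2 := by
    have h1 : Filter.Tendsto (fun c : ℝ => ν.real (Ici c)) Filter.atBot (nhds (ν.real univ)) :=
      (ENNReal.tendsto_toReal (measure_ne_top _ _)).comp (tendsto_measure_Ici_atBot ν)
    obtain ⟨b, hb⟩ := (h1.eventually (lt_mem_nhds (show ν.real univ / 2 < ν.real univ by
      linarith))).exists
    refine ⟨b, ?_⟩
    have h : Iio b = (Ici b)ᶜ := by simp
    rw [h, measureReal_compl measurableSet_Ici]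
    linarith
  obtain ⟨a, ha⟩ := hbot
  obtain ⟨b, hb⟩ := htop
  obtain ⟨c, hc⟩ := mem_range_of_exists_le_of_exists_ge (LehecB_continuous_Iio ν) ⟨a, ha⟩ ⟨b, hb⟩
  refine ⟨c, ?_⟩
  have h1 : ν.real (Ioi c) = ν.real (Iio c) := by
    rw [hcomp]
    have : ν.real (Iio c) = ν.real univ / 2 := hc
    linarith
  rw [Measure.real, Measure.real, ENNReal.toReal_eq_toReal_iff' (measure_ne_top _ _)
    (measure_ne_top _ _)] at h1
  exact h1

/-- JOB LehecB. The maps used in the step preserve the volume. -/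
theorem shear_mp {n : ℕ} (c : ℝ) (z w : Fin n → ℝ) :
    MeasurePreserving (fun p : ℝ × (Fin n → ℝ) => (p.1 + c, p.2 + p.1 • w + z)) volume volume := by
  have h := (measurePreserving_add_right (volume : Measure ℝ) c).skew_product
    (g := fun (a : ℝ) (y : Fin n → ℝ) => y + a • w + z) (μc := (volume : Measure (Fin n → ℝ)))
    (μd := (volume : Measure (Fin n → ℝ))) (by fun_prop) ?_
  · exact h
  · refine Filter.Eventually.of_forall fun a => ?_
    have := (measurePreserving_add_right (volume : Measure (Fin n → ℝ)) (a • w + z)).map_eq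
    simpa only [add_assoc] using this

/-- JOB LehecB. The contragredient shear preserves the volume. -/
theorem coshear_mp {n : ℕ} (w : Fin n → ℝ) :
    MeasurePreserving (fun p : ℝ × (Fin n → ℝ) => (p.1 - p.2 ⬝ᵥ w, p.2)) volume volume := by
  have h := (MeasurePreserving.id (volume : Measure (Fin n → ℝ))).skew_product
    (g := fun (y : Fin n → ℝ) (t : ℝ) => t - y ⬝ᵥ w) (μc := (volume : Measure ℝ))
    (μd := (volume : Measure ℝ)) ?_ ?_
  · have h1 := (Measure.measurePreserving_swap (μ := (volume : Measure (Fin n → ℝ)))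
      (ν := (volume : Measure ℝ))).comp (h.comp (Measure.measurePreserving_swap
        (μ := (volume : Measure ℝ)) (ν := (volume : Measure (Fin n → ℝ)))))
    exact h1
  · unfold Function.uncurry dotProduct
    fun_prop
  · refine Filter.Eventually.of_forall fun a => ?_
    exact (measurePreserving_sub_right (volume : Measure ℝ) (a ⬝ᵥ w)).map_eq

private lemma LehecB_hyperplane {n : ℕ} (c : ℝ) :
    (volume : Measure (ℝ × (Fin n → ℝ))) {y | y.1 = c} = 0 := by
  have : {y : ℝ × (Fin n → ℝ) | y.1 = c} = {c} ×ˢ univ := by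
    ext y
    simp
  rw [this, Measure.volume_eq_prod, Measure.prod_prod]
  simp

/-- Halving hyperplane. -/
private lemma LehecB_halving {n : ℕ} {g : ℝ × (Fin n → ℝ) → ℝ≥0∞}
    (hg0 : ∫⁻ y, g y ≠ ∞) :
    ∃ c : ℝ, ∫⁻ y in {y | c < y.1}, g y = ∫⁻ y in {y | y.1 < c}, g y := by
  have : IsFiniteMeasure (volume.withDensity g) := isFiniteMeasure_withDensity hg0
  set ν : Measure ℝ := (volume.withDensity g).map Prod.fst with hν
  have : IsFiniteMeasure ν := by
    rw [hν]
    infer_instance
  have : NullSingletonClass ν := ⟨fun c => by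
    rw [hν, Measure.map_apply measurable_fst (measurableSet_singleton c)]
    apply withDensity_absolutelyContinuous volume g
    have : (Prod.fst ⁻¹' {c} : Set (ℝ × (Fin n → ℝ))) = {y | y.1 = c} := by
      ext y; simp
    rw [this]
    exact LehecB_hyperplane c⟩
  obtain ⟨c, hc⟩ := LehecB_median ν
  refine ⟨c, ?_⟩
  rw [hν, Measure.map_apply measurable_fst measurableSet_Ioi,
    Measure.map_apply measurable_fst measurableSet_Iio,
    withDensity_apply _ (measurable_fst measurableSet_Ioi),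
    withDensity_apply _ (measurable_fst measurableSet_Iio)] at hc
  exact hc

private lemma LehecB_pos {n : ℕ} {g : ℝ × (Fin n → ℝ) → ℝ≥0∞} (hg : Measurable g)
    {S : Set (ℝ × (Fin n → ℝ))} (hS : MeasurableSet S) (f : ℝ × (Fin n → ℝ) → ℝ)
    (hg0 : ∫⁻ y, g y ≠ ∞) (hfS : ∀ y ∈ S, 0 < f y)
    (hfi : IntegrableOn (fun y => (g y).toReal * f y) S)
    (hpos : ∫⁻ y in S, g y ≠ 0) : 0 < ∫ y in S, (g y).toReal * f y := by
  have hnn : 0 ≤ᵐ[volume.restrict S] fun y => (g y).toReal * f y := by
    filter_upwards [ae_restrict_mem hS] with y hy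
    exact mul_nonneg ENNReal.toReal_nonneg (hfS y hy).le
  refine lt_of_le_of_ne (integral_nonneg_of_ae hnn) ?_
  intro h
  apply hpos
  have h1 := (integral_eq_zero_iff_of_nonneg_ae hnn hfi).1 h.symm
  rw [lintegral_eq_zero_iff hg]
  have hfin : ∀ᵐ y ∂(volume.restrict S), g y < ∞ :=
    ae_restrict_of_ae (ae_lt_top hg hg0)
  filter_upwards [h1, hfin, ae_restrict_mem hS] with y hy hy2 hy3
  have h2 : (g y).toReal * f y = 0 := hy
  rcases mul_eq_zero.1 h2 with h3 | h3
  · rcases (ENNReal.toReal_eq_zero_iff _).1 h3 with h4 | h4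
    · exact h4
    · exact absurd h4 hy2.ne
  · exact absurd h3 (hfS y hy3).ne'

/-- JOB LehecB. Halving hyperplane and barycentres. There are a translation `(c, z)` and a shear `w`
such that `g2 (t, y') = g (t + c, y' + t w + z)` is halved by `{t = 0}` and has half-space
barycentres on the axis.
Proof. `c ↦ ∫⁻ y in {c < y.1}, g y` is continuous (hyperplanes are null; or pass to the image measure
of `g · volume` under `Prod.fst`, which has no atoms) and goes from `M = ∫⁻ g` at `-∞` to `0` at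
`+∞`; so some `c` gives `M / 2`. Let `b₊` be the barycentre of `g` on `{c < y.1}` and `b₋` the one
on `{y.1 < c}`: `b₊.1 > c > b₋.1` (positive mass). Put `w = (b₊.2 - b₋.2) / (b₊.1 - b₋.1)` and
`z = b₊.2 - (b₊.1 - c) w` (so `(c, z)` lies on the line through `b₋, b₊`). The map
`(t, y') ↦ (t + c, y' + t w + z)` preserves the volume (translation and shear; prove the shear by
`MeasurePreserving.skew_product` or Tonelli), so
`∫_{t>0} g2 y' = ∫_{s>c} g (y' - (s - c) w - z) = (M/2) (b₊.2 - (b₊.1 - c) w - z) = 0`. Same for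
`t<0`. -/
theorem exists_shear {n : ℕ} {g : ℝ × (Fin n → ℝ) → ℝ≥0∞} (hg : Measurable g)
    (hg0 : ∫⁻ y, g y ≠ ∞) (hg1 : ∫⁻ y, ‖y‖ₑ * g y ≠ ∞) (hpos : ∫⁻ y, g y ≠ 0) :
    ∃ (c : ℝ) (z w : Fin n → ℝ), ∃ g2 : ℝ × (Fin n → ℝ) → ℝ≥0∞,
      (g2 = fun p => g (p.1 + c, p.2 + p.1 • w + z)) ∧
      ∫⁻ y in {y | 0 < y.1}, g2 y = ∫⁻ y in {y | y.1 < 0}, g2 y ∧
      ∫ y in {y | 0 < y.1}, (g2 y).toReal • y.2 = 0 ∧
      ∫ y in {y | y.1 < 0}, (g2 y).toReal • y.2 = 0 := by
  obtain ⟨c, hc⟩ := LehecB_halving hg0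
  have hSp : MeasurableSet {y : ℝ × (Fin n → ℝ) | c < y.1} :=
    measurableSet_lt measurable_const measurable_fst
  have hSm : MeasurableSet {y : ℝ × (Fin n → ℝ) | y.1 < c} :=
    measurableSet_lt measurable_fst measurable_const
  -- integrability
  have hgr : Measurable fun y => (g y).toReal := hg.ennreal_toReal
  have hi0 : Integrable fun y => (g y).toReal := integrable_toReal_of_lintegral_ne_top
    hg.aemeasurable hg0
  have hdom : ∀ y, ‖(g y).toReal * ‖y‖‖ₑ ≤ ‖y‖ₑ * g y := by
    intro y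
    rw [enorm_mul, mul_comm, enorm_norm]
    gcongr
    rw [Real.enorm_eq_ofReal ENNReal.toReal_nonneg]
    exact ENNReal.ofReal_toReal_le
  have hin : Integrable fun y => (g y).toReal * ‖y‖ := by
    refine ⟨(hgr.mul measurable_norm).aestronglyMeasurable, ?_⟩
    exact lt_of_le_of_lt (lintegral_mono hdom) (lt_top_iff_ne_top.2 hg1)
  have hi1 : Integrable fun y : ℝ × (Fin n → ℝ) => (g y).toReal * y.1 := by
    refine hin.mono (hgr.mul measurable_fst).aestronglyMeasurable (ae_of_all _ fun y => ?_)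
    rw [norm_mul, norm_mul, norm_norm]
    gcongr
    exact norm_fst_le y
  have hi2 : Integrable fun y : ℝ × (Fin n → ℝ) => (g y).toReal • y.2 := by
    refine hin.mono (hgr.smul measurable_snd).aestronglyMeasurable (ae_of_all _ fun y => ?_)
    rw [norm_smul, norm_mul, norm_norm]
    gcongr
    exact norm_snd_le y
  -- the masses
  set m : ℝ := ∫ y in {y : ℝ × (Fin n → ℝ) | c < y.1}, (g y).toReal with hm
  have hmass : ∀ S : Set (ℝ × (Fin n → ℝ)), ∫ y in S, (g y).toReal = (∫⁻ y in S, g y).toReal := by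
    intro S
    rw [integral_toReal hg.aemeasurable.restrict]
    exact ae_restrict_of_ae (ae_lt_top hg hg0)
  have hm' : ∫ y in {y : ℝ × (Fin n → ℝ) | y.1 < c}, (g y).toReal = m := by
    rw [hm, hmass, hmass, hc]
  have hposp : ∫⁻ y in {y : ℝ × (Fin n → ℝ) | c < y.1}, g y ≠ 0 := by
    intro h
    apply hpos
    have h2 : ∫⁻ y in {y : ℝ × (Fin n → ℝ) | y.1 < c}, g y = 0 := by rw [← hc, h]
    have h3 := lintegral_add_compl g hSp (μ := volume)
    rw [h, zero_add] at h3
    rw [← h3]
    have hcompl : {y : ℝ × (Fin n → ℝ) | c < y.1}ᶜ =ᵐ[volume] {y : ℝ × (Fin n → ℝ) | y.1 < c} := by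
      have h4 : ∀ᵐ y : ℝ × (Fin n → ℝ), y.1 ≠ c := by
        rw [ae_iff]
        simpa using LehecB_hyperplane (n := n) c
      filter_upwards [h4] with y hy
      apply propext
      show ¬ (c < y.1) ↔ y.1 < c
      constructor
      · intro h5
        exact lt_of_le_of_ne (not_lt.1 h5) hy
      · intro h5
        exact not_lt.2 h5.le
    exact (setLIntegral_congr hcompl).trans h2
  have hposm : ∫⁻ y in {y : ℝ × (Fin n → ℝ) | y.1 < c}, g y ≠ 0 := by rwa [← hc]
  set P1 : ℝ := ∫ y in {y : ℝ × (Fin n → ℝ) | c < y.1}, (g y).toReal * y.1 with hP1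
  set P2 : ℝ := ∫ y in {y : ℝ × (Fin n → ℝ) | y.1 < c}, (g y).toReal * y.1 with hP2
  set Q1 : Fin n → ℝ := ∫ y in {y : ℝ × (Fin n → ℝ) | c < y.1}, (g y).toReal • y.2 with hQ1
  set Q2 : Fin n → ℝ := ∫ y in {y : ℝ × (Fin n → ℝ) | y.1 < c}, (g y).toReal • y.2 with hQ2
  have hmpos : 0 < m := by
    rw [hm]
    have := LehecB_pos hg hSp (fun _ => 1) hg0 (fun _ _ => one_pos) (by simpa using hi0.integrableOn)
      hposp
    simpa using this
  have hP1' : c * m < P1 := by
    have h := LehecB_pos hg hSp (fun y => y.1 - c) hg0 (fun y hy => sub_pos.2 hy) ?_ hposp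
    · have h2 : ∫ y in {y : ℝ × (Fin n → ℝ) | c < y.1}, (g y).toReal * (y.1 - c) = P1 - m * c := by
        rw [hP1, hm, ← integral_mul_const, ← integral_sub hi1.integrableOn
          (hi0.integrableOn.mul_const c)]
        congr 1
        ext y
        ring
      rw [h2] at h
      linarith
    · have : (fun y : ℝ × (Fin n → ℝ) => (g y).toReal * (y.1 - c)) =
          fun y => (g y).toReal * y.1 - (g y).toReal * c := by
        ext y; ring
      rw [this]
      exact hi1.integrableOn.sub (hi0.integrableOn.mul_const c)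
  have hP2' : P2 < c * m := by
    have h := LehecB_pos hg hSm (fun y => c - y.1) hg0 (fun y hy => sub_pos.2 hy) ?_ hposm
    · have h2 : ∫ y in {y : ℝ × (Fin n → ℝ) | y.1 < c}, (g y).toReal * (c - y.1) = m * c - P2 := by
        rw [hP2, ← hm', ← integral_mul_const, ← integral_sub (hi0.integrableOn.mul_const c)
          hi1.integrableOn]
        congr 1
        ext y
        ring
      rw [h2] at h
      linarith
    · have : (fun y : ℝ × (Fin n → ℝ) => (g y).toReal * (c - y.1)) =
          fun y => (g y).toReal * c - (g y).toReal * y.1 := by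
        ext y; ring
      rw [this]
      exact (hi0.integrableOn.mul_const c).sub hi1.integrableOn
  have hP : 0 < P1 - P2 := by linarith
  set w : Fin n → ℝ := (P1 - P2)⁻¹ • (Q1 - Q2) with hw
  set z : Fin n → ℝ := m⁻¹ • (Q1 - (P1 - c * m) • w) with hz
  have hw' : (P1 - P2) • w = Q1 - Q2 := by
    rw [hw, smul_smul, mul_inv_cancel₀ hP.ne', one_smul]
  have hz' : m • z = Q1 - (P1 - c * m) • w := by
    rw [hz, smul_smul, mul_inv_cancel₀ hmpos.ne', one_smul]
  have hmp := shear_mp c z w
  -- change of variables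
  set F : ℝ × (Fin n → ℝ) → (Fin n → ℝ) := fun u => (g u).toReal • (u.2 - (u.1 - c) • w - z) with hF
  have hFm : Measurable F := by
    rw [hF]
    exact hgr.smul (by fun_prop)
  have hFint : ∀ S : Set (ℝ × (Fin n → ℝ)), ∫ u in S, F u =
      (∫ u in S, (g u).toReal • u.2) - ((∫ u in S, (g u).toReal * u.1) -
        c * ∫ u in S, (g u).toReal) • w - (∫ u in S, (g u).toReal) • z := by
    intro S
    have h1 : F = fun u => (g u).toReal • u.2 - (((g u).toReal * u.1 - c * (g u).toReal) • w) -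
        (g u).toReal • z := by
      ext u i
      simp only [hF, Pi.sub_apply, Pi.smul_apply, smul_eq_mul]
      ring
    rw [h1, integral_sub, integral_sub, integral_smul_const, integral_smul_const, integral_sub,
      integral_const_mul]
    · exact hi1.integrableOn
    · exact hi0.integrableOn.const_mul c
    · exact hi2.integrableOn
    · exact ((hi1.integrableOn.sub (hi0.integrableOn.const_mul c))).smul_const w
    · exact hi2.integrableOn.sub ((hi1.integrableOn.sub (hi0.integrableOn.const_mul c)).smul_const w)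
    · exact hi0.integrableOn.smul_const z
  refine ⟨c, z, w, _, rfl, ?_, ?_, ?_⟩
  · have e1 : {y : ℝ × (Fin n → ℝ) | 0 < y.1} =
        (fun p : ℝ × (Fin n → ℝ) => (p.1 + c, p.2 + p.1 • w + z)) ⁻¹' {y | c < y.1} := by
      ext p; simp
    have e2 : {y : ℝ × (Fin n → ℝ) | y.1 < 0} =
        (fun p : ℝ × (Fin n → ℝ) => (p.1 + c, p.2 + p.1 • w + z)) ⁻¹' {y | y.1 < c} := by
      ext p; simp
    rw [e1, e2]
    rw [← setLIntegral_map hSp hg hmp.measurable, ← setLIntegral_map hSm hg hmp.measurable,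
      hmp.map_eq, hc]
  · have e1 : {y : ℝ × (Fin n → ℝ) | 0 < y.1} =
        (fun p : ℝ × (Fin n → ℝ) => (p.1 + c, p.2 + p.1 • w + z)) ⁻¹' {y | c < y.1} := by
      ext p; simp
    have e3 : (fun y : ℝ × (Fin n → ℝ) => (g (y.1 + c, y.2 + y.1 • w + z)).toReal • y.2) =
        fun y => F ((fun p : ℝ × (Fin n → ℝ) => (p.1 + c, p.2 + p.1 • w + z)) y) := by
      ext y i
      simp only [hF, Pi.sub_apply, Pi.smul_apply, smul_eq_mul, Pi.add_apply]
      ring
    rw [e1, e3, ← setIntegral_map hSp hFm.aestronglyMeasurable hmp.measurable.aemeasurable,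
      hmp.map_eq, hFint, ← hm, ← hP1, ← hQ1, hz']
    abel
  · have e1 : {y : ℝ × (Fin n → ℝ) | y.1 < 0} =
        (fun p : ℝ × (Fin n → ℝ) => (p.1 + c, p.2 + p.1 • w + z)) ⁻¹' {y | y.1 < c} := by
      ext p; simp
    have e3 : (fun y : ℝ × (Fin n → ℝ) => (g (y.1 + c, y.2 + y.1 • w + z)).toReal • y.2) =
        fun y => F ((fun p : ℝ × (Fin n → ℝ) => (p.1 + c, p.2 + p.1 • w + z)) y) := by
      ext y i
      simp only [hF, Pi.sub_apply, Pi.smul_apply, smul_eq_mul, Pi.add_apply]
      ring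
    rw [e1, e3, ← setIntegral_map hSm hFm.aestronglyMeasurable hmp.measurable.aemeasurable,
      hmp.map_eq, hFint, hm', ← hP2, ← hQ2, hz']
    have h5 : Q2 - (P2 - c * m) • w - (Q1 - (P1 - c * m) • w) = (P1 - P2) • w - (Q1 - Q2) := by
      ext i
      simp only [Pi.sub_apply, Pi.smul_apply, smul_eq_mul]
      ring
    rw [h5, hw', sub_self]

end Pool.Agent.Lib.MP_e62723_gt
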