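import Pool.Agent.Lib.MP_e62723_gt.LehecA
import Pool.Agent.Lib.MP_e62723_gt.LehecB

open MeasureTheory Set
open scoped ENNReal

namespace Pool.Agent.Lib.MP_e62723_gt

private theorem lehecC_norm {n : ℕ} (c : ℝ) (z w : Fin n → ℝ) (p : ℝ × (Fin n → ℝ)) :
    ‖p‖ ≤ (|c| + |c| * ‖w‖ + ‖z‖) + (1 + ‖w‖) * ‖((p.1 + c, p.2 + p.1 • w + z) : ℝ × (Fin n → ℝ))‖ := by
  set q : ℝ × (Fin n → ℝ) := (p.1 + c, p.2 + p.1 • w + z) with hq
  have h1 : |p.1 + c| ≤ ‖q‖ := norm_fst_le q
  have h2 : ‖p.2 + p.1 • w + z‖ ≤ ‖q‖ := norm_snd_le q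
  have h3 : |p.1| ≤ ‖q‖ + |c| := by
    calc |p.1| = |(p.1 + c) - c| := by ring_nf
      _ ≤ |p.1 + c| + |c| := abs_sub _ _
      _ ≤ ‖q‖ + |c| := by linarith
  have h4 : ‖p.2‖ ≤ ‖q‖ + (‖q‖ + |c|) * ‖w‖ + ‖z‖ := by
    calc ‖p.2‖ = ‖(p.2 + p.1 • w + z) - p.1 • w - z‖ := by
            congr 1; abel
      _ ≤ ‖(p.2 + p.1 • w + z) - p.1 • w‖ + ‖z‖ := norm_sub_le _ _
      _ ≤ ‖p.2 + p.1 • w + z‖ + ‖p.1 • w‖ + ‖z‖ := by
            gcongr; exact norm_sub_le _ _
      _ = ‖p.2 + p.1 • w + z‖ + |p.1| * ‖w‖ + ‖z‖ := by rw [norm_smul, Real.norm_eq_abs]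
      _ ≤ ‖q‖ + (‖q‖ + |c|) * ‖w‖ + ‖z‖ := by gcongr
  have hq0 : 0 ≤ ‖q‖ := norm_nonneg _
  have hw0 : 0 ≤ ‖w‖ := norm_nonneg _
  have hz0 : 0 ≤ ‖z‖ := norm_nonneg _
  have hc0 : 0 ≤ |c| := abs_nonneg _
  rw [Prod.norm_def]
  apply max_le
  · rw [Real.norm_eq_abs]
    nlinarith [mul_nonneg hc0 hw0, mul_nonneg hw0 hq0]
  · nlinarith [mul_nonneg hc0 hw0, mul_nonneg hw0 hq0]

/-- The linear functional used in the tilt. -/
private noncomputable def lehecC_l {n : ℕ} (c : ℝ) (z : Fin n → ℝ) : (ℝ × (Fin n → ℝ)) →L[ℝ] ℝ :=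
  c • ContinuousLinearMap.fst ℝ ℝ (Fin n → ℝ) +
    (∑ i, z i • ContinuousLinearMap.proj (R := ℝ) (φ := fun _ : Fin n => ℝ) i).comp
      (ContinuousLinearMap.snd ℝ ℝ (Fin n → ℝ))

private theorem lehecC_l_apply {n : ℕ} (c : ℝ) (z : Fin n → ℝ) (p : ℝ × (Fin n → ℝ)) :
    lehecC_l c z p = p.1 * c + p.2 ⬝ᵥ z := by
  unfold lehecC_l dotProduct
  simp [mul_comm]

private theorem lehecC_tilt {n : ℕ} (c : ℝ) (z : Fin n → ℝ)
    {f : ℝ × (Fin n → ℝ) → ℝ≥0∞} (hf : Measurable f)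
    (hf0 : ∫⁻ y, f y ≠ ∞) (hf1 : ∫⁻ y, ‖y‖ₑ * f y ≠ ∞)
    (hfb : ∫ x, (f x).toReal • x = 0) :
    ∫⁻ x, f x ≤ ∫⁻ x, f x * ENNReal.ofReal (Real.exp (2 * (x.1 * c + x.2 ⬝ᵥ z))) := by
  by_cases htop : ∫⁻ x, f x * ENNReal.ofReal (Real.exp (2 * (x.1 * c + x.2 ⬝ᵥ z))) = ∞
  · rw [htop]; exact le_top
  have hfin : ∀ᵐ x, f x < ∞ := ae_lt_top hf hf0
  have hmeas : Measurable fun x : ℝ × (Fin n → ℝ) =>
      Real.exp (2 * (x.1 * c + x.2 ⬝ᵥ z)) := by
    have : Continuous fun x : ℝ × (Fin n → ℝ) => Real.exp (2 * (x.1 * c + x.2 ⬝ᵥ z)) := by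
      fun_prop
    exact this.measurable
  have hi0 : Integrable (fun x => (f x).toReal) volume :=
    integrable_toReal_of_lintegral_ne_top hf.aemeasurable hf0
  have hi1 : Integrable (fun x => (f x).toReal • x) volume := by
    refine ⟨(hf.ennreal_toReal.smul measurable_id).aestronglyMeasurable, ?_⟩
    unfold HasFiniteIntegral
    refine lt_of_le_of_lt ?_ (lt_top_iff_ne_top.mpr hf1)
    apply lintegral_mono
    intro x
    change ‖(f x).toReal • x‖ₑ ≤ ‖x‖ₑ * f x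
    rw [enorm_smul, mul_comm, Real.enorm_eq_ofReal ENNReal.toReal_nonneg]
    exact mul_le_mul_right ENNReal.ofReal_toReal_le _
  have hiE : Integrable (fun x => (f x).toReal * Real.exp (2 * (x.1 * c + x.2 ⬝ᵥ z))) volume := by
    refine ⟨(hf.ennreal_toReal.mul hmeas).aestronglyMeasurable, ?_⟩
    unfold HasFiniteIntegral
    refine lt_of_le_of_lt ?_ (lt_top_iff_ne_top.mpr htop)
    apply lintegral_mono
    intro x
    change ‖(f x).toReal * Real.exp (2 * (x.1 * c + x.2 ⬝ᵥ z))‖ₑ ≤ _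
    rw [enorm_mul, Real.enorm_eq_ofReal ENNReal.toReal_nonneg,
      Real.enorm_eq_ofReal (Real.exp_pos _).le]
    exact mul_le_mul_left ENNReal.ofReal_toReal_le _
  have hil : ∫ x, (f x).toReal * (x.1 * c + x.2 ⬝ᵥ z) = 0 := by
    have h1 := (lehecC_l c z).integral_comp_comm hi1
    rw [hfb, map_zero] at h1
    rw [← h1]
    refine integral_congr_ae (Filter.Eventually.of_forall fun x => ?_)
    simp only [map_smul, smul_eq_mul, lehecC_l_apply]
  have hile : Integrable (fun x => (f x).toReal * (x.1 * c + x.2 ⬝ᵥ z)) volume := by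
    have h1 := (lehecC_l c z).integrable_comp hi1
    refine h1.congr (Filter.Eventually.of_forall fun x => ?_)
    simp only [map_smul, smul_eq_mul, lehecC_l_apply]
  have hreal : ∫ x, (f x).toReal
      ≤ ∫ x, (f x).toReal * Real.exp (2 * (x.1 * c + x.2 ⬝ᵥ z)) := by
    have h1 : ∫ x, ((f x).toReal + 2 * ((f x).toReal * (x.1 * c + x.2 ⬝ᵥ z)))
        = ∫ x, (f x).toReal := by
      rw [integral_add hi0 (hile.const_mul 2), integral_const_mul, hil, mul_zero, add_zero]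
    rw [← h1]
    apply integral_mono (hi0.add (hile.const_mul 2)) hiE
    intro x
    simp only [Pi.add_apply]
    have h2 := Real.add_one_le_exp (2 * (x.1 * c + x.2 ⬝ᵥ z))
    have h3 : 0 ≤ (f x).toReal := ENNReal.toReal_nonneg
    nlinarith
  have e1 : ∫⁻ x, f x = ENNReal.ofReal (∫ x, (f x).toReal) := by
    rw [ofReal_integral_eq_lintegral_ofReal hi0
      (Filter.Eventually.of_forall fun x => ENNReal.toReal_nonneg)]
    refine lintegral_congr_ae ?_
    filter_upwards [hfin] with x hx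
    rw [ENNReal.ofReal_toReal hx.ne]
  have e2 : ∫⁻ x, f x * ENNReal.ofReal (Real.exp (2 * (x.1 * c + x.2 ⬝ᵥ z)))
      = ENNReal.ofReal (∫ x, (f x).toReal * Real.exp (2 * (x.1 * c + x.2 ⬝ᵥ z))) := by
    rw [ofReal_integral_eq_lintegral_ofReal hiE
      (Filter.Eventually.of_forall fun x => by positivity)]
    refine lintegral_congr_ae ?_
    filter_upwards [hfin] with x hx
    rw [ENNReal.ofReal_mul ENNReal.toReal_nonneg, ENNReal.ofReal_toReal hx.ne]
  rw [e1, e2]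
  exact ENNReal.ofReal_le_ofReal hreal

/-- JOB LehecC (a). The step on the product, for general position. Here the roles of `f` and `g` are
exchanged: the barycentred function `f` has finite mass and first moments, and `g` has too (the
general case follows by truncation of `g`).
Proof. If `∫⁻ g = 0` trivial. `exists_shear` for `g`: `c, z, w, g2`. Put
`f2 (s, x') = f1 (s - x'·w, x')` with `f1 x = f x * ofReal (exp (2 (x_0 c + x'·z)))`. As
`⟨(s - x'·w, x'), (t + c, y' + t w + z)⟩ = s t + x'·y' + ((s - x'·w) c + x'·z)`, the pair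
`(f2, g2)` satisfies the hypothesis of `step_prod` (where `g2` is the centred one).
`∫⁻ g2 = ∫⁻ g` (`shear_mp`), `∫⁻ f2 = ∫⁻ f1` (`coshear_mp`), and
`∫⁻ f1 ≥ ∫⁻ f` because `exp (2 ⟨x, z⟩) ≥ 1 + 2 ⟨x, z⟩` and `∫ ⟨x, z⟩ f = 0`.
(`‖y‖ g2` is integrable: `‖y‖ ≤ const (1 + ‖T y‖)` for the affine bijection `T`.) -/
theorem lehec_prod {n : ℕ} (hL : LProp n) {C : ℝ} (hC : 0 ≤ C)
    {f g : ℝ × (Fin n → ℝ) → ℝ≥0∞} (hf : Measurable f) (hg : Measurable g)
    (hf0 : ∫⁻ y, f y ≠ ∞) (hf1 : ∫⁻ y, ‖y‖ₑ * f y ≠ ∞)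
    (hfb : ∫ x, (f x).toReal • x = 0)
    (hg0 : ∫⁻ y, g y ≠ ∞) (hg1 : ∫⁻ y, ‖y‖ₑ * g y ≠ ∞)
    (h : ∀ x y, f x * g y ≤ ENNReal.ofReal (C * Real.exp (-2 * (x.1 * y.1 + x.2 ⬝ᵥ y.2)))) :
    (∫⁻ x, f x) * (∫⁻ y, g y) ≤ ENNReal.ofReal (C * Real.pi ^ (n + 1)) := by
  by_cases hpos : ∫⁻ y, g y = 0
  · rw [hpos, mul_zero]; exact zero_le
  obtain ⟨c, z, w, g2, hg2, hhalf, hb1, hb2⟩ := exists_shear hg hg0 hg1 hpos
  have hmp := shear_mp c z w
  have hcmp := coshear_mp (n := n) w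
  have hg2m : Measurable g2 := by
    rw [hg2]; exact hg.comp hmp.measurable
  have hg20 : ∫⁻ y, g2 y = ∫⁻ y, g y := by
    rw [hg2]; exact hmp.lintegral_comp hg
  have hg21 : ∫⁻ y, ‖y‖ₑ * g2 y ≠ ∞ := by
    set A : ℝ := |c| + |c| * ‖w‖ + ‖z‖ with hA
    set B : ℝ := 1 + ‖w‖ with hB
    have hA0 : 0 ≤ A := by positivity
    have hB0 : 0 ≤ B := by positivity
    have hFm : Measurable fun q : ℝ × (Fin n → ℝ) =>
        (ENNReal.ofReal A + ENNReal.ofReal B * ‖q‖ₑ) * g q := by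
      have : Measurable fun q : ℝ × (Fin n → ℝ) => ‖q‖ₑ := measurable_enorm
      fun_prop
    have h1 : ∫⁻ y, ‖y‖ₑ * g2 y ≤ ∫⁻ y : ℝ × (Fin n → ℝ), (fun q : ℝ × (Fin n → ℝ) =>
        (ENNReal.ofReal A + ENNReal.ofReal B * ‖q‖ₑ) * g q) (y.1 + c, y.2 + y.1 • w + z) := by
      apply lintegral_mono
      intro y
      simp only [hg2]
      gcongr
      rw [← ofReal_norm y, ← ofReal_norm ((y.1 + c, y.2 + y.1 • w + z) : ℝ × (Fin n → ℝ)),
        ← ENNReal.ofReal_mul hB0, ← ENNReal.ofReal_add hA0 (by positivity)]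
      exact ENNReal.ofReal_le_ofReal (lehecC_norm c z w y)
    rw [hmp.lintegral_comp hFm] at h1
    refine ne_top_of_le_ne_top ?_ h1
    have h2 : ∀ q : ℝ × (Fin n → ℝ), (ENNReal.ofReal A + ENNReal.ofReal B * ‖q‖ₑ) * g q
        = ENNReal.ofReal A * g q + ENNReal.ofReal B * (‖q‖ₑ * g q) := by
      intro q; ring
    simp_rw [h2]
    rw [lintegral_add_left (by fun_prop), lintegral_const_mul _ hg, lintegral_const_mul' _ _ ENNReal.ofReal_ne_top]
    exact ENNReal.add_ne_top.mpr ⟨ENNReal.mul_ne_top ENNReal.ofReal_ne_top hg0,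
      ENNReal.mul_ne_top ENNReal.ofReal_ne_top hg1⟩
  -- the tilted function
  set f1 : ℝ × (Fin n → ℝ) → ℝ≥0∞ :=
    fun x => f x * ENNReal.ofReal (Real.exp (2 * (x.1 * c + x.2 ⬝ᵥ z))) with hf1d
  have hf1m : Measurable f1 := by
    have : Continuous fun x : ℝ × (Fin n → ℝ) => Real.exp (2 * (x.1 * c + x.2 ⬝ᵥ z)) := by
      fun_prop
    exact hf.mul this.measurable.ennreal_ofReal
  set f2 : ℝ × (Fin n → ℝ) → ℝ≥0∞ := fun p => f1 (p.1 - p.2 ⬝ᵥ w, p.2) with hf2d
  have hf2m : Measurable f2 := hf1m.comp hcmp.measurable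
  have hf20 : ∫⁻ x, f2 x = ∫⁻ x, f1 x := hcmp.lintegral_comp hf1m
  have hle : ∫⁻ x, f x ≤ ∫⁻ x, f1 x := lehecC_tilt c z hf hf0 hf1 hfb
  have hstep := step_prod hL hC hf2m hg2m (by rw [hg20]; exact hg0) hg21 hhalf hb1 hb2 (by
    intro x y
    have h1 := h (x.1 - x.2 ⬝ᵥ w, x.2) (y.1 + c, y.2 + y.1 • w + z)
    simp only [hf2d, hf1d, hg2]
    calc f (x.1 - x.2 ⬝ᵥ w, x.2) * ENNReal.ofReal
            (Real.exp (2 * ((x.1 - x.2 ⬝ᵥ w) * c + x.2 ⬝ᵥ z))) * g (y.1 + c, y.2 + y.1 • w + z)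
        = (f (x.1 - x.2 ⬝ᵥ w, x.2) * g (y.1 + c, y.2 + y.1 • w + z)) * ENNReal.ofReal
            (Real.exp (2 * ((x.1 - x.2 ⬝ᵥ w) * c + x.2 ⬝ᵥ z))) := by ring
      _ ≤ _ := mul_le_mul_left h1 _
      _ = _ := by
          rw [← ENNReal.ofReal_mul (by positivity), mul_assoc, ← Real.exp_add]
          congr 3
          simp only [dotProduct_add, dotProduct_smul, smul_eq_mul]
          ring)
  rw [hf20, hg20] at hstep
  calc (∫⁻ x, f x) * (∫⁻ y, g y) ≤ (∫⁻ x, f1 x) * (∫⁻ y, g y) := by gcongr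
    _ ≤ _ := hstep

/-- The coordinates as a continuous linear map. -/
private noncomputable def lehecC_e (n : ℕ) : (Fin (n + 1) → ℝ) →L[ℝ] (ℝ × (Fin n → ℝ)) :=
  (ContinuousLinearMap.proj (R := ℝ) (φ := fun _ : Fin (n + 1) => ℝ) 0).prod
    (ContinuousLinearMap.pi fun i : Fin n =>
      ContinuousLinearMap.proj (R := ℝ) (φ := fun _ : Fin (n + 1) => ℝ) i.succ)

/-- JOB LehecC (b). Induction step: transfer `lehec_prod` to `Fin (n+1) → ℝ` by
`MeasureTheory.volume_preserving_piFinSuccAbove (fun _ => ℝ) 0` (or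
`MeasurableEquiv.piFinSuccAbove`), exchange the roles of `f` and `g`
(`dotProduct_comm`), and remove the finiteness of the arbitrary function by truncation:
`f_R = min f R` on the ball of radius `R`, `0` outside; `⨆ R, f_R = f` and monotone convergence
(`lintegral_iSup`). -/
theorem lehec_step {n : ℕ} (hL : LProp n) : LProp (n + 1) := by
  intro C hC f g hf hg hg0 hg1 hgb h
  set e := MeasurableEquiv.piFinSuccAbove (fun _ : Fin (n + 1) => ℝ) 0 with he
  have hemp : MeasurePreserving e volume volume :=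
    volume_preserving_piFinSuccAbove (fun _ : Fin (n + 1) => ℝ) 0
  have hesmp : MeasurePreserving e.symm volume volume := hemp.symm e
  have heapp : ∀ x : Fin (n + 1) → ℝ, e x = lehecC_e n x := by
    intro x
    rfl
  have hesapp0 : ∀ p : ℝ × (Fin n → ℝ), e.symm p 0 = p.1 := by
    intro p
    have h1 : e (e.symm p) = p := e.apply_symm_apply p
    have h2 : (e (e.symm p)).1 = e.symm p 0 := rfl
    rw [← h2, h1]
  have hesapp1 : ∀ (p : ℝ × (Fin n → ℝ)) (i : Fin n), e.symm p i.succ = p.2 i := by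
    intro p i
    have h1 : e (e.symm p) = p := e.apply_symm_apply p
    have h2 : (e (e.symm p)).2 i = e.symm p i.succ := rfl
    rw [← h2, h1]
  have hdot : ∀ p q : ℝ × (Fin n → ℝ), e.symm p ⬝ᵥ e.symm q = p.1 * q.1 + p.2 ⬝ᵥ q.2 := by
    intro p q
    unfold dotProduct
    rw [Fin.sum_univ_succ, hesapp0, hesapp0]
    simp_rw [hesapp1]
  have hnorm : ∀ x : Fin (n + 1) → ℝ, ‖e x‖ ≤ ‖x‖ := by
    intro x
    rw [heapp, Prod.norm_def]
    apply max_le
    · exact norm_le_pi_norm x 0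
    · rw [pi_norm_le_iff_of_nonneg (norm_nonneg _)]
      intro i
      exact norm_le_pi_norm x i.succ
  -- the bound for integrable `F`
  have key : ∀ F : (Fin (n + 1) → ℝ) → ℝ≥0∞, Measurable F → ∫⁻ y, F y ≠ ∞ →
      ∫⁻ y, ‖y‖ₑ * F y ≠ ∞ → (∀ x, F x ≤ f x) →
      (∫⁻ x, F x) * (∫⁻ y, g y) ≤ ENNReal.ofReal (C * Real.pi ^ (n + 1)) := by
    intro F hF hF0 hF1 hFf
    have t1 : ∀ G : (Fin (n + 1) → ℝ) → ℝ≥0∞, ∫⁻ p, G (e.symm p) = ∫⁻ x, G x := by
      intro G
      exact hesmp.lintegral_comp_emb e.symm.measurableEmbedding G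
    have t2 : ∀ G : (Fin (n + 1) → ℝ) → ℝ≥0∞, ∫⁻ y, ‖y‖ₑ * G y ≠ ∞ →
        ∫⁻ p, ‖p‖ₑ * G (e.symm p) ≠ ∞ := by
      intro G hG
      have h1 := t1 (fun x => ‖e x‖ₑ * G x)
      simp only [e.apply_symm_apply] at h1
      rw [h1]
      refine ne_top_of_le_ne_top hG ?_
      apply lintegral_mono
      intro x
      have h2 : ‖e x‖ₑ ≤ ‖x‖ₑ := by
        rw [← ofReal_norm, ← ofReal_norm]
        exact ENNReal.ofReal_le_ofReal (hnorm x)
      exact mul_le_mul_left h2 _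
    have hgi : Integrable (fun x => (g x).toReal • x) volume := by
      refine ⟨(hg.ennreal_toReal.smul measurable_id).aestronglyMeasurable, ?_⟩
      unfold HasFiniteIntegral
      refine lt_of_le_of_lt ?_ (lt_top_iff_ne_top.mpr hg1)
      apply lintegral_mono
      intro x
      change ‖(g x).toReal • x‖ₑ ≤ ‖x‖ₑ * g x
      rw [enorm_smul, mul_comm, Real.enorm_eq_ofReal ENNReal.toReal_nonneg]
      exact mul_le_mul_right ENNReal.ofReal_toReal_le _
    have hbar : ∫ p : ℝ × (Fin n → ℝ), (g (e.symm p)).toReal • p = 0 := by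
      have h1 := hesmp.integral_comp e.symm.measurableEmbedding
        (fun x => (g x).toReal • lehecC_e n x)
      have h2 : ∀ p : ℝ × (Fin n → ℝ), (g (e.symm p)).toReal • lehecC_e n (e.symm p)
          = (g (e.symm p)).toReal • p := by
        intro p
        rw [← heapp, e.apply_symm_apply]
      simp_rw [h2] at h1
      rw [h1]
      have h3 := (lehecC_e n).integral_comp_comm hgi
      rw [hgb, map_zero] at h3
      rw [← h3]
      refine integral_congr_ae (Filter.Eventually.of_forall fun x => ?_)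
      simp only [map_smul]
    have h1 := lehec_prod hL hC (f := fun p => g (e.symm p)) (g := fun p => F (e.symm p))
      (hg.comp e.symm.measurable) (hF.comp e.symm.measurable)
      (by rw [t1]; exact hg0) (t2 g hg1) hbar (by rw [t1]; exact hF0) (t2 F hF1) (by
        intro x y
        calc g (e.symm x) * F (e.symm y) ≤ g (e.symm x) * f (e.symm y) := by
              gcongr; exact hFf _
          _ = f (e.symm y) * g (e.symm x) := mul_comm _ _
          _ ≤ _ := h (e.symm y) (e.symm x)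
          _ = _ := by
              rw [hdot, mul_comm y.1, dotProduct_comm y.2])
    rw [t1, t1, mul_comm] at h1
    exact h1
  -- truncation
  set F : ℕ → (Fin (n + 1) → ℝ) → ℝ≥0∞ := fun R =>
    (Metric.closedBall (0 : Fin (n + 1) → ℝ) R).indicator (fun x => min (f x) R) with hFd
  have hFm : ∀ R, Measurable (F R) := by
    intro R
    exact (hf.min measurable_const).indicator Metric.isClosed_closedBall.measurableSet
  have hFmono : Monotone F := by
    intro R S hRS x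
    simp only [hFd]
    by_cases hx : x ∈ Metric.closedBall (0 : Fin (n + 1) → ℝ) R
    · have hx' : x ∈ Metric.closedBall (0 : Fin (n + 1) → ℝ) S :=
        Metric.closedBall_subset_closedBall (by exact_mod_cast hRS) hx
      rw [indicator_of_mem hx, indicator_of_mem hx']
      exact min_le_min le_rfl (by exact_mod_cast hRS)
    · rw [indicator_of_notMem hx]
      exact zero_le
  have hFle : ∀ R x, F R x ≤ f x := by
    intro R x
    simp only [hFd]
    exact (indicator_le_self' (fun _ _ => zero_le) x).trans (min_le_left _ _)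
  have hFsup : ∀ x, ⨆ R, F R x = f x := by
    intro x
    apply le_antisymm (iSup_le fun R => hFle R x)
    obtain ⟨R0, hR0⟩ := exists_nat_ge ‖x‖
    have hxmem : ∀ R : ℕ, R0 ≤ R → F R x = min (f x) R := by
      intro R hR
      simp only [hFd]
      rw [indicator_of_mem]
      rw [Metric.mem_closedBall, dist_zero_right]
      exact hR0.trans (by exact_mod_cast hR)
    by_cases hfx : f x = ∞
    · rw [hfx, top_le_iff, iSup_eq_top]
      intro b hb
      obtain ⟨k, hk⟩ := ENNReal.exists_nat_gt hb.ne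
      refine ⟨max R0 k, ?_⟩
      rw [hxmem _ (le_max_left _ _), hfx, min_eq_right le_top]
      refine hk.trans_le ?_
      exact_mod_cast le_max_right R0 k
    · obtain ⟨k, hk⟩ := ENNReal.exists_nat_gt hfx
      refine le_trans ?_ (le_iSup (fun R => F R x) (max R0 k))
      rw [hxmem _ (le_max_left _ _), min_eq_left]
      refine hk.le.trans ?_
      exact_mod_cast le_max_right R0 k
  have hball : ∀ R : ℕ, volume (Metric.closedBall (0 : Fin (n + 1) → ℝ) R) ≠ ∞ :=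
    fun R => (measure_closedBall_lt_top (x := (0 : Fin (n + 1) → ℝ)) (r := (R : ℝ))).ne
  have hF0 : ∀ R, ∫⁻ x, F R x ≠ ∞ := by
    intro R
    refine ne_top_of_le_ne_top (b := (R : ℝ≥0∞) * volume (Metric.closedBall (0 : Fin (n + 1) → ℝ) R))
      (ENNReal.mul_ne_top (ENNReal.natCast_ne_top R) (hball R)) ?_
    calc ∫⁻ x, F R x ≤ ∫⁻ x, (Metric.closedBall (0 : Fin (n + 1) → ℝ) R).indicator
          (fun _ => (R : ℝ≥0∞)) x := by
          apply lintegral_mono
          intro x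
          simp only [hFd]
          exact indicator_le_indicator (min_le_right _ _)
      _ = _ := by
          rw [lintegral_indicator Metric.isClosed_closedBall.measurableSet, setLIntegral_const]
  have hF1 : ∀ R, ∫⁻ x, ‖x‖ₑ * F R x ≠ ∞ := by
    intro R
    refine ne_top_of_le_ne_top (b := (R : ℝ≥0∞) * ∫⁻ x, F R x)
      (ENNReal.mul_ne_top (ENNReal.natCast_ne_top R) (hF0 R)) ?_
    rw [← lintegral_const_mul _ (hFm R)]
    apply lintegral_mono
    intro x
    simp only [hFd]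
    by_cases hx : x ∈ Metric.closedBall (0 : Fin (n + 1) → ℝ) R
    · have h1 : ‖x‖ₑ ≤ (R : ℝ≥0∞) := by
        rw [← ofReal_norm, ← ENNReal.ofReal_natCast]
        apply ENNReal.ofReal_le_ofReal
        simpa using hx
      exact mul_le_mul_left h1 _
    · rw [indicator_of_notMem hx]
      simp
  have hint : ∫⁻ x, f x = ⨆ R, ∫⁻ x, F R x := by
    rw [← lintegral_iSup hFm hFmono]
    refine lintegral_congr fun x => ?_
    rw [hFsup x]
  rw [hint, ENNReal.iSup_mul]
  exact iSup_le fun R => key (F R) (hFm R) (hF0 R) (hF1 R) (hFle R)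

/-- JOB LehecC (c). Base case: one point. -/
theorem lehec_zero : LProp 0 := by
  intro C hC f g hf hg _ _ _ h
  have hv : (volume : Measure (Fin 0 → ℝ)) = Measure.dirac (fun i => i.elim0) :=
    Measure.volume_pi_eq_dirac _
  rw [hv, lintegral_dirac' _ hf, lintegral_dirac' _ hg]
  refine (h _ _).trans (le_of_eq ?_)
  simp [dotProduct]

theorem lehec (n : ℕ) : LProp n := by
  induction n with
  | zero => exact lehec_zero
  | succ n ih => exact lehec_step ih

end Pool.Agent.Lib.MP_e62723_gt
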