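import Pool.Agent.Lib.MP_e62723_gt.LehecDefs
import Pool.Agent.Lib.MP_e62723_gt.HalfLine

open MeasureTheory Set
open scoped ENNReal

namespace Pool.Agent.Lib.MP_e62723_gt

private theorem LehecA_restrict {n : ℕ} :
    (volume : Measure (ℝ × (Fin n → ℝ))).restrict {y | 0 < y.1} =
      (volume.restrict (Ioi (0 : ℝ))).prod (volume : Measure (Fin n → ℝ)) := by
  have h1 : {y : ℝ × (Fin n → ℝ) | 0 < y.1} = Ioi (0 : ℝ) ×ˢ univ := by
    ext y
    simp
  have h2 : (volume : Measure (Fin n → ℝ)) = volume.restrict univ := Measure.restrict_univ.symm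
  rw [h1, Measure.volume_eq_prod]
  conv_rhs => rw [h2]
  rw [Measure.prod_restrict]

private theorem LehecA_tonelli {n : ℕ} {h : ℝ × (Fin n → ℝ) → ℝ≥0∞} (hh : Measurable h) :
    ∫⁻ y', ∫⁻ t in Ioi 0, h (t, y') = ∫⁻ y in {y | 0 < y.1}, h y := by
  rw [LehecA_restrict, lintegral_prod_symm _ hh.aemeasurable]

/-- JOB LehecA (a). Half-space step. `g` restricted to `{y_0 > 0}` has its barycentre on the `e_0`-axis.
Proof. `G y' = ∫⁻ t in Ioi 0, g (t, y')` and `F x' = ∫⁻ s in Ioi 0, f (s, x')` (measurable by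
`Measurable.lintegral_prod_left'` and similar). For all `x', y'`, `halfLine` with the constant
`C exp(-2 x'·y')` gives `F x' G y' ≤ ofReal ((C π/4) exp(-2 x'·y'))`. `∫⁻ G = ∫⁻ g over {y_0>0}`
(Tonelli: `volume` on the product is `volume.prod volume`), `∫⁻ ‖y'‖ G < ∞` as `‖y'‖ ≤ ‖y‖` (sup norm
of the product), `∫ G.toReal • y' = ∫_{y_0 > 0} g.toReal • y'` by Fubini (`G y' < ∞` for a.e. `y'`;
`integral_toReal`, `integral_prod_symm` or so). Apply `LProp n`. -/
theorem half_step {n : ℕ} (hL : LProp n) {C : ℝ} (hC : 0 ≤ C)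
    {f g : ℝ × (Fin n → ℝ) → ℝ≥0∞} (hf : Measurable f) (hg : Measurable g)
    (hg0 : ∫⁻ y, g y ≠ ∞) (hg1 : ∫⁻ y, ‖y‖ₑ * g y ≠ ∞)
    (hb : ∫ y in {y | 0 < y.1}, (g y).toReal • y.2 = 0)
    (h : ∀ x y, f x * g y ≤ ENNReal.ofReal (C * Real.exp (-2 * (x.1 * y.1 + x.2 ⬝ᵥ y.2)))) :
    (∫⁻ x in {x | 0 < x.1}, f x) * (∫⁻ y in {y | 0 < y.1}, g y) ≤
      ENNReal.ofReal (C * Real.pi / 4 * Real.pi ^ n) := by
  have hF : Measurable fun x' : Fin n → ℝ => ∫⁻ s in Ioi 0, f (s, x') :=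
    Measurable.lintegral_prod_left' hf
  have hG : Measurable fun y' : Fin n → ℝ => ∫⁻ t in Ioi 0, g (t, y') :=
    Measurable.lintegral_prod_left' hg
  have hG0 : ∫⁻ y', ∫⁻ t in Ioi 0, g (t, y') ≠ ∞ := by
    rw [LehecA_tonelli hg]
    exact ne_top_of_le_ne_top hg0 (setLIntegral_le_lintegral _ _)
  have hmeas2 : Measurable fun y : ℝ × (Fin n → ℝ) => ‖y.2‖ₑ * g y :=
    (measurable_snd.enorm).mul hg
  have hle2 : ∫⁻ y in {y : ℝ × (Fin n → ℝ) | 0 < y.1}, ‖y.2‖ₑ * g y ≤ ∫⁻ y, ‖y‖ₑ * g y := by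
    refine le_trans (setLIntegral_le_lintegral _ _) (lintegral_mono fun y => ?_)
    gcongr
    simp only [enorm_eq_nnnorm, ENNReal.coe_le_coe]
    exact NNReal.coe_le_coe.1 (norm_snd_le y)
  have hG1 : ∫⁻ y', ‖y'‖ₑ * ∫⁻ t in Ioi 0, g (t, y') ≠ ∞ := by
    have e1 : ∫⁻ y' : Fin n → ℝ, ‖y'‖ₑ * ∫⁻ t in Ioi 0, g (t, y') =
        ∫⁻ y' : Fin n → ℝ, ∫⁻ t in Ioi 0, ‖y'‖ₑ * g (t, y') := by
      refine lintegral_congr fun y' => ?_
      rw [lintegral_const_mul]
      exact hg.comp measurable_prodMk_right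
    rw [e1]
    have e2 := LehecA_tonelli hmeas2
    simp only at e2
    rw [e2]
    exact ne_top_of_le_ne_top hg1 hle2
  have hGb : ∫ y', (∫⁻ t in Ioi 0, g (t, y')).toReal • y' = 0 := by
    have hfin : ∀ᵐ y' : Fin n → ℝ, ∫⁻ t in Ioi 0, g (t, y') < ∞ := ae_lt_top hG hG0
    have e1 : ∫ y' : Fin n → ℝ, (∫⁻ t in Ioi 0, g (t, y')).toReal • y' =
        ∫ y' : Fin n → ℝ, ∫ t in Ioi 0, (g (t, y')).toReal • y' := by
      refine integral_congr_ae ?_
      filter_upwards [hfin] with y' hy'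
      have hgy : Measurable fun t : ℝ => g (t, y') := hg.comp measurable_prodMk_right
      rw [integral_smul_const, integral_toReal hgy.aemeasurable
        (ae_lt_top hgy hy'.ne)]
    rw [e1]
    have hint : Integrable (fun y : ℝ × (Fin n → ℝ) => (g y).toReal • y.2)
        ((volume.restrict (Ioi (0 : ℝ))).prod (volume : Measure (Fin n → ℝ))) := by
      rw [← LehecA_restrict]
      refine ⟨?_, ?_⟩
      · exact ((hg.ennreal_toReal).smul measurable_snd).aestronglyMeasurable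
      · unfold HasFiniteIntegral
        refine lt_of_le_of_lt (lintegral_mono fun y => ?_)
          (lt_of_le_of_lt hle2 (lt_top_iff_ne_top.2 hg1))
        simp only [enorm_smul]
        rw [mul_comm]
        gcongr
        rw [Real.enorm_eq_ofReal ENNReal.toReal_nonneg]
        exact ENNReal.ofReal_toReal_le
    have e2 := integral_prod_symm _ hint
    simp only at e2
    rw [← e2, ← LehecA_restrict]
    exact hb
  have key := hL (C * Real.pi / 4) (by positivity) _ _ hF hG hG0 hG1 hGb ?_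
  · rw [LehecA_tonelli hf, LehecA_tonelli hg] at key
    exact key
  · intro x' y'
    have h1 := halfLine (f := fun s => f (s, x')) (g := fun t => g (t, y'))
      (C := C * Real.exp (-2 * (x' ⬝ᵥ y'))) (hf.comp measurable_prodMk_right)
      (hg.comp measurable_prodMk_right) (by positivity) ?_
    · refine le_trans h1 (le_of_eq ?_)
      congr 1
      ring
    · intro s _ t _
      refine le_trans (h (s, x') (t, y')) (le_of_eq ?_)
      congr 1
      rw [mul_assoc, ← Real.exp_add]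
      congr 2
      simp only
      ring

/-- JOB LehecA (b). Both half-spaces. Apply `half_step` to `f, g` and to `f ∘ σ, g ∘ σ` with
`σ (t, y') = (-t, y')` (measure preserving); the hyperplane `{y_0 = 0}` is null
(so `∫⁻ g = 2 ∫⁻ g over {y_0>0}` and `∫⁻ f = ∫⁻ over {x_0>0} + ∫⁻ over {x_0<0}`); add. -/
theorem step_prod {n : ℕ} (hL : LProp n) {C : ℝ} (hC : 0 ≤ C)
    {f g : ℝ × (Fin n → ℝ) → ℝ≥0∞} (hf : Measurable f) (hg : Measurable g)
    (hg0 : ∫⁻ y, g y ≠ ∞) (hg1 : ∫⁻ y, ‖y‖ₑ * g y ≠ ∞)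
    (hhalf : ∫⁻ y in {y | 0 < y.1}, g y = ∫⁻ y in {y | y.1 < 0}, g y)
    (hb1 : ∫ y in {y | 0 < y.1}, (g y).toReal • y.2 = 0)
    (hb2 : ∫ y in {y | y.1 < 0}, (g y).toReal • y.2 = 0)
    (h : ∀ x y, f x * g y ≤ ENNReal.ofReal (C * Real.exp (-2 * (x.1 * y.1 + x.2 ⬝ᵥ y.2)))) :
    (∫⁻ x, f x) * (∫⁻ y, g y) ≤ ENNReal.ofReal (C * Real.pi ^ (n + 1)) := by
  -- the reflection
  let σ : ℝ × (Fin n → ℝ) ≃ᵐ ℝ × (Fin n → ℝ) :=
    (MeasurableEquiv.neg ℝ).prodCongr (MeasurableEquiv.refl _)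
  have hσ : ∀ y, σ y = (-y.1, y.2) := fun y => rfl
  have hσmp : MeasurePreserving σ volume volume := by
    have h1 : MeasurePreserving (fun t : ℝ => -t) volume volume :=
      Measure.measurePreserving_neg (volume : Measure ℝ)
    have h2 := h1.prod (MeasurePreserving.id (volume : Measure (Fin n → ℝ)))
    exact h2
  have hσn : ∀ y, ‖σ y‖ₑ = ‖y‖ₑ := by
    intro y
    rw [hσ, enorm_eq_nnnorm, enorm_eq_nnnorm]
    congr 1
    rw [Prod.nnnorm_def, Prod.nnnorm_def, nnnorm_neg]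
  have hpre : σ ⁻¹' {y | y.1 < 0} = {y | 0 < y.1} := by
    ext y
    simp [hσ]
  have hset : ∀ F : ℝ × (Fin n → ℝ) → ℝ≥0∞, Measurable F →
      ∫⁻ y in {y | 0 < y.1}, F (σ y) = ∫⁻ y in {y | y.1 < 0}, F y := by
    intro F hF
    rw [← hpre]
    exact hσmp.setLIntegral_comp_preimage (measurableSet_lt measurable_fst measurable_const) hF
  have hplus := half_step hL hC hf hg hg0 hg1 hb1 h
  have hminus := half_step hL hC (f := fun x => f (σ x)) (g := fun y => g (σ y))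
    (hf.comp σ.measurable) (hg.comp σ.measurable) (by
      rw [hσmp.lintegral_comp hg]
      exact hg0) (by
      have e : ∫⁻ y, ‖y‖ₑ * g (σ y) = ∫⁻ y, ‖σ y‖ₑ * g (σ y) := by
        refine lintegral_congr fun y => ?_
        rw [hσn]
      rw [e, hσmp.lintegral_comp (f := fun y => ‖y‖ₑ * g y) (measurable_enorm.mul hg)]
      exact hg1) (by
      rw [← hpre]
      have e := hσmp.setIntegral_preimage_emb σ.measurableEmbedding
        (fun y => (g y).toReal • y.2) {y | y.1 < 0}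
      rw [hb2] at e
      rw [← e]
      rfl) (by
      intro x y
      refine le_trans (h (σ x) (σ y)) (le_of_eq ?_)
      rw [hσ, hσ]
      simp)
  rw [hset f hf, hset g hg] at hminus
  have hsplit : ∀ F : ℝ × (Fin n → ℝ) → ℝ≥0∞,
      ∫⁻ y, F y = (∫⁻ y in {y | 0 < y.1}, F y) + (∫⁻ y in {y | y.1 < 0}, F y) := by
    intro F
    have hms : MeasurableSet {y : ℝ × (Fin n → ℝ) | y.1 < 0} :=
      measurableSet_lt measurable_fst measurable_const
    have hdisj : Disjoint {y : ℝ × (Fin n → ℝ) | 0 < y.1} {y | y.1 < 0} := by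
      rw [Set.disjoint_left]
      intro y hy hy'
      change 0 < y.1 at hy
      change y.1 < 0 at hy'
      exact lt_asymm hy hy'
    rw [← lintegral_union hms hdisj]
    have hnull : (volume : Measure (ℝ × (Fin n → ℝ)))
        ({y : ℝ × (Fin n → ℝ) | 0 < y.1} ∪ {y | y.1 < 0})ᶜ = 0 := by
      have e : ({y : ℝ × (Fin n → ℝ) | 0 < y.1} ∪ {y | y.1 < 0})ᶜ = ({0} : Set ℝ) ×ˢ univ := by
        ext y
        simp only [mem_compl_iff, mem_union, mem_ofPred_eq, not_or, not_lt, mem_prod,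
          mem_singleton_iff, mem_univ, and_true]
        exact ⟨fun h => le_antisymm h.1 h.2, fun h => ⟨h.le, h.ge⟩⟩
      rw [e, Measure.volume_eq_prod, Measure.prod_prod]
      simp
    have hae : ({y : ℝ × (Fin n → ℝ) | 0 < y.1} ∪ {y | y.1 < 0} : Set (ℝ × (Fin n → ℝ)))
        =ᵐ[volume] (univ : Set (ℝ × (Fin n → ℝ))) := ae_eq_univ.2 hnull
    rw [setLIntegral_congr hae, setLIntegral_univ]
  rw [hsplit f, hsplit g, ← hhalf]
  rw [← hhalf] at hminus
  set A := ∫⁻ y in {y : ℝ × (Fin n → ℝ) | 0 < y.1}, f y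
  set A' := ∫⁻ y in {y : ℝ × (Fin n → ℝ) | y.1 < 0}, f y
  set B := ∫⁻ y in {y : ℝ × (Fin n → ℝ) | 0 < y.1}, g y
  calc (A + A') * (B + B) = A * B + A * B + (A' * B + A' * B) := by ring
    _ ≤ ENNReal.ofReal (C * Real.pi / 4 * Real.pi ^ n) +
          ENNReal.ofReal (C * Real.pi / 4 * Real.pi ^ n) +
        (ENNReal.ofReal (C * Real.pi / 4 * Real.pi ^ n) +
          ENNReal.ofReal (C * Real.pi / 4 * Real.pi ^ n)) := by gcongr
    _ = ENNReal.ofReal (C * Real.pi ^ (n + 1)) := by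
      have hpos : 0 ≤ C * Real.pi / 4 * Real.pi ^ n := by positivity
      rw [← ENNReal.ofReal_add hpos hpos,
        ← ENNReal.ofReal_add (add_nonneg hpos hpos) (add_nonneg hpos hpos)]
      congr 1
      rw [pow_succ]
      ring

end Pool.Agent.Lib.MP_e62723_gt
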