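import Mathlib

open MeasureTheory Set
open scoped ENNReal

namespace Pool.Agent.Lib.MP_e62723_gt

/-- Lehec's functional Santalo inequality in dimension `n` (on `Fin n → ℝ` with the dot product),
`g` has finite mass and first moments and barycentre `0`, `f` is arbitrary. -/
def LProp (n : ℕ) : Prop :=
  ∀ (C : ℝ), 0 ≤ C → ∀ f g : (Fin n → ℝ) → ℝ≥0∞, Measurable f → Measurable g →
    ∫⁻ y, g y ≠ ∞ → ∫⁻ y, ‖y‖ₑ * g y ≠ ∞ → ∫ y, (g y).toReal • y = 0 →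
    (∀ x y, f x * g y ≤ ENNReal.ofReal (C * Real.exp (-2 * (x ⬝ᵥ y)))) →
    (∫⁻ x, f x) * (∫⁻ y, g y) ≤ ENNReal.ofReal (C * Real.pi ^ n)

end Pool.Agent.Lib.MP_e62723_gt
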