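import Pool.Agent.Lib.MP_e62723_gt.Defs

open MeasureTheory Set Metric
open scoped ENNReal InnerProductSpace

namespace Pool.Agent.Lib.MP_e62723_gt

variable {n : ℕ}

private theorem polarA_lintegral (hn : 1 ≤ n) (F : E n → ℝ≥0∞) (hF : Measurable F) :
    ∫⁻ x, F x = ∫⁻ θ : sphere (0 : E n) 1, ∫⁻ r : Ioi (0 : ℝ), F (r.1 • θ.1)
      ∂(Measure.volumeIoiPow (n - 1)) ∂((volume : Measure (E n)).toSphere) := by
  have : Nontrivial (E n) := by
    have : Nonempty (Fin n) := ⟨⟨0, hn⟩⟩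
    infer_instance
  have hmp := (volume : Measure (E n)).measurePreserving_homeomorphUnitSphereProd
  have h1 : ∫⁻ x, F x = ∫⁻ x in ({0}ᶜ : Set (E n)), F x := by
    rw [restrict_compl_singleton]
  rw [h1, ← lintegral_subtype_comap (measurableSet_singleton (0 : E n)).compl]
  have h2 : ∀ x : ({0}ᶜ : Set (E n)), F x =
      (fun p : sphere (0 : E n) 1 × Ioi (0 : ℝ) => F (p.2.1 • p.1.1))
        (homeomorphUnitSphereProd (E n) x) := by
    intro x
    have := (homeomorphUnitSphereProd (E n)).symm_apply_apply x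
    conv_lhs => rw [← this]
    rw [homeomorphUnitSphereProd_symm_apply_coe]
  simp_rw [h2]
  have hG : Measurable (fun p : sphere (0 : E n) 1 × Ioi (0 : ℝ) => F (p.2.1 • p.1.1)) := by
    apply hF.comp
    fun_prop
  rw [hmp.lintegral_comp hG, lintegral_prod _ hG.aemeasurable]
  simp

/-- JOB PolarA. `vol {h < 1} = ∫_B h(x/‖x‖)^{-n} dx` for `h` positively homogeneous of degree one.
Proof. Polar coordinates (`Measure.measurePreserving_homeomorphUnitSphereProd`, `toSphere`,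
`volumeIoiPow`): both sides are `(1/n) ∫_S h(θ)^{-n} dσ(θ)`. -/
theorem polar_vol (hn : 1 ≤ n) {h : E n → ℝ} (hc : Continuous h)
    (hh : ∀ (r : ℝ) (x : E n), 0 ≤ r → h (r • x) = r * h x) (hpos : ∀ x, x ≠ 0 → 0 < h x) :
    volume {x | h x < 1} =
      ∫⁻ x in ball (0 : E n) 1, ENNReal.ofReal ((h (‖x‖⁻¹ • x))⁻¹ ^ n) := by
  have hms : MeasurableSet {x | h x < 1} := measurableSet_lt hc.measurable measurable_const
  have hn1 : n - 1 + 1 = n := Nat.sub_add_cancel hn
  have hcast : ((n - 1 : ℕ) : ℝ) + 1 = n := by exact_mod_cast hn1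
  rw [← lintegral_indicator_one hms, ← lintegral_indicator measurableSet_ball]
  rw [polarA_lintegral hn _ (measurable_one.indicator hms), polarA_lintegral hn]
  · apply lintegral_congr
    intro θ
    have hθ : ‖θ.1‖ = 1 := by simp
    have hθ0 : θ.1 ≠ 0 := by
      intro h0
      rw [h0, norm_zero] at hθ
      exact zero_ne_one hθ
    have hp := hpos θ.1 hθ0
    have e1 : ∀ r : Ioi (0 : ℝ), ({x | h x < 1} : Set (E n)).indicator (1 : E n → ℝ≥0∞) (r.1 • θ.1) =
        (Iio (⟨(h θ.1)⁻¹, mem_Ioi.2 (inv_pos.mpr hp)⟩ : Ioi (0 : ℝ))).indicator (1 : Ioi (0 : ℝ) → ℝ≥0∞) r := by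
      intro r
      have hr : (0 : ℝ) < r.1 := r.2
      have hiff : r.1 • θ.1 ∈ {x | h x < 1} ↔
          r ∈ Iio (⟨(h θ.1)⁻¹, mem_Ioi.2 (inv_pos.mpr hp)⟩ : Ioi (0 : ℝ)) := by
        have h3 : r.1 * h θ.1 < 1 ↔ r.1 < (h θ.1)⁻¹ := by rw [← one_div, lt_div_iff₀ hp]
        rw [mem_ofPred_eq, hh _ _ hr.le, mem_Iio, ← Subtype.coe_lt_coe]
        exact h3
      by_cases hm : r.1 • θ.1 ∈ {x | h x < 1}
      · rw [indicator_of_mem hm, indicator_of_mem (hiff.mp hm)]; rfl
      · rw [indicator_of_notMem hm, indicator_of_notMem (fun h => hm (hiff.mpr h))]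
    have e2 : ∀ r : Ioi (0 : ℝ), (ball (0 : E n) 1).indicator
        (fun x => ENNReal.ofReal ((h (‖x‖⁻¹ • x))⁻¹ ^ n)) (r.1 • θ.1) =
        ENNReal.ofReal ((h θ.1)⁻¹ ^ n) *
        (Iio (⟨1, mem_Ioi.2 one_pos⟩ : Ioi (0 : ℝ))).indicator (1 : Ioi (0 : ℝ) → ℝ≥0∞) r := by
      intro r
      have hr : (0 : ℝ) < r.1 := r.2
      have hnorm : ‖r.1 • θ.1‖ = r.1 := by
        rw [norm_smul, hθ, mul_one, Real.norm_of_nonneg hr.le]
      have hiff : r.1 • θ.1 ∈ ball (0 : E n) 1 ↔ r ∈ Iio (⟨1, mem_Ioi.2 one_pos⟩ : Ioi (0 : ℝ)) := by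
        rw [mem_ball_zero_iff, hnorm, mem_Iio, ← Subtype.coe_lt_coe]
      by_cases hm : r.1 • θ.1 ∈ ball (0 : E n) 1
      · rw [indicator_of_mem hm, indicator_of_mem (hiff.mp hm), hnorm, smul_smul,
          inv_mul_cancel₀ hr.ne', one_smul]
        simp
      · rw [indicator_of_notMem hm, indicator_of_notMem (fun h => hm (hiff.mpr h)), mul_zero]
    simp_rw [e1, e2]
    rw [lintegral_indicator_one measurableSet_Iio,
      lintegral_const_mul _ (measurable_one.indicator measurableSet_Iio),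
      lintegral_indicator_one measurableSet_Iio, Measure.volumeIoiPow_apply_Iio,
      Measure.volumeIoiPow_apply_Iio, hn1, hcast, ← ENNReal.ofReal_mul (by positivity)]
    congr 1
    simp
    ring
  · apply Measurable.indicator _ measurableSet_ball
    apply ENNReal.measurable_ofReal.comp
    apply Measurable.pow_const
    apply Measurable.inv
    apply hc.measurable.comp
    fun_prop

private theorem polB_deriv (x : ℝ) :
    HasDerivAt (fun r : ℝ => -Real.exp (-r ^ 2)) (2 * x * Real.exp (-x ^ 2)) x := by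
  have h1 : HasDerivAt (fun r : ℝ => -r ^ 2) (-(2 * x)) x := by
    have h0 : HasDerivAt (fun r : ℝ => r ^ 2) (2 * x) x := by
      simpa using hasDerivAt_pow 2 x
    exact h0.neg
  have h2 : HasDerivAt (fun r : ℝ => -Real.exp (-r ^ 2))
      (-(Real.exp (-x ^ 2) * -(2 * x))) x := h1.exp.neg
  have h3 : -(Real.exp (-x ^ 2) * -(2 * x)) = 2 * x * Real.exp (-x ^ 2) := by ring
  rwa [h3] at h2

private theorem polB_tendsto :
    Filter.Tendsto (fun r : ℝ => -Real.exp (-r ^ 2)) Filter.atTop (nhds 0) := by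
  have h : Filter.Tendsto (fun r : ℝ => r ^ 2) Filter.atTop Filter.atTop :=
    Filter.tendsto_pow_atTop (by norm_num)
  have h2 := (Real.tendsto_exp_neg_atTop_nhds_zero.comp h).neg
  simpa [Function.comp_def] using h2

/-- layer cake for the Gaussian -/
private theorem polB_layer {a : ℝ} (ha : 0 ≤ a) :
    ∫⁻ r in Ioi a, ENNReal.ofReal (2 * r * Real.exp (-r ^ 2)) =
      ENNReal.ofReal (Real.exp (-a ^ 2)) := by
  have hpos : ∀ x ∈ Ioi a, 0 ≤ 2 * x * Real.exp (-x ^ 2) := by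
    intro x hx
    have : 0 ≤ x := ha.trans (le_of_lt hx)
    positivity
  have hint := integrableOn_Ioi_deriv_of_nonneg' (a := a) (fun x _ => polB_deriv x) hpos
    polB_tendsto
  have hval := integral_Ioi_of_hasDerivAt_of_nonneg' (a := a) (fun x _ => polB_deriv x) hpos
    polB_tendsto
  rw [← ofReal_integral_eq_lintegral_ofReal hint, hval]
  · congr 1; ring
  · exact (ae_restrict_iff' measurableSet_Ioi).2 (Filter.Eventually.of_forall hpos)

private theorem polB_gamma (m : ℕ) :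
    ∫⁻ r in Ioi (0 : ℝ), ENNReal.ofReal (2 * r * Real.exp (-r ^ 2)) * ENNReal.ofReal (r ^ m) =
      ENNReal.ofReal (Real.Gamma ((m : ℝ) / 2 + 1)) := by
  have hm : (-1 : ℝ) < (m : ℝ) + 1 := by
    have : (0 : ℝ) ≤ m := Nat.cast_nonneg m
    linarith
  have h1 : ∫⁻ r in Ioi (0 : ℝ),
      ENNReal.ofReal (2 * r * Real.exp (-r ^ 2)) * ENNReal.ofReal (r ^ m) =
      ∫⁻ r in Ioi (0 : ℝ), ENNReal.ofReal
        (2 * (r ^ ((m : ℝ) + 1) * Real.exp (-r ^ (2 : ℝ)))) := by
    refine setLIntegral_congr_fun measurableSet_Ioi fun r hr => ?_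
    have hr' : (0 : ℝ) < r := hr
    rw [← ENNReal.ofReal_mul (by positivity)]
    congr 1
    rw [Real.rpow_add hr', Real.rpow_natCast, Real.rpow_one, Real.rpow_two]
    ring
  rw [h1]
  have hint : IntegrableOn (fun r : ℝ => 2 * (r ^ ((m : ℝ) + 1) * Real.exp (-r ^ (2 : ℝ))))
      (Ioi 0) := by
    refine Integrable.const_mul ?_ 2
    exact integrableOn_rpow_mul_exp_neg_rpow hm (by norm_num)
  rw [← ofReal_integral_eq_lintegral_ofReal hint]
  · rw [integral_const_mul, integral_rpow_mul_exp_neg_rpow (by norm_num) hm]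
    congr 1
    rw [show ((m : ℝ) + 1 + 1) / 2 = (m : ℝ) / 2 + 1 by ring]
    ring
  · refine (ae_restrict_iff' measurableSet_Ioi).2 (Filter.Eventually.of_forall fun r hr => ?_)
    have hr' : (0 : ℝ) < r := hr
    show 0 ≤ _
    positivity

private theorem polB_scale {h : E n → ℝ} (hc : Continuous h)
    (hh : ∀ (r : ℝ) (x : E n), 0 ≤ r → h (r • x) = r * h x)
    {f : E n → ℝ≥0∞} (hf : Measurable f) {k : ℕ}
    (hfh : ∀ (r : ℝ) (x : E n), 0 < r → f (r • x) = ENNReal.ofReal (r ^ k) * f x)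
    {r : ℝ} (hr : 0 < r) :
    ∫⁻ x in {x | h x < r}, f x =
      ENNReal.ofReal (r ^ (n + k)) * ∫⁻ x in {x | h x < 1}, f x := by
  have hS : ∀ s : ℝ, MeasurableSet {x : E n | h x < s} := fun s =>
    measurableSet_lt hc.measurable measurable_const
  have h1 : ∫⁻ x in {x | h x < 1}, f (r • x) =
      ENNReal.ofReal (r ^ k) * ∫⁻ x in {x | h x < 1}, f x := by
    rw [← lintegral_const_mul _ hf]
    exact lintegral_congr fun x => hfh r x hr
  have h2 : ∫⁻ x in {x | h x < 1}, f (r • x) =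
      ENNReal.ofReal (r ^ n)⁻¹ * ∫⁻ x in {x | h x < r}, f x := by
    have hpr : 0 < (r ^ n)⁻¹ := by positivity
    have h3 : ∫⁻ y, ({x : E n | h x < r}.indicator f) y ∂(Measure.map (r • ·) (volume : Measure (E n))) =
        ∫⁻ x : E n, ({x : E n | h x < r}.indicator f) (r • x) := by
      rw [lintegral_map (hf.indicator (hS r)) (measurable_const_smul r)]
    rw [Measure.map_addHaar_smul _ hr.ne', lintegral_smul_measure] at h3
    rw [← lintegral_indicator (hS r), ← lintegral_indicator (hS 1)]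
    have h4 : Module.finrank ℝ (E n) = n := by simp
    rw [h4, abs_of_pos hpr, smul_eq_mul] at h3
    rw [h3]
    refine lintegral_congr fun x => ?_
    by_cases hx : h x < 1
    · rw [indicator_of_mem (show x ∈ {x : E n | h x < 1} from hx), indicator_of_mem]
      show h (r • x) < r
      rw [hh r x hr.le]
      calc r * h x < r * 1 := by gcongr
        _ = r := mul_one r
    · rw [indicator_of_notMem (show x ∉ {x : E n | h x < 1} from hx), indicator_of_notMem]
      show ¬ h (r • x) < r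
      rw [hh r x hr.le]
      intro hlt
      apply hx
      have : r * h x < r * 1 := by rwa [mul_one]
      exact lt_of_mul_lt_mul_left this hr.le
  have h5 := h1.symm.trans h2
  have h6 : ENNReal.ofReal (r ^ n) * (ENNReal.ofReal (r ^ n)⁻¹ * ∫⁻ x in {x | h x < r}, f x) =
      ∫⁻ x in {x | h x < r}, f x := by
    rw [← mul_assoc, ← ENNReal.ofReal_mul (by positivity), mul_inv_cancel₀ (by positivity),
      ENNReal.ofReal_one, one_mul]
  rw [← h6, ← h5, ← mul_assoc, ← ENNReal.ofReal_mul (by positivity), pow_add]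

private theorem polB_nonneg {h : E n → ℝ}
    (hh : ∀ (r : ℝ) (x : E n), 0 ≤ r → h (r • x) = r * h x) (hpos : ∀ x, x ≠ 0 → 0 < h x)
    (x : E n) : 0 ≤ h x := by
  by_cases hx : x = 0
  · have := hh 0 0 le_rfl
    rw [smul_zero, zero_mul] at this
    rw [hx, this]
  · exact (hpos x hx).le

private theorem polB_main {h : E n → ℝ} (hc : Continuous h)
    (hh : ∀ (r : ℝ) (x : E n), 0 ≤ r → h (r • x) = r * h x) (hpos : ∀ x, x ≠ 0 → 0 < h x)
    {f : E n → ℝ≥0∞} (hf : Measurable f) {k : ℕ}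
    (hfh : ∀ (r : ℝ) (x : E n), 0 < r → f (r • x) = ENNReal.ofReal (r ^ k) * f x) :
    ∫⁻ x, f x * ENNReal.ofReal (Real.exp (-(h x) ^ 2)) =
      ENNReal.ofReal (Real.Gamma (((n + k : ℕ) : ℝ) / 2 + 1)) *
        ∫⁻ x in {x | h x < 1}, f x := by
  set g : ℝ → ℝ≥0∞ := fun r => ENNReal.ofReal (2 * r * Real.exp (-r ^ 2)) with hg
  have hgm : Measurable g := by
    rw [hg]
    fun_prop
  have h0 := polB_nonneg hh hpos
  have hS : ∀ s : ℝ, MeasurableSet {x : E n | h x < s} := fun s =>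
    measurableSet_lt hc.measurable measurable_const
  have e1 : ∀ x : E n, f x * ENNReal.ofReal (Real.exp (-(h x) ^ 2)) =
      ∫⁻ r in Ioi (0 : ℝ), (Ioi (h x)).indicator (fun r => f x * g r) r := by
    intro x
    rw [← polB_layer (h0 x), setLIntegral_indicator measurableSet_Ioi,
      inter_eq_self_of_subset_left (Ioi_subset_Ioi (h0 x)),
      lintegral_const_mul _ hgm]
  have hm : Measurable (Function.uncurry fun (x : E n) (r : ℝ) =>
      (Ioi (h x)).indicator (fun r => f x * g r) r) := by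
    have : (Function.uncurry fun (x : E n) (r : ℝ) =>
        (Ioi (h x)).indicator (fun r => f x * g r) r) =
        {p : E n × ℝ | h p.1 < p.2}.indicator (fun p => f p.1 * g p.2) := by
      funext p
      obtain ⟨x, r⟩ := p
      simp only [Function.uncurry, indicator_apply, mem_Ioi, mem_ofPred_eq]
    rw [this]
    refine Measurable.indicator ?_ ?_
    · exact (hf.comp measurable_fst).mul (hgm.comp measurable_snd)
    · exact measurableSet_lt (hc.measurable.comp measurable_fst) measurable_snd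
  calc ∫⁻ x, f x * ENNReal.ofReal (Real.exp (-(h x) ^ 2))
      = ∫⁻ x, ∫⁻ r in Ioi (0 : ℝ), (Ioi (h x)).indicator (fun r => f x * g r) r :=
        lintegral_congr e1
    _ = ∫⁻ r in Ioi (0 : ℝ), ∫⁻ x, (Ioi (h x)).indicator (fun r => f x * g r) r :=
        lintegral_lintegral_swap hm.aemeasurable
    _ = ∫⁻ r in Ioi (0 : ℝ), (g r * ENNReal.ofReal (r ^ (n + k))) *
          ∫⁻ x in {x | h x < 1}, f x := by
        refine setLIntegral_congr_fun measurableSet_Ioi fun r hr => ?_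
        beta_reduce
        have : ∀ x : E n, (Ioi (h x)).indicator (fun r => f x * g r) r =
            {x : E n | h x < r}.indicator (fun x => g r * f x) x := by
          intro x
          simp only [indicator_apply, mem_Ioi, mem_ofPred_eq, mul_comm]
        rw [lintegral_congr this, lintegral_indicator (hS r), lintegral_const_mul _ hf,
          polB_scale hc hh hf hfh hr, mul_assoc]
    _ = (∫⁻ r in Ioi (0 : ℝ), g r * ENNReal.ofReal (r ^ (n + k))) *
          ∫⁻ x in {x | h x < 1}, f x := by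
        rw [lintegral_mul_const]
        exact hgm.mul (by fun_prop)
    _ = _ := by rw [polB_gamma]

private theorem polB_lower {h : E n → ℝ} (hc : Continuous h)
    (hh : ∀ (r : ℝ) (x : E n), 0 ≤ r → h (r • x) = r * h x) (hpos : ∀ x, x ≠ 0 → 0 < h x) :
    ∃ c : ℝ, 0 < c ∧ ∀ x, c * ‖x‖ ≤ h x := by
  by_cases hne : (sphere (0 : E n) 1).Nonempty
  · obtain ⟨y, hy, hmin⟩ := (isCompact_sphere (0 : E n) 1).exists_isMinOn hne hc.continuousOn
    have hy1 : ‖y‖ = 1 := mem_sphere_zero_iff_norm.1 hy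
    have hy0 : y ≠ 0 := by
      intro h0
      rw [h0, norm_zero] at hy1
      exact zero_ne_one hy1
    refine ⟨h y, hpos y hy0, fun x => ?_⟩
    by_cases hx : x = 0
    · rw [hx, norm_zero, mul_zero]
      exact polB_nonneg hh hpos 0
    · have hx' : 0 < ‖x‖ := norm_pos_iff.2 hx
      have hxs : ‖x‖⁻¹ • x ∈ sphere (0 : E n) 1 := by
        rw [mem_sphere_zero_iff_norm, norm_smul, norm_inv, norm_norm, inv_mul_cancel₀ hx'.ne']
      have h1 : h y ≤ h (‖x‖⁻¹ • x) := hmin hxs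
      rw [hh _ _ (by positivity)] at h1
      calc h y * ‖x‖ ≤ ‖x‖⁻¹ * h x * ‖x‖ := by gcongr
        _ = h x := by field_simp
  · refine ⟨1, one_pos, fun x => ?_⟩
    by_cases hx : x = 0
    · rw [hx, norm_zero, mul_zero]
      exact polB_nonneg hh hpos 0
    · exfalso
      apply hne
      have hx' : 0 < ‖x‖ := norm_pos_iff.2 hx
      exact ⟨‖x‖⁻¹ • x, by
        rw [mem_sphere_zero_iff_norm, norm_smul, norm_inv, norm_norm, inv_mul_cancel₀ hx'.ne']⟩

private theorem polB_finite {h : E n → ℝ} (hc : Continuous h)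
    (hh : ∀ (r : ℝ) (x : E n), 0 ≤ r → h (r • x) = r * h x) (hpos : ∀ x, x ≠ 0 → 0 < h x) :
    volume {x | h x < 1} ≠ ∞ ∧ ∫⁻ x in {x | h x < 1}, ENNReal.ofReal ‖x‖ ≠ ∞ := by
  obtain ⟨c, hc0, hlow⟩ := polB_lower hc hh hpos
  have hsub : ∀ x ∈ {x : E n | h x < 1}, ‖x‖ ≤ c⁻¹ := by
    intro x hx
    have h1 := (hlow x).trans (le_of_lt hx)
    rw [← one_div, le_div_iff₀ hc0, mul_comm]
    exact h1
  have hv : volume {x : E n | h x < 1} ≠ ∞ := by
    have : {x : E n | h x < 1} ⊆ closedBall 0 c⁻¹ := fun x hx =>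
      mem_closedBall_zero_iff.2 (hsub x hx)
    exact ((measure_mono this).trans_lt measure_closedBall_lt_top).ne
  refine ⟨hv, ?_⟩
  have hS : MeasurableSet {x : E n | h x < 1} := measurableSet_lt hc.measurable measurable_const
  have h1 : ∫⁻ x in {x | h x < 1}, ENNReal.ofReal ‖x‖ ≤
      ∫⁻ x in {x : E n | h x < 1}, ENNReal.ofReal c⁻¹ :=
    setLIntegral_mono measurable_const fun x hx => ENNReal.ofReal_le_ofReal (hsub x hx)
  rw [setLIntegral_const] at h1
  exact (h1.trans_lt (ENNReal.mul_lt_top ENNReal.ofReal_lt_top hv.lt_top)).ne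

/-- JOB PolarB (a). `∫ exp(-h²) = Γ(n/2+1) vol {h < 1}`.
Proof. Layer cake: `exp(-h(x)²) = ∫_{r > h(x)} 2 r e^{-r²} dr`, Tonelli,
`vol {h < r} = r^n vol {h < 1}` (homogeneity, `Measure.addHaar_smul`), and
`∫_0^∞ 2 r^{n+1} e^{-r²} dr = Γ(n/2+1)` (`integral_rpow_mul_exp_neg_rpow` or similar). -/
theorem exp_vol {h : E n → ℝ} (hc : Continuous h)
    (hh : ∀ (r : ℝ) (x : E n), 0 ≤ r → h (r • x) = r * h x) (hpos : ∀ x, x ≠ 0 → 0 < h x) :
    ∫⁻ x, ENNReal.ofReal (Real.exp (-(h x) ^ 2)) =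
      ENNReal.ofReal (Real.Gamma (n / 2 + 1)) * volume {x | h x < 1} := by
  have := polB_main (f := fun _ : E n => (1 : ℝ≥0∞)) (k := 0) hc hh hpos measurable_const
    (fun r x _ => by simp)
  simpa using this

private theorem polB_moment {h : E n → ℝ} (hc : Continuous h)
    (hh : ∀ (r : ℝ) (x : E n), 0 ≤ r → h (r • x) = r * h x) (hpos : ∀ x, x ≠ 0 → 0 < h x) :
    ∫⁻ x, ENNReal.ofReal (‖x‖ * Real.exp (-(h x) ^ 2)) ≠ ∞ := by
  have h1 := polB_main (f := fun x : E n => ENNReal.ofReal ‖x‖) (k := 1) hc hh hpos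
    (by fun_prop) (fun r x hr => by
      rw [norm_smul, Real.norm_of_nonneg hr.le, ENNReal.ofReal_mul hr.le, pow_one])
  have h2 : ∫⁻ x, ENNReal.ofReal (‖x‖ * Real.exp (-(h x) ^ 2)) =
      ∫⁻ x, ENNReal.ofReal ‖x‖ * ENNReal.ofReal (Real.exp (-(h x) ^ 2)) :=
    lintegral_congr fun x => ENNReal.ofReal_mul (norm_nonneg x)
  rw [h2, h1]
  exact (ENNReal.mul_lt_top ENNReal.ofReal_lt_top (polB_finite hc hh hpos).2.lt_top).ne

/-- JOB PolarB (b). If the centroid of `{h < 1}` is `0` then so is the one of `exp(-h²)`.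
Proof. As in (a): `∫ ⟨x,v⟩ exp(-h²) = ∫_0^∞ 2 r e^{-r²} (∫_{h < r} ⟨x,v⟩ dx) dr` and
`∫_{h < r} ⟨x,v⟩ dx = r^{n+1} ∫_{h < 1} ⟨x,v⟩ dx = 0`. (Integrability: `h x ≥ c ‖x‖` for some
`c > 0` by compactness of the sphere; also give (c) below.) -/
theorem exp_bary {h : E n → ℝ} (hc : Continuous h)
    (hh : ∀ (r : ℝ) (x : E n), 0 ≤ r → h (r • x) = r * h x) (hpos : ∀ x, x ≠ 0 → 0 < h x)
    (v : E n) (hv : ∫ x in {x | h x < 1}, ⟪x, v⟫_ℝ = 0) :
    ∫ x, ⟪x, v⟫_ℝ * Real.exp (-(h x) ^ 2) = 0 := by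
  have hcont : Continuous fun x : E n => ⟪x, v⟫_ℝ := by fun_prop
  have hexp : ∀ x : E n, 0 ≤ Real.exp (-(h x) ^ 2) := fun x => (Real.exp_pos _).le
  -- integrability
  have hi1 : Integrable fun x : E n => ⟪x, v⟫_ℝ * Real.exp (-(h x) ^ 2) := by
    have hb : Integrable fun x : E n => ‖x‖ * Real.exp (-(h x) ^ 2) := by
      refine ⟨(by fun_prop : Continuous _).aestronglyMeasurable, ?_⟩
      rw [hasFiniteIntegral_iff_ofReal (Filter.Eventually.of_forall fun x =>
        mul_nonneg (norm_nonneg x) (hexp x))]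
      exact (polB_moment hc hh hpos).lt_top
    refine (hb.const_mul ‖v‖).mono' (by fun_prop : Continuous _).aestronglyMeasurable
      (Filter.Eventually.of_forall fun x => ?_)
    rw [norm_mul, Real.norm_of_nonneg (hexp x)]
    calc ‖⟪x, v⟫_ℝ‖ * Real.exp (-(h x) ^ 2) ≤ (‖x‖ * ‖v‖) * Real.exp (-(h x) ^ 2) := by
          gcongr
          exact norm_inner_le_norm x v
      _ = ‖v‖ * (‖x‖ * Real.exp (-(h x) ^ 2)) := by ring
  have hi2 : Integrable (fun x : E n => ⟪x, v⟫_ℝ) (volume.restrict {x | h x < 1}) := by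
    have hb : Integrable (fun x : E n => ‖x‖) (volume.restrict {x | h x < 1}) := by
      refine ⟨(by fun_prop : Continuous _).aestronglyMeasurable, ?_⟩
      rw [hasFiniteIntegral_iff_ofReal (Filter.Eventually.of_forall fun x => norm_nonneg x)]
      exact (polB_finite hc hh hpos).2.lt_top
    refine (hb.const_mul ‖v‖).mono' hcont.aestronglyMeasurable
      (Filter.Eventually.of_forall fun x => ?_)
    calc ‖⟪x, v⟫_ℝ‖ ≤ ‖x‖ * ‖v‖ := norm_inner_le_norm x v
      _ = ‖v‖ * ‖x‖ := mul_comm _ _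
  have hpart : ∀ w : E n, ∫⁻ x, ENNReal.ofReal (⟪x, w⟫_ℝ * Real.exp (-(h x) ^ 2)) =
      ENNReal.ofReal (Real.Gamma (((n + 1 : ℕ) : ℝ) / 2 + 1)) *
        ∫⁻ x in {x | h x < 1}, ENNReal.ofReal ⟪x, w⟫_ℝ := by
    intro w
    have h1 := polB_main (f := fun x : E n => ENNReal.ofReal ⟪x, w⟫_ℝ) (k := 1) hc hh hpos
      (by fun_prop) (fun r x hr => by
        rw [real_inner_smul_left, ENNReal.ofReal_mul hr.le, pow_one])
    rw [← h1]
    exact lintegral_congr fun x => ENNReal.ofReal_mul' (hexp x)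
  rw [integral_eq_lintegral_pos_part_sub_lintegral_neg_part hi2] at hv
  rw [integral_eq_lintegral_pos_part_sub_lintegral_neg_part hi1]
  have hneg1 : ∀ x : E n, -(⟪x, v⟫_ℝ * Real.exp (-(h x) ^ 2)) =
      ⟪x, -v⟫_ℝ * Real.exp (-(h x) ^ 2) := fun x => by rw [inner_neg_right, neg_mul]
  have hneg2 : ∀ x : E n, -⟪x, v⟫_ℝ = ⟪x, -v⟫_ℝ := fun x => by rw [inner_neg_right]
  simp_rw [hneg1]
  simp_rw [hneg2] at hv
  rw [hpart v, hpart (-v), ENNReal.toReal_mul, ENNReal.toReal_mul, ← mul_sub, hv, mul_zero]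

/-- JOB PolarB (c). Finiteness of the first moment. -/
theorem exp_moment {h : E n → ℝ} (hc : Continuous h)
    (hh : ∀ (r : ℝ) (x : E n), 0 ≤ r → h (r • x) = r * h x) (hpos : ∀ x, x ≠ 0 → 0 < h x) :
    ∫⁻ x, ENNReal.ofReal (‖x‖ * Real.exp (-(h x) ^ 2)) ≠ ∞ ∧
      ∫⁻ x, ENNReal.ofReal (Real.exp (-(h x) ^ 2)) ≠ ∞ := by
  refine ⟨polB_moment hc hh hpos, ?_⟩
  rw [exp_vol hc hh hpos]
  exact (ENNReal.mul_lt_top ENNReal.ofReal_lt_top (polB_finite hc hh hpos).1.lt_top).ne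

end Pool.Agent.Lib.MP_e62723_gt
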