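import Pool.Agent.Lib.MP_e62723_gt.Gauge
import Pool.Agent.Lib.MP_e62723_gt.Polar
import Pool.Agent.Lib.MP_e62723_gt.Lehec

open MeasureTheory Set
open scoped ENNReal InnerProductSpace

namespace Pool.Agent.Lib.MP_e62723_gt

variable {n : ℕ} {K : Set (E n)}

private lemma Santalo_ae (hK : Body K) : {x | gauge K x < 1} =ᵐ[volume] K := by
  have h1 : ∀ᵐ x : E n, x ∉ frontier K := by
    rw [ae_iff]
    simpa using hK.convex.addHaar_frontier volume
  filter_upwards [h1] with x hx
  apply propext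
  show gauge K x < 1 ↔ x ∈ K
  rw [gauge_lt_one_iff_mem_interior hK.convex hK.mem_nhds]
  constructor
  · exact fun h => interior_subset h
  · intro h
    by_contra h2
    exact hx ⟨subset_closure h, h2⟩

private lemma Santalo_norm_le (y : Fin n → ℝ) : ‖y‖ ≤ ‖(WithLp.toLp 2 y : E n)‖ := by
  rw [pi_norm_le_iff_of_nonneg (norm_nonneg _)]
  intro i
  exact PiLp.norm_apply_le (WithLp.toLp 2 y : E n) i

private lemma Santalo_inner (x y : Fin n → ℝ) :
    ⟪(WithLp.toLp 2 y : E n), (WithLp.toLp 2 x : E n)⟫_ℝ = x ⬝ᵥ y := by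
  rw [EuclideanSpace.inner_toLp_toLp]
  simp

/-- JOB Santalo. The Blaschke-Santalo inequality for a convex body with centroid `0`.
Proof. `f = exp(-supp²)` and `g = exp(-gauge²)`, moved to `Fin n → ℝ` by
`EuclideanSpace.volume_preserving_symm_measurableEquiv_toLp` (or whatever its name is):
`f x * g y = exp(-(supp x)² - (gauge y)²) ≤ exp(-2 gauge y · supp x) ≤ exp(-2 ⟨x, y⟩)`
(`Body.inner_le_mul`). `lehec n` with `C = 1`; `exp_vol`, `exp_bary`, `exp_moment` for
`h = gauge K` (continuous, positively homogeneous, positive: `Body.continuous_gauge`,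
`Body.gauge_smul`, `Body.gauge_pos`) and `exp_vol` for `h = supp K`. `{gauge K < 1}` is
`interior K` up to a null set `K \ {gauge K < 1}` (frontier: `Convex.addHaar_frontier`,
`gauge_lt_one_eq_self_of_isOpen` or `interior_eq...`), so it has the volume and the first moments
of `K`. Finally `π^n = (Γ(n/2+1) κ_n)²` by `EuclideanSpace.volume_ball`. -/
theorem santalo (hK : Body K) (hc : ∀ v : E n, ∫ x in K, ⟪x, v⟫_ℝ = 0) :
    volume K * volume {v | supp K v < 1} ≤ volume (Metric.ball (0 : E n) 1) ^ 2 := by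
  rcases Nat.eq_zero_or_pos n with hn | hn
  · subst hn
    have hball : Metric.ball (0 : E 0) 1 = univ := by
      ext x
      simp [Subsingleton.elim x 0]
    rw [hball, sq]
    exact mul_le_mul' (measure_mono (subset_univ _)) (measure_mono (subset_univ _))
  have hne : Nonempty (Fin n) := ⟨⟨0, hn⟩⟩
  have hmp := PiLp.volume_preserving_toLp (Fin n)
  have hmeas : Measurable (WithLp.toLp 2 : (Fin n → ℝ) → E n) := hmp.measurable
  -- facts on the gauge and the support function
  have gc := hK.continuous_gauge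
  have gh : ∀ (r : ℝ) (x : E n), 0 ≤ r → gauge K (r • x) = r * gauge K x :=
    fun r x hr => Body.gauge_smul hr x
  have gp : ∀ x : E n, x ≠ 0 → 0 < gauge K x := fun x hx => hK.gauge_pos hx
  have sc := hK.continuous_supp
  have sh : ∀ (r : ℝ) (x : E n), 0 ≤ r → supp K (r • x) = r * supp K x :=
    fun r x hr => hK.supp_smul hr x
  have sp : ∀ x : E n, x ≠ 0 → 0 < supp K x := fun x hx => hK.supp_pos hx
  set f : (Fin n → ℝ) → ℝ≥0∞ := fun x =>
    ENNReal.ofReal (Real.exp (-(supp K (WithLp.toLp 2 x)) ^ 2)) with hf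
  set g : (Fin n → ℝ) → ℝ≥0∞ := fun y =>
    ENNReal.ofReal (Real.exp (-(gauge K (WithLp.toLp 2 y)) ^ 2)) with hg
  have hsE : Measurable fun x : E n => ENNReal.ofReal (Real.exp (-(supp K x) ^ 2)) :=
    (Real.continuous_exp.comp ((sc.pow 2).neg)).measurable.ennreal_ofReal
  have hgE : Measurable fun x : E n => ENNReal.ofReal (Real.exp (-(gauge K x) ^ 2)) :=
    (Real.continuous_exp.comp ((gc.pow 2).neg)).measurable.ennreal_ofReal
  have hfm : Measurable f := hsE.comp hmeas
  have hgm : Measurable g := hgE.comp hmeas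
  have hfi : ∫⁻ x, f x = ENNReal.ofReal (Real.Gamma (n / 2 + 1)) * volume {v | supp K v < 1} := by
    rw [← exp_vol sc sh sp]
    exact hmp.lintegral_comp hsE
  have hgi : ∫⁻ x, g x = ENNReal.ofReal (Real.Gamma (n / 2 + 1)) * volume K := by
    rw [← measure_congr (Santalo_ae hK), ← exp_vol gc gh gp]
    exact hmp.lintegral_comp hgE
  have hmom := exp_moment gc gh gp
  have hgi' : ∫⁻ x, g x = ∫⁻ x : E n, ENNReal.ofReal (Real.exp (-(gauge K x) ^ 2)) :=
    hmp.lintegral_comp hgE
  have hg0 : ∫⁻ y, g y ≠ ∞ := by rw [hgi']; exact hmom.2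
  have hgE1 : Measurable fun x : E n => ENNReal.ofReal (‖x‖ * Real.exp (-(gauge K x) ^ 2)) :=
    (continuous_norm.mul (Real.continuous_exp.comp ((gc.pow 2).neg))).measurable.ennreal_ofReal
  have hg1 : ∫⁻ y, ‖y‖ₑ * g y ≠ ∞ := by
    have h1 : ∫⁻ y : Fin n → ℝ, ENNReal.ofReal (‖(WithLp.toLp 2 y : E n)‖ *
        Real.exp (-(gauge K (WithLp.toLp 2 y)) ^ 2)) =
        ∫⁻ x : E n, ENNReal.ofReal (‖x‖ * Real.exp (-(gauge K x) ^ 2)) :=
      hmp.lintegral_comp hgE1
    refine ne_top_of_le_ne_top (h1 ▸ hmom.1) (lintegral_mono fun y => ?_)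
    rw [ENNReal.ofReal_mul (norm_nonneg _)]
    refine mul_le_mul' ?_ le_rfl
    rw [← ofReal_norm]
    exact ENNReal.ofReal_le_ofReal (Santalo_norm_le y)
  have hgr : ∀ y, (g y).toReal = Real.exp (-(gauge K (WithLp.toLp 2 y)) ^ 2) := by
    intro y
    rw [hg]
    exact ENNReal.toReal_ofReal (Real.exp_pos _).le
  have hgb : ∫ y, (g y).toReal • y = 0 := by
    have hint : Integrable fun y : Fin n → ℝ => (g y).toReal • y := by
      refine ⟨(hgm.ennreal_toReal.smul measurable_id).aestronglyMeasurable, ?_⟩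
      refine lt_of_le_of_lt (lintegral_mono fun y => ?_) (lt_top_iff_ne_top.2 hg1)
      rw [enorm_smul, mul_comm]
      refine mul_le_mul' le_rfl ?_
      rw [Real.enorm_eq_ofReal ENNReal.toReal_nonneg]
      exact ENNReal.ofReal_toReal_le
    ext i
    rw [eval_integral (fun i => hint.eval i)]
    have h1 := exp_bary gc gh gp (EuclideanSpace.single i (1 : ℝ)) (by
      rw [setIntegral_congr_set (Santalo_ae hK)]
      exact hc _)
    have h2 := hmp.integral_comp (MeasurableEquiv.toLp 2 (Fin n → ℝ)).measurableEmbedding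
      (fun x : E n => ⟪x, EuclideanSpace.single i (1 : ℝ)⟫_ℝ * Real.exp (-(gauge K x) ^ 2))
    rw [h1] at h2
    rw [Pi.zero_apply, ← h2]
    congr 1
    ext y
    rw [Pi.smul_apply, smul_eq_mul, hgr, mul_comm]
    congr 1
    rw [EuclideanSpace.inner_single_right]
    simp
  have hfg : ∀ x y, f x * g y ≤ ENNReal.ofReal (1 * Real.exp (-2 * (x ⬝ᵥ y))) := by
    intro x y
    rw [hf, hg]
    simp only
    rw [← ENNReal.ofReal_mul (Real.exp_pos _).le, ← Real.exp_add, one_mul]
    apply ENNReal.ofReal_le_ofReal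
    apply Real.exp_le_exp.2
    have h1 := hK.inner_le_mul (WithLp.toLp 2 y) (WithLp.toLp 2 x)
    rw [Santalo_inner] at h1
    nlinarith [sq_nonneg (supp K (WithLp.toLp 2 x) - gauge K (WithLp.toLp 2 y))]
  have key := lehec n 1 zero_le_one f g hfm hgm hg0 hg1 hgb hfg
  rw [hfi, hgi, one_mul] at key
  -- conclusion
  have hG : 0 < Real.Gamma (n / 2 + 1) := Real.Gamma_pos_of_pos (by positivity)
  have hball : volume (Metric.ball (0 : E n) 1) =
      ENNReal.ofReal (√Real.pi ^ n / Real.Gamma (n / 2 + 1)) := by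
    rw [EuclideanSpace.volume_ball]
    simp
  have hpi : ENNReal.ofReal (Real.pi ^ n) =
      (ENNReal.ofReal (Real.Gamma (n / 2 + 1)) * volume (Metric.ball (0 : E n) 1)) ^ 2 := by
    rw [hball, ← ENNReal.ofReal_mul hG.le, mul_div_cancel₀ _ hG.ne', ← ENNReal.ofReal_pow
      (by positivity), ← pow_mul, mul_comm n 2, pow_mul, Real.sq_sqrt Real.pi_nonneg]
  rw [hpi] at key
  have hG0 : ENNReal.ofReal (Real.Gamma (n / 2 + 1)) ≠ 0 := by
    simpa using hG
  have hGt : ENNReal.ofReal (Real.Gamma (n / 2 + 1)) ≠ ∞ := ENNReal.ofReal_ne_top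
  have h3 : ENNReal.ofReal (Real.Gamma (n / 2 + 1)) ^ 2 *
      (volume K * volume {v | supp K v < 1}) ≤
      ENNReal.ofReal (Real.Gamma (n / 2 + 1)) ^ 2 * volume (Metric.ball (0 : E n) 1) ^ 2 := by
    rw [← mul_pow]
    refine le_trans (le_of_eq ?_) key
    ring
  exact (ENNReal.mul_le_mul_iff_right (pow_ne_zero 2 hG0) (ENNReal.pow_ne_top hGt)).1 h3

end Pool.Agent.Lib.MP_e62723_gt
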