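import Pool.Agent.Lib.MP_e62723_gt.Nu
import Pool.Agent.Lib.MP_e62723_gt.Santalo
import Pool.Agent.Lib.MP_e62723_gt.Center

/-!
The lower bound for the volume of a body of constant brightness.
-/

open MeasureTheory Set Metric Filter Topology
open scoped ENNReal InnerProductSpace

namespace Pool.Agent.Lib.MP_e62723_gt

variable {n : ℕ} {K : Set (E n)}

theorem grad_pow_le (hK : Body K) :
    ∫⁻ x in K, ENNReal.ofReal ‖grad K x‖ ^ (n + 1) ≤
      ∫⁻ y, ENNReal.ofReal ((supp K y)⁻¹ ^ n) ∂(nu K) := by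
  have hm : Measurable fun y : E n => ENNReal.ofReal ((supp K y)⁻¹ ^ n) :=
    ((hK.continuous_supp.measurable.inv).pow_const n).ennreal_ofReal
  rw [lintegral_nu hm]
  refine lintegral_mono_ae ?_
  filter_upwards [ae_restrict_of_ae hK.ae_differentiableAt] with x hx
  rw [pow_succ']
  by_cases h0 : grad K x = 0
  · simp [h0]
  refine mul_le_mul_right ?_ _
  rw [← ENNReal.ofReal_pow (norm_nonneg _)]
  apply ENNReal.ofReal_le_ofReal
  have hG : 0 < ‖grad K x‖ := norm_pos_iff.2 h0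
  have h1 : supp K (grad K x) = ‖grad K x‖ * supp K (dir K x) := by
    conv_lhs => rw [← norm_mul_dir x]
    exact hK.supp_smul (norm_nonneg _) _
  have h2 := hK.supp_grad_le hx
  rw [h1] at h2
  have hd : dir K x ≠ 0 := by
    intro h
    have := norm_mul_dir (K := K) x
    rw [h, smul_zero] at this
    exact h0 this.symm
  have h3 := hK.supp_pos hd
  apply pow_le_pow_left₀ (norm_nonneg _)
  rw [← one_div, le_div_iff₀ h3]
  exact h2

theorem grad_pow_le' (hn : 1 ≤ n) (hK : Body K)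
    (hb : ∀ u : E n, ‖u‖ = 1 →
      Measure.euclideanHausdorffMeasure (n - 1) ((ℝ ∙ u)ᗮ.starProjection '' K) =
        volume (ball (0 : E (n - 1)) 1)) :
    ∫⁻ x in K, ENNReal.ofReal ‖grad K x‖ ^ (n + 1) ≤ 2 * volume {v : E n | supp K v < 1} := by
  have hm : Measurable fun y : E n => ENNReal.ofReal ((supp K y)⁻¹ ^ n) :=
    ((hK.continuous_supp.measurable.inv).pow_const n).ennreal_ofReal
  rw [polar_vol hn hK.continuous_supp (fun r x hr => hK.supp_smul hr x) (fun x hx => hK.supp_pos hx)]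
  exact (grad_pow_le hK).trans (lintegral_nu_le hn hK hb hm)

theorem holder_pow {α : Type*} [MeasurableSpace α] {μ : Measure α} (k : ℕ) {a : α → ℝ≥0∞}
    (ha : AEMeasurable a μ) :
    (∫⁻ x, a x ∂μ) ^ (k + 1) ≤ μ univ ^ k * ∫⁻ x, a x ^ (k + 1) ∂μ := by
  rcases Nat.eq_zero_or_pos k with rfl | hk
  · simp
  have hk' : (0 : ℝ) < k := by exact_mod_cast hk
  have hpq : ((k : ℝ) + 1).HolderConjugate (((k : ℝ) + 1) / k) := by
    rw [Real.holderConjugate_iff]
    refine ⟨by linarith, ?_⟩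
    field_simp
    ring
  have h := ENNReal.lintegral_mul_le_Lp_mul_Lq μ hpq ha (aemeasurable_const (b := (1 : ℝ≥0∞)))
  simp only [Pi.mul_apply, mul_one, ENNReal.one_rpow, lintegral_const, one_mul] at h
  have h2 := pow_le_pow_left' h (k + 1)
  refine h2.trans (le_of_eq ?_)
  rw [mul_pow, ← ENNReal.rpow_natCast, ← ENNReal.rpow_natCast, ← ENNReal.rpow_mul,
    ← ENNReal.rpow_mul, mul_comm]
  congr 1
  · rw [← ENNReal.rpow_natCast]
    congr 1
    push_cast
    field_simp
  · have : (1 / ((k : ℝ) + 1)) * ((k + 1 : ℕ) : ℝ) = 1 := by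
      push_cast
      field_simp
    rw [this, ENNReal.rpow_one]
    refine lintegral_congr fun x => ?_
    rw [← ENNReal.rpow_natCast]
    push_cast
    rfl

/-- The bound for a centred body. -/
theorem bound_centred (hn : 2 ≤ n) (hK : Body K)
    (hc : ∀ v : E n, ∫ x in K, ⟪x, v⟫_ℝ = 0)
    (hb : ∀ u : E n, ‖u‖ = 1 →
      Measure.euclideanHausdorffMeasure (n - 1) ((ℝ ∙ u)ᗮ.starProjection '' K) =
        volume (ball (0 : E (n - 1)) 1)) :
    volume (ball (0 : E n) 1) ^ (n - 1) ≤ 2 * volume K ^ (n - 1) := by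
  have hn1 : 1 ≤ n := by omega
  set κ := volume (ball (0 : E n) 1) with hκ
  have hκ0 : κ ≠ 0 := (measure_ball_pos volume 0 one_pos).ne'
  have hκt : κ ≠ ∞ := measure_ball_lt_top.ne
  have hVt : volume K ≠ ∞ := hK.compact.measure_lt_top.ne
  have hV0 : volume K ≠ 0 := by
    have := measure_mono (μ := (volume : Measure (E n))) (interior_subset (s := K))
    have h2 : 0 < volume (interior K) := isOpen_interior.measure_pos _ ⟨0, hK.zero_mem⟩
    exact (h2.trans_le this).ne'
  have h1 := nu_univ_eq hn1 hK hb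
  have h2 := grad_pow_le' hn1 hK hb
  have h3 := santalo hK hc
  have h4 := holder_pow (μ := volume.restrict K) n
    (a := fun x : E n => ENNReal.ofReal ‖grad K x‖) measurable_ofReal_grad.aemeasurable
  rw [h1, Measure.restrict_apply_univ] at h4
  have h5 : κ ^ (n + 1) * volume K ≤ 2 * volume K ^ n * κ ^ 2 := by
    calc κ ^ (n + 1) * volume K
        ≤ (volume K ^ n * ∫⁻ x in K, ENNReal.ofReal ‖grad K x‖ ^ (n + 1)) * volume K := by
          gcongr
      _ ≤ (volume K ^ n * (2 * volume {v : E n | supp K v < 1})) * volume K := by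
          gcongr
      _ = 2 * volume K ^ n * (volume K * volume {v : E n | supp K v < 1}) := by ring
      _ ≤ 2 * volume K ^ n * κ ^ 2 := by gcongr
  obtain ⟨m, rfl⟩ : ∃ m, n = m + 1 := ⟨n - 1, by omega⟩
  simp only [Nat.add_sub_cancel]
  have h6 : κ ^ m * (κ ^ 2 * volume K) ≤ (2 * volume K ^ m) * (κ ^ 2 * volume K) := by
    calc κ ^ m * (κ ^ 2 * volume K) = κ ^ (m + 1 + 1) * volume K := by ring
      _ ≤ 2 * volume K ^ (m + 1) * κ ^ 2 := h5
      _ = (2 * volume K ^ m) * (κ ^ 2 * volume K) := by ring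
  have h7 : κ ^ 2 * volume K ≠ 0 := mul_ne_zero (pow_ne_zero _ hκ0) hV0
  have h8 : κ ^ 2 * volume K ≠ ∞ := ENNReal.mul_ne_top (ENNReal.pow_ne_top hκt) hVt
  exact (ENNReal.mul_le_mul_iff_left h7 h8).1 h6

theorem hausdorff_ne_top (hK : Body K) {u : E n} (hu : ‖u‖ = 1) :
    Measure.euclideanHausdorffMeasure (n - 1) ((ℝ ∙ u)ᗮ.starProjection '' K) ≠ ∞ := by
  have h := proj_formula hK hu
  obtain ⟨C, hC0, hC⟩ := hK.exists_norm_grad_le
  have h1 : ∫⁻ x in K, ENNReal.ofReal |⟪grad K x, u⟫_ℝ| ≠ ∞ := by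
    refine ne_of_lt ?_
    calc ∫⁻ x in K, ENNReal.ofReal |⟪grad K x, u⟫_ℝ| ≤ ∫⁻ x in K, ENNReal.ofReal C := by
          refine lintegral_mono fun x => ENNReal.ofReal_le_ofReal ?_
          have := abs_real_inner_le_norm (grad K x) u
          rw [hu, mul_one] at this
          exact this.trans (hC x)
      _ = ENNReal.ofReal C * volume K := by rw [setLIntegral_const]
      _ < ∞ := ENNReal.mul_lt_top ENNReal.ofReal_lt_top hK.compact.measure_lt_top
  intro h2
  rw [h2] at h
  have h3 : (n : ℝ≥0∞) * ∫⁻ x in K, ENNReal.ofReal |⟪grad K x, u⟫_ℝ| ≠ ∞ :=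
    ENNReal.mul_ne_top (ENNReal.natCast_ne_top n) h1
  rw [h] at h3
  simp at h3

/-- **Theorem.** A convex body of constant brightness `κ_{n-1}` has volume
at least `2^{-1/(n-1)} κ_n`. -/
theorem brightness_bound (hn : 2 ≤ n) (hK : IsConvexBody K)
    (hb : HasConstantBrightness K (kappa (n - 1))) :
    kappa n ^ (n - 1) ≤ 2 * (volume K).toReal ^ (n - 1) := by
  obtain ⟨z, hB, hc⟩ := exists_center hK
  have hb' : ∀ u : E n, ‖u‖ = 1 →
      Measure.euclideanHausdorffMeasure (n - 1)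
        ((ℝ ∙ u)ᗮ.starProjection '' ((fun x => x + z) '' K)) =
        volume (ball (0 : E (n - 1)) 1) := by
    intro u hu
    have h1 := hausdorff_ne_top hB hu
    have h2 := hb u hu
    unfold brightness kappa at h2
    rw [← brightness_translate z u] at h2
    exact (ENNReal.toReal_eq_toReal_iff' h1 measure_ball_lt_top.ne).1 h2
  have h := bound_centred hn hB hc hb'
  rw [volume_translate] at h
  have h2 := ENNReal.toReal_mono (ENNReal.mul_ne_top (by norm_num)
    (ENNReal.pow_ne_top hK.compact.measure_lt_top.ne)) h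
  rw [ENNReal.toReal_mul, ENNReal.toReal_pow, ENNReal.toReal_pow] at h2
  simpa [kappa] using h2

theorem kappa_pos (k : ℕ) : 0 < kappa k :=
  ENNReal.toReal_pos (measure_ball_pos volume 0 one_pos).ne' measure_ball_lt_top.ne

theorem volume_lower (hn : 2 ≤ n) (hK : IsConvexBody K)
    (hb : HasConstantBrightness K (kappa (n - 1))) :
    (2 : ℝ) ^ (-(1 / ((n : ℝ) - 1))) * kappa n ≤ (volume K).toReal := by
  have h := brightness_bound hn hK hb
  obtain ⟨m, rfl⟩ : ∃ m, n = m + 1 := ⟨n - 1, by omega⟩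
  have hm : m ≠ 0 := by omega
  have hm' : (0 : ℝ) < m := by exact_mod_cast Nat.pos_of_ne_zero hm
  simp only [Nat.add_sub_cancel] at h
  refine le_of_pow_le_pow_left₀ hm ENNReal.toReal_nonneg ?_
  rw [mul_pow, ← Real.rpow_natCast (2 ^ _) m, ← Real.rpow_mul (by norm_num)]
  have : -(1 / (((m + 1 : ℕ) : ℝ) - 1)) * (m : ℝ) = -1 := by
    push_cast
    rw [add_sub_cancel_right, one_div, neg_mul, inv_mul_cancel₀ hm'.ne']
  rw [this, Real.rpow_neg_one]
  linarith

theorem volume_closedBall_eq (hn : 1 ≤ n) : (volume (closedBall (0 : E n) 1)).toReal = kappa n := by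
  have : Nontrivial (E n) := by
    have : Nonempty (Fin n) := ⟨⟨0, hn⟩⟩
    infer_instance
  unfold kappa
  rw [Measure.addHaar_closedBall_eq_addHaar_ball]

theorem mB_le (hn : 1 ≤ n) : mB n ≤ kappa n := by
  refine csInf_le ⟨0, ?_⟩ ⟨closedBall (0 : E n) 1, isConvexBody_ball, brightness_ball,
    (volume_closedBall_eq hn).symm⟩
  rintro v ⟨K, _, _, rfl⟩
  exact ENNReal.toReal_nonneg

theorem le_mB (hn : 2 ≤ n) : (2 : ℝ) ^ (-(1 / ((n : ℝ) - 1))) * kappa n ≤ mB n := by
  refine le_csInf ⟨_, closedBall (0 : E n) 1, isConvexBody_ball, brightness_ball, rfl⟩ ?_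
  rintro v ⟨K, hK, hb, rfl⟩
  exact volume_lower hn hK hb

theorem tendsto_ratio : Tendsto (fun n : ℕ => mB n / kappa n) atTop (𝓝 1) := by
  have h1 : Tendsto (fun n : ℕ => (2 : ℝ) ^ (-(1 / ((n : ℝ) - 1)))) atTop (𝓝 1) := by
    have h2 : Tendsto (fun n : ℕ => -(1 / ((n : ℝ) - 1))) atTop (𝓝 0) := by
      have h3 : Tendsto (fun n : ℕ => (n : ℝ) - 1) atTop atTop :=
        tendsto_atTop_add_const_right _ _ tendsto_natCast_atTop_atTop
      have h4 := (tendsto_const_nhds (x := (1 : ℝ))).div_atTop h3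
      simpa using h4.neg
    have h5 := (Real.continuous_const_rpow (a := (2 : ℝ)) (by norm_num)).tendsto 0
    rw [Real.rpow_zero] at h5
    exact h5.comp h2
  refine tendsto_of_tendsto_of_tendsto_of_le_of_le' h1 tendsto_const_nhds ?_ ?_
  · filter_upwards [eventually_ge_atTop 2] with n hn
    rw [le_div_iff₀ (kappa_pos n)]
    exact le_mB hn
  · filter_upwards [eventually_ge_atTop 1] with n hn
    exact (div_le_one (kappa_pos n)).2 (mB_le hn)

end Pool.Agent.Lib.MP_e62723_gt
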