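import Pool.Agent.Lib.MP_e62723_gt.Proj
import Pool.Agent.Lib.MP_e62723_gt.Cosine
import Pool.Agent.Lib.MP_e62723_gt.BallB
import Pool.Agent.Lib.MP_e62723_gt.Polar

/-!
The measure `ν_K` on the unit sphere (`n ν_K` is the surface area measure of `K`).
-/

open MeasureTheory Set Metric
open scoped ENNReal InnerProductSpace

namespace Pool.Agent.Lib.MP_e62723_gt

variable {n : ℕ} {K : Set (E n)}

/-- the direction of the gradient of the gauge -/
noncomputable def dir (K : Set (E n)) (x : E n) : E n := ‖grad K x‖⁻¹ • grad K x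

theorem measurable_dir : Measurable (dir K) :=
  (Body.measurable_grad.norm.inv).smul Body.measurable_grad

/-- the push-forward of `‖grad‖` times the volume on `K` under the direction of the gradient -/
noncomputable def nu (K : Set (E n)) : Measure (E n) :=
  ((volume.restrict K).withDensity (fun x => ENNReal.ofReal ‖grad K x‖)).map (dir K)

theorem measurable_ofReal_grad : Measurable (fun x : E n => ENNReal.ofReal ‖grad K x‖) :=
  Body.measurable_grad.norm.ennreal_ofReal

theorem lintegral_nu {φ : E n → ℝ≥0∞} (hφ : Measurable φ) :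
    ∫⁻ y, φ y ∂(nu K) = ∫⁻ x in K, ENNReal.ofReal ‖grad K x‖ * φ (dir K x) := by
  unfold nu
  rw [lintegral_map hφ measurable_dir]
  exact lintegral_withDensity_eq_lintegral_mul _ measurable_ofReal_grad (hφ.comp measurable_dir)

theorem nu_univ : nu K univ = ∫⁻ x in K, ENNReal.ofReal ‖grad K x‖ := by
  rw [← lintegral_one, lintegral_nu measurable_const]
  simp

theorem isFiniteMeasure_nu (hK : Body K) : IsFiniteMeasure (nu K) := by
  obtain ⟨C, hC0, hC⟩ := hK.exists_norm_grad_le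
  refine ⟨?_⟩
  rw [nu_univ]
  calc ∫⁻ x in K, ENNReal.ofReal ‖grad K x‖ ≤ ∫⁻ x in K, ENNReal.ofReal C :=
        lintegral_mono fun x => ENNReal.ofReal_le_ofReal (hC x)
    _ = ENNReal.ofReal C * volume K := by rw [setLIntegral_const]
    _ < ∞ := ENNReal.mul_lt_top ENNReal.ofReal_lt_top hK.compact.measure_lt_top

theorem ae_nu_norm : ∀ᵐ y ∂(nu K), ‖y‖ = 1 := by
  unfold nu
  rw [ae_map_iff measurable_dir.aemeasurable (measurableSet_eq_fun measurable_norm measurable_const),
    ae_withDensity_iff measurable_ofReal_grad]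
  refine Filter.Eventually.of_forall fun x hx => ?_
  have h1 : 0 < ‖grad K x‖ := by
    by_contra h
    exact hx (ENNReal.ofReal_eq_zero.2 (not_lt.1 h))
  unfold dir
  rw [norm_smul, norm_inv, norm_norm, inv_mul_cancel₀ h1.ne']

theorem norm_mul_dir (x : E n) : ‖grad K x‖ • dir K x = grad K x := by
  unfold dir
  by_cases h : grad K x = 0
  · simp [h]
  · rw [smul_smul, mul_inv_cancel₀ (norm_ne_zero_iff.2 h), one_smul]

theorem cos_nu (u : E n) :
    ∫⁻ y, ENNReal.ofReal |⟪y, u⟫_ℝ| ∂(nu K) = ∫⁻ x in K, ENNReal.ofReal |⟪grad K x, u⟫_ℝ| := by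
  rw [lintegral_nu (by fun_prop)]
  refine lintegral_congr fun x => ?_
  rw [← ENNReal.ofReal_mul (norm_nonneg _)]
  congr 1
  conv_rhs => rw [← norm_mul_dir x, real_inner_smul_left, abs_mul, abs_norm]

/-! ### the ball -/

theorem lintegral_nu_ball (hn : 1 ≤ n) {φ : E n → ℝ≥0∞} (hφ : Measurable φ) :
    ∫⁻ y, φ y ∂(nu (closedBall (0 : E n) 1)) = ∫⁻ x in ball (0 : E n) 1, φ (‖x‖⁻¹ • x) := by
  have : Nontrivial (E n) := by
    have : Nonempty (Fin n) := ⟨⟨0, hn⟩⟩
    infer_instance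
  rw [lintegral_nu hφ]
  have h1 : (volume.restrict (closedBall (0 : E n) 1)) = volume.restrict (ball (0 : E n) 1) := by
    apply Measure.restrict_congr_set
    refine (ae_eq_of_subset_of_measure_ge ball_subset_closedBall ?_
      measurableSet_ball.nullMeasurableSet measure_closedBall_lt_top.ne).symm
    rw [Measure.addHaar_closedBall_eq_addHaar_ball]
  rw [h1]
  refine lintegral_congr_ae ?_
  have h2 : ∀ᵐ x : E n ∂(volume.restrict (ball (0 : E n) 1)), x ≠ 0 := by
    apply ae_restrict_of_ae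
    rw [ae_iff]
    simp
  filter_upwards [h2] with x hx
  have hn' : ‖x‖ ≠ 0 := norm_ne_zero_iff.2 hx
  have h3 : ‖grad (closedBall (0 : E n) 1) x‖ = 1 := by
    rw [grad_ball hx, norm_smul, norm_inv, norm_norm, inv_mul_cancel₀ hn']
  unfold dir
  rw [h3, grad_ball hx]
  simp

theorem lintegral_nu_ball_neg (hn : 1 ≤ n) {φ : E n → ℝ≥0∞} (hφ : Measurable φ) :
    ∫⁻ y, φ (-y) ∂(nu (closedBall (0 : E n) 1)) = ∫⁻ y, φ y ∂(nu (closedBall (0 : E n) 1)) := by
  rw [lintegral_nu_ball hn hφ, lintegral_nu_ball hn (φ := fun y => φ (-y)) (hφ.comp measurable_neg)]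
  have h1 := (Measure.measurePreserving_neg (volume : Measure (E n))).setLIntegral_comp_preimage_emb
    (MeasurableEquiv.neg (E n)).measurableEmbedding
    (fun x => φ (‖x‖⁻¹ • x)) (ball (0 : E n) 1)
  rw [← h1]
  have h2 : (Neg.neg ⁻¹' ball (0 : E n) 1) = ball (0 : E n) 1 := by
    ext x
    simp
  rw [h2]
  simp

/-- The symmetrised measures of a body of constant brightness and of the ball agree. -/
theorem nu_symm_eq (hn : 1 ≤ n) (hK : Body K)
    (hb : ∀ u : E n, ‖u‖ = 1 →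
      Measure.euclideanHausdorffMeasure (n - 1) ((ℝ ∙ u)ᗮ.starProjection '' K) =
        volume (ball (0 : E (n - 1)) 1)) :
    nu K + (nu K).map (fun y => -y) =
      nu (closedBall (0 : E n) 1) + (nu (closedBall (0 : E n) 1)).map (fun y => -y) := by
  have := isFiniteMeasure_nu hK
  have := isFiniteMeasure_nu (body_ball (n := n))
  refine cosine_unique hn ae_nu_norm ae_nu_norm fun u => ?_
  have key : ∀ u : E n, ‖u‖ = 1 →
      ∫⁻ y, ENNReal.ofReal |⟪y, u⟫_ℝ| ∂(nu K) =
        ∫⁻ y, ENNReal.ofReal |⟪y, u⟫_ℝ| ∂(nu (closedBall (0 : E n) 1)) := by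
    intro u hu
    rw [cos_nu, cos_nu]
    have h1 := proj_formula hK hu
    have h2 := proj_formula (body_ball (n := n)) hu
    rw [hb u hu] at h1
    rw [hausdorff_proj_ball hu] at h2
    rw [← h2] at h1
    have hn0 : (n : ℝ≥0∞) ≠ 0 := by
      simp only [ne_eq, Nat.cast_eq_zero]
      omega
    exact (ENNReal.mul_right_inj hn0 (ENNReal.natCast_ne_top n)).1 h1
  by_cases hu : u = 0
  · simp [hu]
  have hu' : ‖u‖ ≠ 0 := norm_ne_zero_iff.2 hu
  have h1 := key (‖u‖⁻¹ • u) (by rw [norm_smul, norm_inv, norm_norm, inv_mul_cancel₀ hu'])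
  have h2 : ∀ y : E n, ENNReal.ofReal |⟪y, u⟫_ℝ| =
      ENNReal.ofReal ‖u‖ * ENNReal.ofReal |⟪y, ‖u‖⁻¹ • u⟫_ℝ| := by
    intro y
    rw [← ENNReal.ofReal_mul (norm_nonneg _), real_inner_smul_right, abs_mul, ← mul_assoc,
      abs_inv, abs_norm, mul_inv_cancel₀ hu', one_mul]
  simp_rw [h2]
  rw [lintegral_const_mul _ (by fun_prop), lintegral_const_mul _ (by fun_prop), h1]

/-- Total mass. -/
theorem nu_univ_eq (hn : 1 ≤ n) (hK : Body K)
    (hb : ∀ u : E n, ‖u‖ = 1 →
      Measure.euclideanHausdorffMeasure (n - 1) ((ℝ ∙ u)ᗮ.starProjection '' K) =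
        volume (ball (0 : E (n - 1)) 1)) :
    ∫⁻ x in K, ENNReal.ofReal ‖grad K x‖ = volume (ball (0 : E n) 1) := by
  have h1 := congrArg (fun μ : Measure (E n) => μ univ) (nu_symm_eq hn hK hb)
  simp only [Measure.add_apply] at h1
  rw [Measure.map_apply measurable_neg MeasurableSet.univ,
    Measure.map_apply measurable_neg MeasurableSet.univ, preimage_univ, ← two_mul, ← two_mul] at h1
  have h2 := (ENNReal.mul_right_inj (by norm_num) (by norm_num)).1 h1
  rw [← nu_univ, h2]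
  have h3 := lintegral_nu_ball hn (φ := fun _ => 1) measurable_const
  simpa using h3

/-- The comparison `∫ φ dν_K ≤ 2 ∫ φ dν_B`. -/
theorem lintegral_nu_le (hn : 1 ≤ n) (hK : Body K)
    (hb : ∀ u : E n, ‖u‖ = 1 →
      Measure.euclideanHausdorffMeasure (n - 1) ((ℝ ∙ u)ᗮ.starProjection '' K) =
        volume (ball (0 : E (n - 1)) 1)) {φ : E n → ℝ≥0∞} (hφ : Measurable φ) :
    ∫⁻ y, φ y ∂(nu K) ≤ 2 * ∫⁻ x in ball (0 : E n) 1, φ (‖x‖⁻¹ • x) := by
  have h1 := congrArg (fun μ : Measure (E n) => ∫⁻ y, φ y ∂μ) (nu_symm_eq hn hK hb)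
  simp only [lintegral_add_measure] at h1
  rw [lintegral_map hφ measurable_neg, lintegral_map hφ measurable_neg,
    lintegral_nu_ball_neg hn hφ, ← two_mul, lintegral_nu_ball hn hφ] at h1
  rw [← h1]
  exact le_self_add

end Pool.Agent.Lib.MP_e62723_gt
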