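import Mathlib

open MeasureTheory Set Filter Topology
open scoped ENNReal

namespace Pool.Agent.Lib.MP_e62723_gt

private lemma oneD_ac {φ : ℝ → ℝ} (hφ : ConvexOn ℝ univ φ) (a b : ℝ) :
    AbsolutelyContinuousOnInterval φ a b := by
  have h := (hφ.locallyLipschitz).locallyLipschitzOn (s := uIcc a b)
  obtain ⟨K, hK⟩ := h.exists_lipschitzOnWith_of_compact isCompact_uIcc
  exact hK.absolutelyContinuousOnInterval

private lemma oneD_right {φ : ℝ → ℝ} (hφ : ConvexOn ℝ univ φ) {t0 : ℝ}
    (hmin : ∀ t, φ t0 ≤ φ t) {x : ℝ} (hx : t0 ≤ x) : 0 ≤ deriv φ x := by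
  by_cases hd : DifferentiableAt ℝ φ x
  · rcases hx.eq_or_lt with rfl | hx
    · have : IsLocalMin φ t0 := Eventually.of_forall hmin
      rw [this.deriv_eq_zero]
    · have h1 := hφ.slope_le_deriv (mem_univ t0) (mem_univ x) hx hd
      refine le_trans ?_ h1
      rw [slope_def_field]
      exact div_nonneg (by linarith [hmin x]) (by linarith)
  · rw [deriv_zero_of_not_differentiableAt hd]

private lemma oneD_left {φ : ℝ → ℝ} (hφ : ConvexOn ℝ univ φ) {t0 : ℝ}
    (hmin : ∀ t, φ t0 ≤ φ t) {x : ℝ} (hx : x ≤ t0) : deriv φ x ≤ 0 := by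
  by_cases hd : DifferentiableAt ℝ φ x
  · rcases hx.eq_or_lt with rfl | hx
    · have : IsLocalMin φ x := Eventually.of_forall hmin
      rw [this.deriv_eq_zero]
    · have h1 := hφ.deriv_le_slope (mem_univ x) (mem_univ t0) hx hd
      refine le_trans h1 ?_
      rw [slope_def_field]
      exact div_nonpos_of_nonpos_of_nonneg (by linarith [hmin x]) (by linarith)
  · rw [deriv_zero_of_not_differentiableAt hd]

private lemma oneD_int_right {φ : ℝ → ℝ} (hφ : ConvexOn ℝ univ φ) {t0 : ℝ}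
    (hmin : ∀ t, φ t0 ≤ φ t) {b : ℝ} (hb : t0 ≤ b) :
    ∫⁻ t in Ioc t0 b, ENNReal.ofReal |deriv φ t| = ENNReal.ofReal (φ b - φ t0) := by
  have hac := oneD_ac hφ t0 b
  have hi := hac.intervalIntegrable_deriv
  rw [intervalIntegrable_iff_integrableOn_Ioc_of_le hb] at hi
  have h2 := hac.integral_deriv_eq_sub
  rw [intervalIntegral.integral_of_le hb] at h2
  rw [← h2, ofReal_integral_eq_lintegral_ofReal hi]
  · refine setLIntegral_congr_fun measurableSet_Ioc (fun x hx => ?_)
    rw [abs_of_nonneg (oneD_right hφ hmin hx.1.le)]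
  · refine (ae_restrict_iff' measurableSet_Ioc).2 (Eventually.of_forall fun x hx => ?_)
    exact oneD_right hφ hmin hx.1.le

private lemma oneD_int_left {φ : ℝ → ℝ} (hφ : ConvexOn ℝ univ φ) {t0 : ℝ}
    (hmin : ∀ t, φ t0 ≤ φ t) {a : ℝ} (ha : a ≤ t0) :
    ∫⁻ t in Ioc a t0, ENNReal.ofReal |deriv φ t| = ENNReal.ofReal (φ a - φ t0) := by
  have hac := oneD_ac hφ a t0
  have hi := hac.intervalIntegrable_deriv
  rw [intervalIntegrable_iff_integrableOn_Ioc_of_le ha] at hi
  have h2 := hac.integral_deriv_eq_sub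
  rw [intervalIntegral.integral_of_le ha] at h2
  have h3 : φ a - φ t0 = ∫ t in Ioc a t0, - deriv φ t := by
    rw [integral_neg, h2]; ring
  have hin : Integrable (fun t => - deriv φ t) (volume.restrict (Ioc a t0)) := hi.neg
  rw [h3, ofReal_integral_eq_lintegral_ofReal hin]
  · refine setLIntegral_congr_fun measurableSet_Ioc (fun x hx => ?_)
    rw [abs_of_nonpos (oneD_left hφ hmin hx.2)]
  · refine (ae_restrict_iff' measurableSet_Ioc).2 (Eventually.of_forall fun x hx => ?_)
    have := oneD_left hφ hmin hx.2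
    simpa using this

/-- JOB OneD. For a coercive convex function `φ` on the line with minimum value `φ t0`:
`∫_{φ ≤ 1} |φ'| = 2 (1 - φ t0)` (and both sides are `0` if `φ t0 > 1`). -/
theorem oneD {φ : ℝ → ℝ} (hφ : ConvexOn ℝ univ φ) (hco : Tendsto φ (cocompact ℝ) atTop)
    {t0 : ℝ} (hmin : ∀ t, φ t0 ≤ φ t) :
    ∫⁻ t in {t | φ t ≤ 1}, ENNReal.ofReal |deriv φ t| = ENNReal.ofReal (2 * (1 - φ t0)) := by
  by_cases h1 : 1 < φ t0
  · have he : {t | φ t ≤ 1} = ∅ := by
      ext t
      simp only [mem_ofPred_eq, mem_empty_iff_false, iff_false, not_le]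
      exact lt_of_lt_of_le h1 (hmin t)
    rw [he, ENNReal.ofReal_of_nonpos (by linarith)]
    simp
  push Not at h1
  have hcont : Continuous φ := hφ.locallyLipschitz.continuous
  set S : Set ℝ := {t | φ t ≤ 1} with hS
  have hSc : IsClosed S := isClosed_le hcont continuous_const
  have hScomp : IsCompact S := by
    obtain ⟨K, hK, hKS⟩ := mem_cocompact.1 (hco (Ioi_mem_atTop (1:ℝ)))
    refine hK.of_isClosed_subset hSc fun t ht => ?_
    by_contra hn
    have := hKS hn
    simp only [mem_preimage, mem_Ioi] at this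
    exact absurd (show φ t ≤ 1 from ht) (not_le.2 this)
  have ht0 : t0 ∈ S := h1
  have hSne : S.Nonempty := ⟨t0, ht0⟩
  have hβS : sSup S ∈ S := hScomp.sSup_mem hSne
  have hαS : sInf S ∈ S := hScomp.sInf_mem hSne
  have hα0 : sInf S ≤ t0 := csInf_le hScomp.bddBelow ht0
  have hβ0 : t0 ≤ sSup S := le_csSup hScomp.bddAbove ht0
  have hSconv : Convex ℝ S := by
    have := hφ.convex_le 1
    simpa [hS] using this
  have hSeq : S = Icc (sInf S) (sSup S) := by
    apply Subset.antisymm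
    · intro t ht
      exact ⟨csInf_le hScomp.bddBelow ht, le_csSup hScomp.bddAbove ht⟩
    · exact hSconv.ordConnected.out hαS hβS
  have hβ1 : φ (sSup S) = 1 := by
    refine le_antisymm hβS ?_
    by_contra hlt
    push Not at hlt
    have : ∀ᶠ t in 𝓝 (sSup S), φ t < 1 := hcont.continuousAt.eventually_lt_const hlt
    have h2 : ∀ᶠ t in 𝓝[>] (sSup S), φ t < 1 := this.filter_mono nhdsWithin_le_nhds
    obtain ⟨t, ht1, ht2⟩ := (h2.and self_mem_nhdsWithin).exists
    exact absurd (le_csSup hScomp.bddAbove (show t ∈ S from ht1.le)) (not_le.2 ht2)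
  have hα1 : φ (sInf S) = 1 := by
    refine le_antisymm hαS ?_
    by_contra hlt
    push Not at hlt
    have : ∀ᶠ t in 𝓝 (sInf S), φ t < 1 := hcont.continuousAt.eventually_lt_const hlt
    have h2 : ∀ᶠ t in 𝓝[<] (sInf S), φ t < 1 := this.filter_mono nhdsWithin_le_nhds
    obtain ⟨t, ht1, ht2⟩ := (h2.and self_mem_nhdsWithin).exists
    exact absurd (csInf_le hScomp.bddBelow (show t ∈ S from ht1.le)) (not_le.2 ht2)
  have hres : (volume : Measure ℝ).restrict S = volume.restrict (Ioc (sInf S) (sSup S)) := by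
    conv_lhs => rw [hSeq]
    exact (Measure.restrict_congr_set Ioc_ae_eq_Icc).symm
  rw [hres, ← Ioc_union_Ioc_eq_Ioc hα0 hβ0,
    lintegral_union measurableSet_Ioc (Ioc_disjoint_Ioc_of_le le_rfl),
    oneD_int_left hφ hmin hα0, oneD_int_right hφ hmin hβ0, hα1, hβ1,
    ← ENNReal.ofReal_add (by linarith) (by linarith)]
  congr 1
  ring

end Pool.Agent.Lib.MP_e62723_gt
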