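import Pool.Agent.Lib.MP_e62723_gt.Defs

open MeasureTheory Set
open scoped ENNReal InnerProductSpace

namespace Pool.Agent.Lib.MP_e62723_gt

variable {n : ℕ}

/-- JOB Slice (a). Integration over lines parallel to a unit vector `u`.
Proof: `Submodule.measurePreserving_measurableEquivProd ((ℝ ∙ u)) 0` (with
`InnerProductSpace.euclideanHausdorffMeasure_eq_volume`) identifies the volume of `E n` with the
product measure on `(ℝ ∙ u) × (ℝ ∙ u)ᗮ`; identify `ℝ ∙ u` with `ℝ` by the linear isometry
`t ↦ t • u` (`LinearIsometryEquiv.measurePreserving`); Tonelli (`lintegral_prod_symm`). -/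
theorem lintegral_slice {u : E n} (hu : ‖u‖ = 1) {F : E n → ℝ≥0∞} (hF : Measurable F) :
    ∫⁻ x, F x = ∫⁻ y : ↥((ℝ ∙ u)ᗮ), ∫⁻ t : ℝ, F ((y : E n) + t • u) := by
  have h1 : MeasurePreserving ((ℝ ∙ u).measurableEquivProd (0 : E n)) volume volume := by
    have := (ℝ ∙ u).measurePreserving_measurableEquivProd (0 : E n)
    rwa [InnerProductSpace.euclideanHausdorffMeasure_eq_volume] at this
  have h2 : MeasurePreserving (LinearIsometryEquiv.toSpanUnitSingleton (𝕜 := ℝ) u hu)
      volume volume := LinearIsometryEquiv.measurePreserving _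
  have h1s := MeasurePreserving.symm _ h1
  have hG : Measurable (fun p : ↥(ℝ ∙ u) × ↥((ℝ ∙ u)ᗮ) =>
      F (((ℝ ∙ u).measurableEquivProd (0 : E n)).symm p)) :=
    hF.comp ((ℝ ∙ u).measurableEquivProd (0 : E n)).symm.measurable
  rw [← h1s.lintegral_comp hF, Measure.volume_eq_prod, lintegral_prod_symm _ hG.aemeasurable]
  refine lintegral_congr fun y => ?_
  have hGy : Measurable (fun p : ↥(ℝ ∙ u) =>
      F (((ℝ ∙ u).measurableEquivProd (0 : E n)).symm (p, y))) :=
    hG.comp (measurable_id.prodMk measurable_const)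
  rw [← h2.lintegral_comp hGy]
  refine lintegral_congr fun t => ?_
  congr 1
  rw [Submodule.measurableEquivProd_symm_apply]
  simp [add_comm]

/-- JOB Slice (b). The `(n-1)`-dimensional measure of the projection of `A` onto `u^⊥`.
Proof: the image of `{y | ∃ t, y + t u ∈ A}` under `Subtype.val` is the projection of `A`
(`starProjection (y + t u) = y` for `y ∈ u^⊥`); `Isometry.euclideanHausdorffMeasure_image` for
`isometry_subtype_coe` and `InnerProductSpace.euclideanHausdorffMeasure_eq_volume` with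
`finrank ((ℝ ∙ u)ᗮ) = n - 1`. -/
theorem proj_measure {u : E n} (hu : ‖u‖ = 1) (A : Set (E n)) :
    Measure.euclideanHausdorffMeasure (n - 1) ((ℝ ∙ u)ᗮ.starProjection '' A) =
      volume {y : ↥((ℝ ∙ u)ᗮ) | ∃ t : ℝ, (y : E n) + t • u ∈ A} := by
  have hu0 : u ≠ 0 := by
    intro h
    rw [h, norm_zero] at hu
    exact zero_ne_one hu
  have hr : Module.finrank ℝ ↥((ℝ ∙ u)ᗮ) = n - 1 := by
    have h := (ℝ ∙ u).finrank_add_finrank_orthogonal
    rw [finrank_span_singleton hu0, finrank_euclideanSpace_fin] at h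
    omega
  have himg : (ℝ ∙ u)ᗮ.starProjection '' A =
      Subtype.val '' {y : ↥((ℝ ∙ u)ᗮ) | ∃ t : ℝ, (y : E n) + t • u ∈ A} := by
    ext x
    constructor
    · rintro ⟨a, ha, rfl⟩
      refine ⟨⟨(ℝ ∙ u)ᗮ.starProjection a, Submodule.starProjection_apply_mem _ _⟩, ?_, rfl⟩
      have hmem : a - (ℝ ∙ u)ᗮ.starProjection a ∈ ((ℝ ∙ u)ᗮ)ᗮ :=
        Submodule.sub_starProjection_mem_orthogonal a
      rw [Submodule.orthogonal_orthogonal] at hmem
      obtain ⟨t, ht⟩ := Submodule.mem_span_singleton.mp hmem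
      refine ⟨t, ?_⟩
      change (ℝ ∙ u)ᗮ.starProjection a + t • u ∈ A
      rw [ht]
      simpa using ha
    · rintro ⟨y, ⟨t, ht⟩, rfl⟩
      refine ⟨(y : E n) + t • u, ht, ?_⟩
      rw [map_add, Submodule.starProjection_eq_self_iff.mpr y.2]
      have : (ℝ ∙ u)ᗮ.starProjection (t • u) = 0 := by
        rw [Submodule.starProjection_apply_eq_zero_iff, Submodule.orthogonal_orthogonal]
        exact Submodule.smul_mem _ _ (Submodule.mem_span_singleton_self u)
      rw [this, add_zero]
  rw [himg, isometry_subtype_coe.euclideanHausdorffMeasure_image, ← hr,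
    InnerProductSpace.euclideanHausdorffMeasure_eq_volume]

end Pool.Agent.Lib.MP_e62723_gt
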