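import Pool.Agent.Lib.MP_e62723_gt.Gauge
import Pool.Agent.Lib.MP_e62723_gt.OneD
import Pool.Agent.Lib.MP_e62723_gt.Slice

open MeasureTheory Set Filter
open scoped ENNReal InnerProductSpace Pointwise

namespace Pool.Agent.Lib.MP_e62723_gt

variable {n : ℕ} {K : Set (E n)}

/-- the gauge of the projection of `K` along `u` -/
noncomputable def mm (K : Set (E n)) (u y : E n) : ℝ := ⨅ t : ℝ, gauge K (y + t • u)

/-- JOB ProjA. The infimum in `mm` is attained, and the function on a line is coercive and convex.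
Proof: `gauge K (y + t u) ≥ |t| min(gauge K u, gauge K (-u)) - gauge K (-y)`
(`gauge_add_le` for `t u = (y + t u) + (-y)`); continuity (`Body.continuous_gauge`);
`Continuous.exists_forall_le`. -/
theorem exists_mm (hK : Body K) {u : E n} (hu : u ≠ 0) (y : E n) :
    Tendsto (fun t : ℝ => gauge K (y + t • u)) (cocompact ℝ) atTop ∧
      ∃ t0 : ℝ, gauge K (y + t0 • u) = mm K u y ∧ ∀ t : ℝ, mm K u y ≤ gauge K (y + t • u) := by
  have ha : 0 < gauge K u := hK.gauge_pos hu
  have hb : 0 < gauge K (-u) := hK.gauge_pos (neg_ne_zero.mpr hu)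
  set c : ℝ := min (gauge K u) (gauge K (-u)) with hc
  have hc0 : 0 < c := lt_min ha hb
  have hlow : ∀ t : ℝ, c * ‖t‖ - gauge K (-y) ≤ gauge K (y + t • u) := by
    intro t
    have h1 : c * ‖t‖ ≤ gauge K (t • u) := by
      rcases le_total 0 t with ht | ht
      · rw [Body.gauge_smul ht, Real.norm_of_nonneg ht, mul_comm]
        exact mul_le_mul_of_nonneg_left (min_le_left _ _) ht
      · have h2 : t • u = (-t) • (-u) := by simp
        rw [h2, Body.gauge_smul (neg_nonneg.mpr ht), Real.norm_of_nonpos ht, mul_comm]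
        exact mul_le_mul_of_nonneg_left (min_le_right _ _) (neg_nonneg.mpr ht)
    have h3 : t • u = (y + t • u) + (-y) := by abel
    have h4 := hK.gauge_add_le (y + t • u) (-y)
    rw [← h3] at h4
    linarith
  have htend : Tendsto (fun t : ℝ => gauge K (y + t • u)) (cocompact ℝ) atTop := by
    refine tendsto_atTop_mono hlow ?_
    exact tendsto_atTop_add_const_right _ _ (tendsto_norm_cocompact_atTop.const_mul_atTop hc0)
  have hcont : Continuous (fun t : ℝ => gauge K (y + t • u)) :=
    hK.continuous_gauge.comp (by fun_prop)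
  obtain ⟨t0, ht0⟩ := hcont.exists_forall_le htend
  have hbdd : BddBelow (range fun t : ℝ => gauge K (y + t • u)) :=
    ⟨gauge K (y + t0 • u), by rintro _ ⟨t, rfl⟩; exact ht0 t⟩
  have hmm : mm K u y = gauge K (y + t0 • u) :=
    le_antisymm (ciInf_le hbdd t0) (le_ciInf ht0)
  exact ⟨htend, t0, hmm.symm, fun t => hmm ▸ ht0 t⟩

/-- homogeneity of `mm` -/
theorem projA_mm_smul (hK : Body K) {u : E n} (hu : u ≠ 0) (y : E n) {r : ℝ} (hr : 0 < r) :
    mm K u (r • y) = r * mm K u y := by
  obtain ⟨-, t0, h0, h0'⟩ := exists_mm hK hu (r • y)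
  obtain ⟨-, t1, h1, h1'⟩ := exists_mm hK hu y
  apply le_antisymm
  · have := h0' (r * t1)
    have e : r • y + (r * t1) • u = r • (y + t1 • u) := by rw [smul_add, mul_smul]
    rw [e, Body.gauge_smul hr.le, h1] at this
    exact this
  · have e : r • y + t0 • u = r • (y + (t0 / r) • u) := by
      rw [smul_add, ← mul_smul, mul_div_cancel₀ _ hr.ne']
    rw [← h0, e, Body.gauge_smul hr.le]
    exact mul_le_mul_of_nonneg_left (h1' _) hr.le

/-- continuity of `mm` -/
theorem projA_continuous_mm (hK : Body K) {u : E n} (hu : u ≠ 0) :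
    Continuous (fun y : E n => mm K u y) := by
  obtain ⟨C, hC⟩ := hK.exists_lipschitz
  have : LipschitzWith C (fun y : E n => mm K u y) := by
    refine LipschitzWith.of_le_add_mul C fun x y => ?_
    obtain ⟨-, t1, h1, -⟩ := exists_mm hK hu y
    obtain ⟨-, -, -, h0'⟩ := exists_mm hK hu x
    refine (h0' t1).trans ?_
    rw [← h1]
    have h2 := hC.dist_le_mul (x + t1 • u) (y + t1 • u)
    rw [dist_add_right, Real.dist_eq] at h2
    linarith [le_abs_self (gauge K (x + t1 • u) - gauge K (y + t1 • u))]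
  exact this.continuous

theorem projA_mm_le_one_iff (hK : Body K) {u : E n} (hu : u ≠ 0) (y : E n) :
    mm K u y ≤ 1 ↔ ∃ t : ℝ, y + t • u ∈ K := by
  obtain ⟨-, t0, h0, h0'⟩ := exists_mm hK hu y
  constructor
  · intro h
    exact ⟨t0, hK.mem_iff.2 (h0 ▸ h)⟩
  · rintro ⟨t, ht⟩
    exact (h0' t).trans (hK.mem_iff.1 ht)

theorem projA_mm_nonneg (hK : Body K) {u : E n} (hu : u ≠ 0) (y : E n) : 0 ≤ mm K u y := by
  obtain ⟨-, t0, h0, -⟩ := exists_mm hK hu y
  rw [← h0]
  exact gauge_nonneg _

theorem projA_integral (m : ℕ) :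
    ∫⁻ t in Ioo (0 : ℝ) 1, ENNReal.ofReal ((1 - t) ^ m) = ENNReal.ofReal (1 / ((m : ℝ) + 1)) := by
  have hint : IntegrableOn (fun t : ℝ => (1 - t) ^ m) (Ioo 0 1) :=
    (Continuous.integrableOn_Icc (by fun_prop)).mono_set Ioo_subset_Icc_self
  rw [← ofReal_integral_eq_lintegral_ofReal hint]
  · congr 1
    rw [← integral_Ioc_eq_integral_Ioo, ← intervalIntegral.integral_of_le zero_le_one]
    have := intervalIntegral.integral_comp_sub_left (fun x : ℝ => x ^ m) (a := 0) (b := 1) 1
    rw [this]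
    simp [integral_pow]
  · refine (ae_restrict_iff' measurableSet_Ioo).2 (Filter.Eventually.of_forall fun t ht => ?_)
    have : 0 ≤ 1 - t := by linarith [ht.2]
    positivity

/-- JOB ProjA. Layer cake: `∫_W (1 - m)_+ = vol(K') / n` where `K' = {m ≤ 1}` is the projection.
Proof. `{y | mm ≤ r} = r • {y | mm ≤ 1}` for `r > 0` (attained infimum and homogeneity), so it has
volume `r^(n-1) vol(K')` (`Measure.addHaar_smul`, `finrank = n - 1`);
`∫⁻ ofReal (2 (1 - m)) = 2 ∫⁻_{r ∈ (0,1)} vol {m ≤ r} dr` by Tonelli or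
`lintegral_eq_lintegral_meas_le`, and `∫_0^1 r^(n-1) dr = 1/n`. (`mm` is lower semicontinuous or
continuous - it is Lipschitz like the gauge - hence measurable.) -/
theorem lintegral_mm (hK : Body K) {u : E n} (hu : ‖u‖ = 1) :
    (n : ℝ≥0∞) * ∫⁻ y : ↥((ℝ ∙ u)ᗮ), ENNReal.ofReal (2 * (1 - mm K u y)) =
      2 * volume {y : ↥((ℝ ∙ u)ᗮ) | ∃ t : ℝ, (y : E n) + t • u ∈ K} := by
  have hu0 : u ≠ 0 := by
    intro h
    rw [h, norm_zero] at hu
    exact zero_ne_one hu
  have hrank : Module.finrank ℝ ↥(ℝ ∙ u) + Module.finrank ℝ ↥((ℝ ∙ u)ᗮ) = n := by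
    rw [(ℝ ∙ u).finrank_add_finrank_orthogonal, finrank_euclideanSpace_fin]
  rw [finrank_span_singleton hu0] at hrank
  set m : ℕ := Module.finrank ℝ ↥((ℝ ∙ u)ᗮ) with hm
  set V0 : ℝ≥0∞ := volume {y : ↥((ℝ ∙ u)ᗮ) | ∃ t : ℝ, (y : E n) + t • u ∈ K} with hV0
  have hV0' : V0 = volume {y : ↥((ℝ ∙ u)ᗮ) | mm K u y ≤ 1} := by
    rw [hV0]
    congr 1
    ext y
    exact (projA_mm_le_one_iff hK hu0 (y : E n)).symm
  have hcont : Continuous (fun y : ↥((ℝ ∙ u)ᗮ) => mm K u (y : E n)) :=
    (projA_continuous_mm hK hu0).comp continuous_subtype_val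
  have hvol : ∀ r : ℝ, 0 < r → volume {y : ↥((ℝ ∙ u)ᗮ) | mm K u y ≤ r} =
      ENNReal.ofReal (r ^ m) * V0 := by
    intro r hr
    have hset : {y : ↥((ℝ ∙ u)ᗮ) | mm K u y ≤ r} =
        r • {y : ↥((ℝ ∙ u)ᗮ) | mm K u y ≤ 1} := by
      ext y
      rw [Set.mem_smul_set_iff_inv_smul_mem₀ hr.ne']
      simp only [mem_ofPred_eq, Submodule.coe_smul]
      rw [projA_mm_smul hK hu0 _ (inv_pos.mpr hr), inv_mul_le_iff₀ hr, mul_one]
    rw [hset, Measure.addHaar_smul, hV0', abs_of_pos (by positivity)]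
  have hg : ∫⁻ y : ↥((ℝ ∙ u)ᗮ), ENNReal.ofReal (2 * (1 - mm K u y)) =
      2 * ∫⁻ y : ↥((ℝ ∙ u)ᗮ), ENNReal.ofReal (max (1 - mm K u y) 0) := by
    have hmeas : Measurable (fun y : ↥((ℝ ∙ u)ᗮ) =>
        ENNReal.ofReal (max (1 - mm K u (y : E n)) 0)) :=
      ENNReal.measurable_ofReal.comp
        ((continuous_const.sub hcont).max continuous_const).measurable
    rw [← lintegral_const_mul _ hmeas]
    refine lintegral_congr fun y => ?_
    rw [ENNReal.ofReal_mul (by norm_num)]
    congr 1
    · simp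
    · rcases le_total 0 (1 - mm K u (y : E n)) with h | h
      · rw [max_eq_left h]
      · rw [max_eq_right h, ENNReal.ofReal_of_nonpos h, ENNReal.ofReal_zero]
  have hlayer : ∫⁻ y : ↥((ℝ ∙ u)ᗮ), ENNReal.ofReal (max (1 - mm K u y) 0) =
      ∫⁻ t in Ioi (0 : ℝ), volume {y : ↥((ℝ ∙ u)ᗮ) | t ≤ max (1 - mm K u y) 0} := by
    refine lintegral_eq_lintegral_meas_le _ (Filter.Eventually.of_forall fun y => ?_) ?_
    · exact le_max_right _ _
    · exact ((continuous_const.sub hcont).max continuous_const).measurable.aemeasurable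
  have hae : ∫⁻ t in Ioi (0 : ℝ), volume {y : ↥((ℝ ∙ u)ᗮ) | t ≤ max (1 - mm K u y) 0} =
      ∫⁻ t in Ioi (0 : ℝ), (Iio (1 : ℝ)).indicator
        (fun t => ENNReal.ofReal ((1 - t) ^ m) * V0) t := by
    refine setLIntegral_congr_fun_ae measurableSet_Ioi ?_
    have h1 : ∀ᵐ t : ℝ, t ≠ 1 := by
      rw [ae_iff]
      simp
    filter_upwards [h1] with t ht1 ht0
    have ht0' : (0 : ℝ) < t := ht0
    by_cases h : t < 1
    · rw [indicator_of_mem (show t ∈ Iio (1 : ℝ) from h), ← hvol (1 - t) (by linarith)]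
      congr 1
      ext y
      simp only [mem_ofPred_eq]
      constructor
      · intro h2
        rcases le_max_iff.1 h2 with h3 | h3
        · linarith
        · linarith
      · intro h2
        exact le_max_of_le_left (by linarith)
    · rw [indicator_of_notMem (show t ∉ Iio (1 : ℝ) from h)]
      have : {y : ↥((ℝ ∙ u)ᗮ) | t ≤ max (1 - mm K u y) 0} = ∅ := by
        ext y
        simp only [mem_ofPred_eq, mem_empty_iff_false, iff_false, not_le]
        have h3 := projA_mm_nonneg hK hu0 (y : E n)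
        have h4 : 1 < t := lt_of_le_of_ne (not_lt.1 h) (Ne.symm ht1)
        exact max_lt (by linarith) ht0'
      rw [this, measure_empty]
  have hfin : ∫⁻ t in Ioi (0 : ℝ), (Iio (1 : ℝ)).indicator
        (fun t => ENNReal.ofReal ((1 - t) ^ m) * V0) t =
      ENNReal.ofReal (1 / ((m : ℝ) + 1)) * V0 := by
    rw [lintegral_indicator measurableSet_Iio, Measure.restrict_restrict measurableSet_Iio,
      show Iio (1 : ℝ) ∩ Ioi 0 = Ioo 0 1 by ext; simp [and_comm],
      lintegral_mul_const _ (by fun_prop), projA_integral]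
  rw [hg, hlayer, hae, hfin, ← mul_assoc, ← mul_assoc, mul_comm (n : ℝ≥0∞) 2, mul_assoc 2]
  congr 1
  rw [← hrank]
  have : ((1 + m : ℕ) : ℝ≥0∞) * ENNReal.ofReal (1 / ((m : ℝ) + 1)) = 1 := by
    rw [← ENNReal.ofReal_natCast, ← ENNReal.ofReal_mul (by positivity)]
    rw [← ENNReal.ofReal_one]
    congr 1
    push_cast
    field_simp
    ring
  rw [this, mul_one]

/-- JOB ProjB. The projection formula `v_K(u) = (n/2) ∫_K |⟨∇g, u⟩|`.
Proof. `lintegral_slice` for `F x = indicator K (ofReal |⟨grad K x, u⟩|)`. By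
`Body.ae_differentiableAt` and `lintegral_slice` (applied to the indicator of the non-differentiability
set) for almost every `y` the gauge is differentiable at `y + t u` for almost all `t`, and there
`deriv (fun t => gauge K (y + t u)) t = ⟨grad K (y + t u), u⟩` (`Body.inner_grad_eq`). So the inner
integral is `ofReal (2 (1 - mm K u y))` by `oneD` (with `Body.mem_iff`) and `exists_mm`; conclude with
`lintegral_mm` and `proj_measure`. -/
theorem proj_formula (hK : Body K) {u : E n} (hu : ‖u‖ = 1) :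
    (n : ℝ≥0∞) * ∫⁻ x in K, ENNReal.ofReal |⟪grad K x, u⟫_ℝ| =
      2 * Measure.euclideanHausdorffMeasure (n - 1) ((ℝ ∙ u)ᗮ.starProjection '' K) := by
  have hu0 : u ≠ 0 := by
    rintro rfl
    rw [norm_zero] at hu
    exact one_ne_zero hu.symm
  have hKm : MeasurableSet K := hK.compact.measurableSet
  have hm : Measurable (fun x : E n => ENNReal.ofReal |⟪grad K x, u⟫_ℝ|) := by
    have h1 : Measurable (fun x : E n => ⟪grad K x, u⟫_ℝ) :=
      Body.measurable_grad.inner measurable_const
    exact ENNReal.measurable_ofReal.comp h1.norm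
  rw [← lintegral_indicator hKm, lintegral_slice hu (hm.indicator hKm)]
  -- the gauge is differentiable at almost every point of almost every line
  have hD : MeasurableSet {x : E n | DifferentiableAt ℝ (gauge K) x} :=
    measurableSet_of_differentiableAt ℝ (gauge K)
  have h0 : ∫⁻ x, {x : E n | DifferentiableAt ℝ (gauge K) x}ᶜ.indicator
      (fun _ => (1 : ℝ≥0∞)) x = 0 := by
    rw [lintegral_indicator_const hD.compl, one_mul]
    exact ae_iff.1 hK.ae_differentiableAt
  have hmi : Measurable ({x : E n | DifferentiableAt ℝ (gauge K) x}ᶜ.indicator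
      (fun _ => (1 : ℝ≥0∞))) := measurable_const.indicator hD.compl
  rw [lintegral_slice hu hmi] at h0
  have hcont : Measurable (fun p : ↥((ℝ ∙ u)ᗮ) × ℝ => ((p.1 : E n) + p.2 • u)) := by
    fun_prop
  have hmp : Measurable (fun y : ↥((ℝ ∙ u)ᗮ) =>
      ∫⁻ t : ℝ, {x : E n | DifferentiableAt ℝ (gauge K) x}ᶜ.indicator
        (fun _ => (1 : ℝ≥0∞)) ((y : E n) + t • u)) :=
    Measurable.lintegral_prod_right' (f := fun p : ↥((ℝ ∙ u)ᗮ) × ℝ =>
      {x : E n | DifferentiableAt ℝ (gauge K) x}ᶜ.indicator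
        (fun _ => (1 : ℝ≥0∞)) ((p.1 : E n) + p.2 • u)) (hmi.comp hcont)
  rw [lintegral_eq_zero_iff hmp] at h0
  have hae : ∀ᵐ y : ↥((ℝ ∙ u)ᗮ),
      ∫⁻ t : ℝ, K.indicator (fun x : E n => ENNReal.ofReal |⟪grad K x, u⟫_ℝ|)
        ((y : E n) + t • u) = ENNReal.ofReal (2 * (1 - mm K u y)) := by
    filter_upwards [h0] with y hy
    have hmt : Measurable (fun t : ℝ => {x : E n | DifferentiableAt ℝ (gauge K) x}ᶜ.indicator
        (fun _ => (1 : ℝ≥0∞)) ((y : E n) + t • u)) := by
      have h2 : Measurable (fun t : ℝ => ((y : E n) + t • u)) := by fun_prop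
      exact hmi.comp h2
    have hy' := (lintegral_eq_zero_iff hmt).1 hy
    obtain ⟨hco, t0, ht0, hmin⟩ := exists_mm hK hu0 (y : E n)
    have hconv : ConvexOn ℝ univ (fun t : ℝ => gauge K ((y : E n) + t • u)) := by
      refine ⟨convex_univ, fun a _ b _ s r hs hr hsr => ?_⟩
      have h3 := hK.convexOn_gauge.2 (mem_univ ((y : E n) + a • u)) (mem_univ ((y : E n) + b • u))
        hs hr hsr
      have h4 : (y : E n) + (s • a + r • b) • u =
          s • ((y : E n) + a • u) + r • ((y : E n) + b • u) := by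
        have h5 : (y : E n) = (s + r) • (y : E n) := by rw [hsr, one_smul]
        conv_lhs => rw [h5]
        rw [add_smul, add_smul, smul_add, smul_add, smul_smul, smul_smul, smul_eq_mul, smul_eq_mul]
        abel
      simp only
      rw [h4]
      exact h3
    have hkey := oneD hconv hco (t0 := t0) (fun t => by rw [ht0]; exact hmin t)
    simp only [ht0] at hkey
    rw [← hkey, ← lintegral_indicator]
    · apply lintegral_congr_ae
      filter_upwards [hy'] with t ht
      have hdt : DifferentiableAt ℝ (gauge K) ((y : E n) + t • u) := by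
        by_contra hnd
        simp only [Pi.zero_apply] at ht
        rw [indicator_of_mem (by exact hnd)] at ht
        exact one_ne_zero ht
      have hder : deriv (fun t : ℝ => gauge K ((y : E n) + t • u)) t =
          ⟪grad K ((y : E n) + t • u), u⟫_ℝ := by
        rw [Body.inner_grad_eq]
        have h3 : HasDerivAt (fun t : ℝ => (y : E n) + t • u) u t := by
          have := ((hasDerivAt_id t).smul_const u).const_add (y : E n)
          simpa using this
        exact (hdt.hasFDerivAt.comp_hasDerivAt t h3).deriv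
      by_cases hmem : (y : E n) + t • u ∈ K
      · rw [indicator_of_mem hmem, indicator_of_mem (by exact hK.mem_iff.1 hmem), hder]
      · rw [indicator_of_notMem hmem, indicator_of_notMem]
        intro h5
        exact hmem (hK.mem_iff.2 h5)
    · have h2 : Continuous (fun t : ℝ => gauge K ((y : E n) + t • u)) :=
        hK.continuous_gauge.comp (by fun_prop)
      exact (isClosed_le h2 continuous_const).measurableSet
  rw [lintegral_congr_ae hae, lintegral_mm hK hu, proj_measure hu K]

end Pool.Agent.Lib.MP_e62723_gt
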