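import Mathlib

/-!
# Constant width bodies of revolution: definitions
-/

namespace Pool.Agent.Lib.MP_e62723_gt.Rev

open MeasureTheory

/-- The Euclidean space `ℝ^(m+1)`. -/
abbrev E (m : ℕ) : Type := EuclideanSpace ℝ (Fin (m + 1))

/-- A convex body: compact, convex, with nonempty interior. -/
def IsConvexBody {m : ℕ} (K : Set (E m)) : Prop :=
  IsCompact K ∧ Convex ℝ K ∧ (interior K).Nonempty

/-- The support function `h_K(u) = max_{x ∈ K} ⟨x, u⟩`. -/
noncomputable def suppFun {m : ℕ} (K : Set (E m)) (u : E m) : ℝ :=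
  sSup ((fun x : E m => inner ℝ x u) '' K)

/-- `K` has constant width `w`. -/
def HasConstantWidth {m : ℕ} (K : Set (E m)) (w : ℝ) : Prop :=
  ∀ u : E m, ‖u‖ = 1 → suppFun K u + suppFun K (-u) = w

/-- `K` is invariant under all rotations about the line `p + ℝ v`, where `v` is a unit vector:
whether a point `x` belongs to `K` depends only on the position `⟨x - p, v⟩` of its projection to
the line and on its distance to `p` (equivalently, to the line). -/
def IsRevolutionAbout {m : ℕ} (K : Set (E m)) (p v : E m) : Prop :=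
  ‖v‖ = 1 ∧ ∀ x y : E m, inner ℝ (x - p) v = inner ℝ (y - p) v → ‖x - p‖ = ‖y - p‖ →
    x ∈ K → y ∈ K

/-- The planar Reuleaux triangle of width `2` with vertices `(-√3, 0)`, `(0, 1)`, `(0, -1)`: the
intersection of the discs of radius `2` centred at the vertices. -/
def reuleaux : Set (ℝ × ℝ) :=
  {p | (p.1 + √3) ^ 2 + p.2 ^ 2 ≤ 4 ∧ p.1 ^ 2 + (p.2 - 1) ^ 2 ≤ 4 ∧
    p.1 ^ 2 + (p.2 + 1) ^ 2 ≤ 4}

/-- The distance of `x` to the zeroth coordinate axis. -/
noncomputable def rho {m : ℕ} (x : E m) : ℝ := √(∑ i : Fin m, x i.succ ^ 2)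

/-- The rotated Reuleaux triangle in `ℝ^(m+1)`: the Reuleaux triangle rotated about its axis of
symmetry, the zeroth coordinate axis. -/
def rotReuleaux (m : ℕ) : Set (E m) := {x | (x 0, rho x) ∈ reuleaux}

/-- The length of the chord of the rotated Reuleaux triangle parallel to the axis, at distance `t`
from the axis. -/
noncomputable def chordLen (t : ℝ) : ℝ := √(4 - t ^ 2) - √3 + √(4 - (1 + t) ^ 2)

/-- The unit vector spanning the zeroth coordinate axis. -/
noncomputable def ezero (m : ℕ) : E m := EuclideanSpace.single 0 (1 : ℝ)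

/-- `K` is a convex body of constant width `2` and a body of revolution with axis `p + ℝ v`. -/
def IsWidthTwoRev {m : ℕ} (K : Set (E m)) (p v : E m) : Prop :=
  IsConvexBody K ∧ HasConstantWidth K 2 ∧ IsRevolutionAbout K p v

/-- The length of the chord of `K` on the line `p + w + ℝ v`, for a unit vector `v`. -/
noncomputable def chord {m : ℕ} (K : Set (E m)) (p v w : E m) : ℝ :=
  volume.real {s : ℝ | p + w + s • v ∈ K}

/-- `K` is the image of `L` under a rigid motion (a linear isometry followed by a translation). -/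
def Congruent {m : ℕ} (K L : Set (E m)) : Prop :=
  ∃ (φ : E m ≃ₗᵢ[ℝ] E m) (c : E m), K = (fun x => φ x + c) '' L

/-- The volume of the unit ball of `ℝ^m`. -/
noncomputable def ballVol (m : ℕ) : ℝ :=
  volume.real (Metric.ball (0 : EuclideanSpace ℝ (Fin m)) 1)

end Pool.Agent.Lib.MP_e62723_gt.Rev
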