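import Mathlib

/-!
# Constant width bodies of revolution: the profile function

`gg x = √(4 - x^2)`, its monotonicity and strict concavity on `[0,2]`, and the resulting
four-point inequalities.
-/

namespace Pool.Agent.Lib.MP_e62723_gt.Rev

open Real Set

/-- The half-chord function of the disc of radius `2`. -/
noncomputable def gg (x : ℝ) : ℝ := √(4 - x ^ 2)

theorem gg_nonneg (x : ℝ) : 0 ≤ gg x := Real.sqrt_nonneg _

theorem gg_sq {x : ℝ} (h0 : 0 ≤ x) (h2 : x ≤ 2) : gg x ^ 2 = 4 - x ^ 2 := by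
  unfold gg
  rw [Real.sq_sqrt]
  nlinarith

theorem gg_continuous : Continuous gg := by
  unfold gg
  fun_prop

theorem gg_two : gg 2 = 0 := by
  unfold gg
  norm_num

theorem gg_one : gg 1 = √3 := by
  unfold gg
  norm_num

theorem gg_anti {x y : ℝ} (h0 : 0 ≤ x) (h : x ≤ y) : gg y ≤ gg x := by
  unfold gg
  apply Real.sqrt_le_sqrt
  nlinarith

theorem gg_anti_strict {x y : ℝ} (h0 : 0 ≤ x) (h : x < y) (h2 : y ≤ 2) : gg y < gg x := by
  unfold gg
  apply Real.sqrt_lt_sqrt
  · nlinarith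
  · nlinarith

/-- `(x)^2 + r^2 ≤ 4` in terms of `gg`. -/
theorem abs_le_gg {x r : ℝ} (h : x ^ 2 + r ^ 2 ≤ 4) : |x| ≤ gg r := by
  unfold gg
  apply Real.abs_le_sqrt
  linarith

theorem sq_add_sq_le {x r : ℝ} (h0 : 0 ≤ r) (h2 : r ≤ 2) (h : |x| ≤ gg r) :
    x ^ 2 + r ^ 2 ≤ 4 := by
  have h1 := gg_sq h0 h2
  have h3 : |x| ^ 2 ≤ gg r ^ 2 := pow_le_pow_left₀ (abs_nonneg x) h 2
  rw [sq_abs] at h3
  linarith

theorem gg_mul_lt {x y : ℝ} (hx0 : 0 ≤ x) (hx2 : x ≤ 2) (hy0 : 0 ≤ y) (hy2 : y ≤ 2)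
    (hne : x ≠ y) : gg x * gg y < 4 - x * y := by
  have hx := gg_sq hx0 hx2
  have hy := gg_sq hy0 hy2
  have h1 : 0 < 4 - x * y := by
    rcases lt_or_gt_of_ne hne with h | h
    · nlinarith
    · nlinarith
  have h2 : (gg x * gg y) ^ 2 < (4 - x * y) ^ 2 := by
    rw [mul_pow, hx, hy]
    have : 0 < (x - y) ^ 2 := by
      have := sub_ne_zero.mpr hne
      positivity
    nlinarith
  exact lt_of_pow_lt_pow_left₀ 2 h1.le h2

theorem gg_strictConcave : StrictConcaveOn ℝ (Icc (0 : ℝ) 2) gg := by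
  refine ⟨convex_Icc _ _, ?_⟩
  intro x hx y hy hne a b ha hb hab
  simp only [smul_eq_mul]
  have hz0 : 0 ≤ a * x + b * y := by
    have := mul_nonneg ha.le hx.1
    have := mul_nonneg hb.le hy.1
    linarith
  have hz2 : a * x + b * y ≤ 2 := by
    have := mul_le_mul_of_nonneg_left hx.2 ha.le
    have := mul_le_mul_of_nonneg_left hy.2 hb.le
    nlinarith
  have hz := gg_sq hz0 hz2
  have hx' := gg_sq hx.1 hx.2
  have hy' := gg_sq hy.1 hy.2
  have hm := gg_mul_lt hx.1 hx.2 hy.1 hy.2 hne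
  have hab' : 0 < a * b := mul_pos ha hb
  have key : (a * gg x + b * gg y) ^ 2 < gg (a * x + b * y) ^ 2 := by
    rw [hz]
    have e1 : (a * gg x + b * gg y) ^ 2
        = a ^ 2 * gg x ^ 2 + b ^ 2 * gg y ^ 2 + 2 * (a * b) * (gg x * gg y) := by ring
    rw [e1, hx', hy']
    have e2 : 4 - (a * x + b * y) ^ 2
        = a ^ 2 * (4 - x ^ 2) + b ^ 2 * (4 - y ^ 2) + 2 * (a * b) * (4 - x * y)
          + 4 * (1 - (a + b) ^ 2) := by ring
    rw [e2, hab]
    nlinarith
  exact lt_of_pow_lt_pow_left₀ 2 (gg_nonneg _) key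

/-- Four point inequality: `a ≤ b, c` and `a + d = b + c`. -/
theorem gg_four {a b c d : ℝ} (ha : 0 ≤ a) (hab : a ≤ b) (hac : a ≤ c) (hs : a + d = b + c)
    (hd : d ≤ 2) : gg a + gg d ≤ gg b + gg c := by
  rcases eq_or_lt_of_le hab with h | h
  · subst h
    have : c = d := by linarith
    rw [this]
  rcases eq_or_lt_of_le hac with h' | h'
  · subst h'
    have : b = d := by linarith
    rw [this]; linarith
  have hcon := gg_strictConcave.concaveOn
  have had : 0 < d - a := by linarith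
  have hA : a ∈ Icc (0 : ℝ) 2 := ⟨ha, by linarith⟩
  have hD : d ∈ Icc (0 : ℝ) 2 := ⟨by linarith, hd⟩
  have p1 : 0 ≤ (d - b) / (d - a) := div_nonneg (by linarith) had.le
  have p2 : 0 ≤ (b - a) / (d - a) := div_nonneg (by linarith) had.le
  have e3 : (d - b) / (d - a) + (b - a) / (d - a) = 1 := by
    field_simp; ring
  have h1 := hcon.2 hA hD p1 p2 e3
  have h2 := hcon.2 hA hD p2 p1 (by linarith)
  simp only [smul_eq_mul] at h1 h2
  have e1 : (d - b) / (d - a) * a + (b - a) / (d - a) * d = b := by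
    field_simp; ring
  have e2 : (b - a) / (d - a) * a + (d - b) / (d - a) * d = c := by
    have : c = a + d - b := by linarith
    rw [this]
    field_simp; ring
  rw [e1] at h1
  rw [e2] at h2
  have e4 : ((d - b) / (d - a) * gg a + (b - a) / (d - a) * gg d)
      + ((b - a) / (d - a) * gg a + (d - b) / (d - a) * gg d)
      = ((d - b) / (d - a) + (b - a) / (d - a)) * (gg a + gg d) := by ring
  rw [e3, one_mul] at e4
  linarith

theorem gg_four_strict {a b c d : ℝ} (ha : 0 ≤ a) (hab : a < b) (hac : a < c)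
    (hs : a + d = b + c) (hd : d ≤ 2) : gg a + gg d < gg b + gg c := by
  have hcon := gg_strictConcave
  have had : 0 < d - a := by linarith
  have hA : a ∈ Icc (0 : ℝ) 2 := ⟨ha, by linarith⟩
  have hD : d ∈ Icc (0 : ℝ) 2 := ⟨by linarith, hd⟩
  have hne : a ≠ d := by intro h; linarith
  have p1 : 0 < (d - b) / (d - a) := div_pos (by linarith) had
  have p2 : 0 < (b - a) / (d - a) := div_pos (by linarith) had
  have e3 : (d - b) / (d - a) + (b - a) / (d - a) = 1 := by
    field_simp; ring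
  have h1 := hcon.2 hA hD hne p1 p2 e3
  have h2 := hcon.2 hA hD hne p2 p1 (by linarith)
  simp only [smul_eq_mul] at h1 h2
  have e1 : (d - b) / (d - a) * a + (b - a) / (d - a) * d = b := by
    field_simp; ring
  have e2 : (b - a) / (d - a) * a + (d - b) / (d - a) * d = c := by
    have : c = a + d - b := by linarith
    rw [this]
    field_simp; ring
  rw [e1] at h1
  rw [e2] at h2
  have e4 : ((d - b) / (d - a) * gg a + (b - a) / (d - a) * gg d)
      + ((b - a) / (d - a) * gg a + (d - b) / (d - a) * gg d)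
      = ((d - b) / (d - a) + (b - a) / (d - a)) * (gg a + gg d) := by ring
  rw [e3, one_mul] at e4
  linarith

/-- The chord length of the rotated Reuleaux triangle at distance `t` from the axis. -/
noncomputable def len (t : ℝ) : ℝ := gg t - gg 1 + gg (1 + t)

theorem len_nonneg {t : ℝ} (h0 : 0 ≤ t) (h1 : t ≤ 1) : 0 ≤ len t := by
  unfold len
  have := gg_anti h0 h1
  have := gg_nonneg (1 + t)
  linarith

/-- If `t ≤ s ≤ 1` then `len t ≤ gg (t+s) + gg t - gg s`. -/
theorem len_le {t s : ℝ} (ht : 0 ≤ t) (hts : t ≤ s) (hs : s ≤ 1) :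
    len t ≤ gg (t + s) + gg t - gg s := by
  unfold len
  have := gg_four (a := s) (b := t + s) (c := 1) (d := 1 + t) (by linarith) (by linarith) hs
    (by ring) (by linarith)
  linarith

theorem len_lt {t s : ℝ} (ht : 0 < t) (hts : t ≤ s) (hs : s < 1) :
    len t < gg (t + s) + gg t - gg s := by
  unfold len
  have := gg_four_strict (a := s) (b := t + s) (c := 1) (d := 1 + t) (by linarith) (by linarith)
    hs (by ring) (by linarith)
  linarith

/-- Two points below level `t` cannot both be extremal. -/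
theorem gg_low {t s s' : ℝ} (ht : t ≤ 1) (hs : 0 ≤ s) (hs' : 0 ≤ s') (hst : s < t)
    (hst' : s' < t) : gg (s + s') + gg (2 * t) < gg (t + s) + gg (t + s') :=
  gg_four_strict (by linarith) (by linarith) (by linarith) (by ring) (by linarith)

/-- The two types of equality cannot mix. -/
theorem gg_mix {t s : ℝ} (ht : 0 ≤ t) (hs : 0 ≤ s) (ht1 : t < 1) (hs1 : s < 1) :
    gg (t + s) < gg (1 + t) + gg (1 + s) := by
  have := gg_four_strict (a := t + s) (b := 1 + t) (c := 1 + s) (d := 2) (by linarith)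
    (by linarith) (by linarith) (by ring) le_rfl
  rw [gg_two] at this
  linarith

/-- The diameter inequality of the Reuleaux triangle. -/
theorem gg_reul {r s : ℝ} (hr : 0 ≤ r) (hr1 : r ≤ 1) (hs : 0 ≤ s) (hs1 : s ≤ 1) :
    gg r - gg 1 + gg (1 + s) ≤ gg (r + s) := by
  have := gg_four (a := r) (b := 1) (c := r + s) (d := 1 + s) hr hr1 (by linarith) (by ring)
    (by linarith)
  linarith

end Pool.Agent.Lib.MP_e62723_gt.Rev
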