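import Mathlib
import Pool.Agent.Lib.MP_e62723_gt.RevG

/-!
# Constant width bodies of revolution: the meridian half-section

The meridian half-section of a body of revolution of constant width `2` is a planar set `M` in the
closed upper half plane satisfying the conditions of `PBody`. We bound its horizontal chords from
below, and determine the sets whose chords are all minimal.
-/

namespace Pool.Agent.Lib.MP_e62723_gt.Rev

open Real Set

/-- The conditions satisfied by the meridian half-section of a body of revolution of constant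
width `2`. -/
structure PBody (M : Set (ℝ × ℝ)) : Prop where
  nn : ∀ p ∈ M, 0 ≤ p.2
  diam : ∀ p ∈ M, ∀ q ∈ M, (p.1 - q.1) ^ 2 + (p.2 + q.2) ^ 2 ≤ 4
  comp : ∀ p : ℝ × ℝ, 0 ≤ p.2 → (∀ q ∈ M, (p.1 - q.1) ^ 2 + (p.2 + q.2) ^ 2 ≤ 4) → p ∈ M
  top : ∃ x : ℝ, (x, (1 : ℝ)) ∈ M

variable {M : Set (ℝ × ℝ)}

theorem PBody.le_one (h : PBody M) {p : ℝ × ℝ} (hp : p ∈ M) : p.2 ≤ 1 := by
  have h1 := h.diam p hp p hp
  have h2 := h.nn p hp
  nlinarith [sq_nonneg (p.1 - p.1)]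

theorem PBody.abs_sub_le (h : PBody M) {p q : ℝ × ℝ} (hp : p ∈ M) (hq : q ∈ M) :
    |p.1 - q.1| ≤ gg (p.2 + q.2) :=
  abs_le_gg (h.diam p hp q hq)

theorem PBody.mem_iff (h : PBody M) {x t : ℝ} (ht0 : 0 ≤ t) (ht1 : t ≤ 1) :
    (x, t) ∈ M ↔ ∀ q ∈ M, |x - q.1| ≤ gg (t + q.2) := by
  constructor
  · intro hx q hq
    exact h.abs_sub_le hx hq
  · intro hx
    refine h.comp (x, t) ht0 (fun q hq => ?_)
    exact sq_add_sq_le (add_nonneg ht0 (h.nn q hq))
      (by have := h.le_one hq; simp only; linarith) (hx q hq)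

theorem PBody.isClosed (h : PBody M) : IsClosed M := by
  have : M = {p : ℝ × ℝ | 0 ≤ p.2} ∩
      ⋂ q ∈ M, {p : ℝ × ℝ | (p.1 - q.1) ^ 2 + (p.2 + q.2) ^ 2 ≤ 4} := by
    ext p
    simp only [mem_inter_iff, mem_ofPred_eq, mem_iInter]
    exact ⟨fun hp => ⟨h.nn p hp, fun q hq => h.diam p hp q hq⟩, fun hp => h.comp p hp.1 hp.2⟩
  rw [this]
  refine IsClosed.inter (isClosed_le continuous_const continuous_snd) ?_
  refine isClosed_biInter (fun q _ => isClosed_le (by fun_prop) continuous_const)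

theorem PBody.isCompact (h : PBody M) : IsCompact M := by
  obtain ⟨x0, hx0⟩ := h.top
  have hsub : M ⊆ Icc (x0 - 2) (x0 + 2) ×ˢ Icc 0 1 := by
    intro p hp
    have h1 := h.diam p hp _ hx0
    have h2 := h.nn p hp
    have h3 := h.le_one hp
    simp only at h1
    refine ⟨⟨?_, ?_⟩, ⟨h2, h3⟩⟩
    · nlinarith [sq_nonneg (p.1 - x0), sq_nonneg (p.2 + 1)]
    · nlinarith [sq_nonneg (p.1 - x0), sq_nonneg (p.2 + 1)]
  exact IsCompact.of_isClosed_subset (isCompact_Icc.prod isCompact_Icc) h.isClosed hsub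

theorem PBody.top_unique (h : PBody M) {x y : ℝ} (hx : (x, (1 : ℝ)) ∈ M)
    (hy : (y, (1 : ℝ)) ∈ M) : x = y := by
  have h1 := h.diam _ hx _ hy
  simp only at h1
  have h2 : (x - y) ^ 2 ≤ 0 := by nlinarith
  have h3 : (x - y) ^ 2 = 0 := le_antisymm h2 (sq_nonneg _)
  have h4 : x - y = 0 := by simpa using h3
  linarith

/-- Horizontal chords are closed intervals with ends determined by points of `M`. -/
theorem PBody.chord (h : PBody M) {t : ℝ} (ht0 : 0 ≤ t) (ht1 : t ≤ 1) :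
    ∃ a b : ℝ, (∀ x, (x, t) ∈ M ↔ a ≤ x ∧ x ≤ b) ∧
      (∃ q ∈ M, a = q.1 - gg (t + q.2)) ∧ (∃ q ∈ M, b = q.1 + gg (t + q.2)) := by
  have hne : M.Nonempty := by
    obtain ⟨x0, hx0⟩ := h.top
    exact ⟨_, hx0⟩
  have hg := gg_continuous
  obtain ⟨qa, hqa, hqa'⟩ := h.isCompact.exists_isMaxOn hne
    (f := fun q : ℝ × ℝ => q.1 - gg (t + q.2)) (by fun_prop)
  obtain ⟨qb, hqb, hqb'⟩ := h.isCompact.exists_isMinOn hne
    (f := fun q : ℝ × ℝ => q.1 + gg (t + q.2)) (by fun_prop)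
  refine ⟨qa.1 - gg (t + qa.2), qb.1 + gg (t + qb.2), ?_, ⟨qa, hqa, rfl⟩, ⟨qb, hqb, rfl⟩⟩
  intro x
  rw [h.mem_iff ht0 ht1]
  constructor
  · intro hx
    have h1 := abs_le.mp (hx qa hqa)
    have h2 := abs_le.mp (hx qb hqb)
    exact ⟨by linarith [h1.1], by linarith [h2.2]⟩
  · rintro ⟨h1, h2⟩ q hq
    have h3 := hqa' hq
    have h4 := hqb' hq
    simp only [mem_ofPred_eq] at h3 h4
    rw [abs_le]
    exact ⟨by linarith, by linarith⟩

/-- The spindle property. -/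
theorem PBody.spindle (h : PBody M) {x s t c : ℝ} (hx : (x, s) ∈ M) (ht0 : 0 ≤ t)
    (hts : t ≤ s) (hc : |c| ≤ gg t - gg s) : (x + c, t) ∈ M := by
  have hs1 := h.le_one hx
  simp only at hs1
  rw [h.mem_iff ht0 (hts.trans hs1)]
  intro q hq
  have h1 := h.abs_sub_le hx hq
  simp only at h1
  have hq0 := h.nn q hq
  have hq1 := h.le_one hq
  have h2 := gg_four (a := t) (b := s) (c := t + q.2) (d := s + q.2) ht0 hts (by linarith)
    (by ring) (by linarith)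
  have h3 : |x + c - q.1| ≤ |x - q.1| + |c| := by
    have : x + c - q.1 = (x - q.1) + c := by ring
    rw [this]
    exact abs_add_le _ _
  linarith

theorem PBody.chord_bound (h : PBody M) {t a b : ℝ} (ht0 : 0 ≤ t) (ht1 : t ≤ 1)
    (hab : ∀ x, (x, t) ∈ M ↔ a ≤ x ∧ x ≤ b) (hqa : ∃ q ∈ M, a = q.1 - gg (t + q.2))
    (hqb : ∃ q ∈ M, b = q.1 + gg (t + q.2)) : a ≤ b ∧ len t ≤ b - a := by
  obtain ⟨x0, hx0⟩ := h.top
  have hx0t : (x0, t) ∈ M := by
    have := h.spindle (c := 0) hx0 ht0 ht1 (by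
      rw [abs_zero]; have := gg_anti ht0 ht1; linarith)
    simpa using this
  have hle := (hab x0).mp hx0t
  have hab' : a ≤ b := hle.1.trans hle.2
  refine ⟨hab', ?_⟩
  obtain ⟨qa, hqaM, hqa⟩ := hqa
  obtain ⟨qb, hqbM, hqb⟩ := hqb
  have ha0 := h.nn _ hqaM
  have ha1 := h.le_one hqaM
  have hb0 := h.nn _ hqbM
  have hb1 := h.le_one hqbM
  by_cases hs : t ≤ qa.2
  · have h1 := h.spindle (x := qa.1) (s := qa.2) (c := gg t - gg qa.2) hqaM ht0 hs (by
      rw [abs_of_nonneg]; have := gg_anti ht0 hs; linarith)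
    have h2 := ((hab _).mp h1).2
    have h3 := len_le ht0 hs ha1
    linarith
  by_cases hs' : t ≤ qb.2
  · have h1 := h.spindle (x := qb.1) (s := qb.2) (c := -(gg t - gg qb.2)) hqbM ht0 hs' (by
      rw [abs_neg, abs_of_nonneg]; have := gg_anti ht0 hs'; linarith)
    have h2 := ((hab _).mp h1).1
    have h3 := len_le ht0 hs' hb1
    linarith
  exfalso
  push Not at hs hs'
  have h1 := gg_low ht1 ha0 hb0 hs hs'
  have h2 := (abs_le.mp (h.abs_sub_le hqaM hqbM)).2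
  have h3 := (abs_le.mp (h.abs_sub_le ((hab b).mpr ⟨hab', le_rfl⟩)
    ((hab a).mpr ⟨le_rfl, hab'⟩))).2
  simp only at h3
  have e : t + t = 2 * t := by ring
  rw [e] at h3
  linarith

theorem PBody.chord_eq (h : PBody M) {t a b x0 : ℝ} (ht0 : 0 < t) (ht1 : t < 1)
    (hx0 : (x0, (1 : ℝ)) ∈ M)
    (hab : ∀ x, (x, t) ∈ M ↔ a ≤ x ∧ x ≤ b) (hqa : ∃ q ∈ M, a = q.1 - gg (t + q.2))
    (hqb : ∃ q ∈ M, b = q.1 + gg (t + q.2)) (hlen : b - a ≤ len t) :
    (a = x0 - gg (1 + t) ∧ b = x0 + (gg t - gg 1)) ∨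
      (a = x0 - (gg t - gg 1) ∧ b = x0 + gg (1 + t)) := by
  have hx0t : (x0, t) ∈ M := by
    have := h.spindle (c := 0) hx0 ht0.le ht1.le (by
      rw [abs_zero]; have := gg_anti ht0.le ht1.le; linarith)
    simpa using this
  have hle := (hab x0).mp hx0t
  have hab' : a ≤ b := hle.1.trans hle.2
  obtain ⟨qa, hqaM, hqa⟩ := hqa
  obtain ⟨qb, hqbM, hqb⟩ := hqb
  have ha0 := h.nn _ hqaM
  have ha1 := h.le_one hqaM
  have hb0 := h.nn _ hqbM
  have hb1 := h.le_one hqbM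
  have hl : len t = gg t - gg 1 + gg (1 + t) := rfl
  by_cases hs : t ≤ qa.2
  · left
    have h1 := h.spindle (x := qa.1) (s := qa.2) (c := gg t - gg qa.2) hqaM ht0.le hs (by
      rw [abs_of_nonneg]; have := gg_anti ht0.le hs; linarith)
    have h2 := ((hab _).mp h1).2
    rcases eq_or_lt_of_le ha1 with h3 | h3
    · have h4 : qa.1 = x0 := h.top_unique (by rw [← h3]; exact hqaM) hx0
      rw [h3, h4] at hqa h2
      have e : t + 1 = 1 + t := by ring
      rw [e] at hqa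
      refine ⟨hqa, ?_⟩
      linarith
    · have h4 := len_lt ht0 hs h3
      exfalso
      linarith
  by_cases hs' : t ≤ qb.2
  · right
    have h1 := h.spindle (x := qb.1) (s := qb.2) (c := -(gg t - gg qb.2)) hqbM ht0.le hs' (by
      rw [abs_neg, abs_of_nonneg]; have := gg_anti ht0.le hs'; linarith)
    have h2 := ((hab _).mp h1).1
    rcases eq_or_lt_of_le hb1 with h3 | h3
    · have h4 : qb.1 = x0 := h.top_unique (by rw [← h3]; exact hqbM) hx0
      rw [h3, h4] at hqb h2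
      have e : t + 1 = 1 + t := by ring
      rw [e] at hqb
      refine ⟨?_, hqb⟩
      linarith
    · have h4 := len_lt ht0 hs' h3
      exfalso
      linarith
  exfalso
  push Not at hs hs'
  have h1 := gg_low ht1.le ha0 hb0 hs hs'
  have h2 := (abs_le.mp (h.abs_sub_le hqaM hqbM)).2
  have h3 := (abs_le.mp (h.abs_sub_le ((hab b).mpr ⟨hab', le_rfl⟩)
    ((hab a).mpr ⟨le_rfl, hab'⟩))).2
  simp only at h3
  have e : t + t = 2 * t := by ring
  rw [e] at h3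
  linarith

/-- The meridian half-section of the rotated Reuleaux triangle. -/
def tri : Set (ℝ × ℝ) :=
  {p | 0 ≤ p.2 ∧ (p.1 + √3) ^ 2 + p.2 ^ 2 ≤ 4 ∧ p.1 ^ 2 + (p.2 + 1) ^ 2 ≤ 4}

theorem tri_le_one {p : ℝ × ℝ} (hp : p ∈ tri) : p.2 ≤ 1 := by
  obtain ⟨h0, _, h2⟩ := hp
  nlinarith [sq_nonneg p.1]

theorem tri_iff {x t : ℝ} (ht0 : 0 ≤ t) (ht1 : t ≤ 1) :
    (x, t) ∈ tri ↔ -gg (1 + t) ≤ x ∧ x ≤ gg t - gg 1 := by
  have h3 : (√3 : ℝ) ^ 2 = 3 := Real.sq_sqrt (by norm_num)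
  have h30 : (0 : ℝ) ≤ √3 := Real.sqrt_nonneg _
  rw [gg_one]
  constructor
  · rintro ⟨_, h1, h2⟩
    simp only at h1 h2
    have h4 := (abs_le.mp (abs_le_gg h1)).2
    have h5 : x ^ 2 + (1 + t) ^ 2 ≤ 4 := by rw [add_comm 1 t]; exact h2
    have h6 := (abs_le.mp (abs_le_gg h5)).1
    exact ⟨h6, by linarith⟩
  · rintro ⟨h1, h2⟩
    have h4 := gg_reul ht0 ht1 ht0 ht1
    rw [gg_one] at h4
    have h5 := gg_four (a := 0) (b := 1) (c := t) (d := 1 + t) le_rfl (by norm_num) ht0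
      (by ring) (by linarith)
    have h6 : gg 0 = 2 := by unfold gg; norm_num
    have h7 := gg_anti (x := 0) (y := t) le_rfl ht0
    rw [gg_one, h6] at h5
    rw [h6] at h7
    -- x ≤ gg t - √3 ≤ gg (1+t)
    have h8 : gg t - √3 ≤ gg (1 + t) := by
      -- concavity: gg t + gg 2 ≤ gg 1 + gg (1 + t)
      have := gg_four (a := t) (b := 1) (c := 1 + t) (d := 2) ht0 ht1 (by linarith)
        (by ring) le_rfl
      rw [gg_two, gg_one] at this
      linarith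
    -- -√3 - gg t ≤ x
    have h9 : -gg (1 + t) + √3 ≥ -gg t := by
      have := gg_anti ht0 (show t ≤ 1 + t by linarith)
      linarith
    refine ⟨ht0, ?_, ?_⟩
    · simp only
      apply sq_add_sq_le ht0 (by linarith)
      rw [abs_le]
      exact ⟨by linarith, by linarith⟩
    · simp only
      rw [add_comm t 1]
      apply sq_add_sq_le (by linarith) (by linarith)
      rw [abs_le]
      exact ⟨by linarith, by linarith⟩

theorem tri_pbody : PBody tri := by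
  have h3 : (√3 : ℝ) ^ 2 = 3 := Real.sq_sqrt (by norm_num)
  have hv0 : ((-√3, 0) : ℝ × ℝ) ∈ tri := by
    refine ⟨le_rfl, ?_, ?_⟩
    · simp
    · simp only [neg_sq, h3]; norm_num
  have hv1 : ((0, 1) : ℝ × ℝ) ∈ tri := by
    refine ⟨zero_le_one, ?_, ?_⟩
    · simp only [zero_add, h3]; norm_num
    · norm_num
  refine ⟨fun p hp => hp.1, ?_, ?_, ⟨0, hv1⟩⟩
  · rintro ⟨x, r⟩ hp ⟨y, s⟩ hq
    have hr0 : 0 ≤ r := hp.1
    have hs0 : 0 ≤ s := hq.1
    have hr1 : r ≤ 1 := tri_le_one hp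
    have hs1 : s ≤ 1 := tri_le_one hq
    have h1 := (tri_iff hr0 hr1).mp hp
    have h2 := (tri_iff hs0 hs1).mp hq
    have h4 := gg_reul hr0 hr1 hs0 hs1
    have h5 := gg_reul hs0 hs1 hr0 hr1
    rw [add_comm s r] at h5
    simp only
    apply sq_add_sq_le (by linarith) (by linarith)
    rw [abs_le]
    exact ⟨by linarith, by linarith⟩
  · rintro ⟨x, r⟩ hr h
    have h1 := h _ hv0
    have h2 := h _ hv1
    simp only at h1 h2 hr
    refine ⟨hr, ?_, ?_⟩
    · simp only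
      have e : x - -√3 = x + √3 := by ring
      rw [e, add_zero] at h1
      exact h1
    · simp only
      rw [sub_zero] at h2
      exact h2

/-- Reflection of the meridian half-section. -/
theorem PBody.mirror (h : PBody M) : PBody {p : ℝ × ℝ | (-p.1, p.2) ∈ M} := by
  refine ⟨fun p hp => h.nn (-p.1, p.2) hp, ?_, ?_, ?_⟩
  · intro p hp q hq
    have h1 := h.diam (-p.1, p.2) hp (-q.1, q.2) hq
    simp only at h1
    have e : (p.1 - q.1) ^ 2 = (-p.1 - -q.1) ^ 2 := by ring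
    rw [e]
    exact h1
  · intro p hp hq
    refine h.comp _ hp (fun q hqM => ?_)
    have h1 := hq (-q.1, q.2) (by simpa using hqM)
    simp only at h1 ⊢
    have e : (-p.1 - q.1) ^ 2 = (p.1 - -q.1) ^ 2 := by ring
    rw [e]
    exact h1
  · obtain ⟨x, hx⟩ := h.top
    exact ⟨-x, by simpa using hx⟩

/-- Rigidity, first type. -/
theorem PBody.rigid (h : PBody M) {x0 : ℝ} (hx0 : (x0, (1 : ℝ)) ∈ M) {T : Set ℝ}
    (hT : Icc (0 : ℝ) 1 ⊆ closure T)
    (hT2 : ∀ t ∈ T, (x0 - gg (1 + t), t) ∈ M ∧ (x0 + (gg t - gg 1), t) ∈ M) :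
    ∀ p : ℝ × ℝ, p ∈ M ↔ (p.1 - x0, p.2) ∈ tri := by
  have hg := gg_continuous
  have hcl := h.isClosed
  have hA : ∀ t ∈ Icc (0 : ℝ) 1, (x0 - gg (1 + t), t) ∈ M := by
    intro t ht
    have hc : IsClosed {t : ℝ | (x0 - gg (1 + t), t) ∈ M} :=
      hcl.preimage (by fun_prop : Continuous fun t : ℝ => (x0 - gg (1 + t), t))
    exact (closure_minimal (fun t ht => (hT2 t ht).1) hc) (hT ht)
  have hB : ∀ t ∈ Icc (0 : ℝ) 1, (x0 + (gg t - gg 1), t) ∈ M := by
    intro t ht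
    have hc : IsClosed {t : ℝ | (x0 + (gg t - gg 1), t) ∈ M} :=
      hcl.preimage (by fun_prop : Continuous fun t : ℝ => (x0 + (gg t - gg 1), t))
    exact (closure_minimal (fun t ht => (hT2 t ht).2) hc) (hT ht)
  rintro ⟨x, t⟩
  constructor
  · intro hp
    have h1 := h.diam _ hp _ (hA 0 ⟨le_rfl, zero_le_one⟩)
    have h2 := h.diam _ hp _ hx0
    simp only [add_zero, gg_one] at h1 h2
    refine ⟨h.nn (x, t) hp, ?_, h2⟩
    simp only
    have e : x - x0 + √3 = x - (x0 - √3) := by ring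
    rw [e]
    exact h1
  · intro hp
    have ht0 : 0 ≤ t := hp.1
    have ht1 : t ≤ 1 := tri_le_one hp
    have h1 := (tri_iff ht0 ht1).mp hp
    simp only at h1
    obtain ⟨a, b, hab, -, -⟩ := h.chord ht0 ht1
    have h2 := ((hab _).mp (hA t ⟨ht0, ht1⟩)).1
    have h3 := ((hab _).mp (hB t ⟨ht0, ht1⟩)).2
    exact (hab x).mpr ⟨by linarith, by linarith⟩

/-- **Rigidity.** If the chord at height `t` is minimal for a dense set of `t`, then `M` is a
translate of `tri` or of its mirror image. -/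
theorem PBody.rigidity (h : PBody M) {T : Set ℝ} (hT : Icc (0 : ℝ) 1 ⊆ closure T)
    (hT1 : T ⊆ Ioo 0 1)
    (hT2 : ∀ t ∈ T, ∀ a b : ℝ, (∀ x, (x, t) ∈ M ↔ a ≤ x ∧ x ≤ b) → b - a ≤ len t) :
    ∃ x0 : ℝ, (∀ p : ℝ × ℝ, p ∈ M ↔ (p.1 - x0, p.2) ∈ tri) ∨
      (∀ p : ℝ × ℝ, p ∈ M ↔ (x0 - p.1, p.2) ∈ tri) := by
  obtain ⟨x0, hx0⟩ := h.top
  have key : ∀ t ∈ T,
      ((x0 - gg (1 + t), t) ∈ M ∧ (x0 + (gg t - gg 1), t) ∈ M) ∨
      ((x0 - (gg t - gg 1), t) ∈ M ∧ (x0 + gg (1 + t), t) ∈ M) := by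
    intro t ht
    obtain ⟨ht0, ht1⟩ := hT1 ht
    obtain ⟨a, b, hab, hqa, hqb⟩ := h.chord ht0.le ht1.le
    have hle := (h.chord_bound ht0.le ht1.le hab hqa hqb).1
    have haM := (hab a).mpr ⟨le_rfl, hle⟩
    have hbM := (hab b).mpr ⟨hle, le_rfl⟩
    rcases h.chord_eq ht0 ht1 hx0 hab hqa hqb (hT2 t ht a b hab) with ⟨h1, h2⟩ | ⟨h1, h2⟩
    · left
      rw [← h1, ← h2]
      exact ⟨haM, hbM⟩
    · right
      rw [← h1, ← h2]
      exact ⟨haM, hbM⟩
  have hmix : ∀ t ∈ T, ∀ s ∈ T, (x0 - gg (1 + t), t) ∈ M → (x0 + gg (1 + s), s) ∈ M →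
      False := by
    intro t ht s hs h1 h2
    have h3 := (abs_le.mp (h.abs_sub_le h2 h1)).2
    simp only at h3
    have h4 := gg_mix (hT1 ht).1.le (hT1 hs).1.le (hT1 ht).2 (hT1 hs).2
    rw [add_comm s t] at h3
    linarith
  by_cases hex : ∃ t ∈ T, (x0 - gg (1 + t), t) ∈ M
  · obtain ⟨t, ht, htM⟩ := hex
    refine ⟨x0, Or.inl (h.rigid hx0 hT (fun s hs => ?_))⟩
    rcases key s hs with h1 | h1
    · exact h1
    · exact (hmix t ht s hs htM h1.2).elim
  · push Not at hex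
    refine ⟨x0, Or.inr (fun p => ?_)⟩
    have h2 : ((-x0, (1 : ℝ)) : ℝ × ℝ) ∈ {p : ℝ × ℝ | (-p.1, p.2) ∈ M} := by
      simpa using hx0
    have h3 := h.mirror.rigid h2 hT (fun s hs => ?_) (-p.1, p.2)
    · simp only [mem_ofPred_eq, neg_neg, sub_neg_eq_add] at h3
      have e : -p.1 + x0 = x0 - p.1 := by ring
      rw [e] at h3
      exact h3
    · rcases key s hs with h1 | h1
      · exact (hex s hs h1.1).elim
      · simp only [mem_ofPred_eq]
        have e1 : -(-x0 - gg (1 + s)) = x0 + gg (1 + s) := by ring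
        have e2 : -(-x0 + (gg s - gg 1)) = x0 - (gg s - gg 1) := by ring
        rw [e1, e2]
        exact ⟨h1.2, h1.1⟩

end Pool.Agent.Lib.MP_e62723_gt.Rev
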