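import Mathlib
import Pool.Agent.Lib.MP_e62723_gt.RevDefs

/-!
# Constant width bodies: diameter, completeness, and double normals
-/

namespace Pool.Agent.Lib.MP_e62723_gt.Rev

open Real Set

variable {m : ℕ} {K : Set (E m)}

theorem suppFun_le (hK : IsCompact K) {x : E m} (hx : x ∈ K) (u : E m) :
    inner ℝ x u ≤ suppFun K u := by
  unfold suppFun
  have hc : Continuous fun x : E m => (inner ℝ x u : ℝ) := by fun_prop
  exact le_csSup (hK.image hc).bddAbove (mem_image_of_mem _ hx)

theorem suppFun_attained (hK : IsCompact K) (hne : K.Nonempty) (u : E m) :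
    ∃ x ∈ K, inner ℝ x u = suppFun K u := by
  have hc : Continuous fun x : E m => (inner ℝ x u : ℝ) := by fun_prop
  obtain ⟨x, hx, h⟩ := (hK.image hc).sSup_mem (hne.image _)
  exact ⟨x, hx, h⟩

/-- A compact set of constant width `2` has diameter at most `2`. -/
theorem width_diam (hK : IsCompact K) (hw : HasConstantWidth K 2) {x y : E m} (hx : x ∈ K)
    (hy : y ∈ K) : ‖x - y‖ ≤ 2 := by
  by_cases h0 : ‖x - y‖ = 0
  · rw [h0]; norm_num
  have hpos : 0 < ‖x - y‖ := lt_of_le_of_ne (norm_nonneg _) (Ne.symm h0)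
  set u : E m := (‖x - y‖)⁻¹ • (x - y) with hu
  have hu1 : ‖u‖ = 1 := by
    rw [hu, norm_smul, norm_inv, norm_norm, inv_mul_cancel₀ h0]
  have h1 := hw u hu1
  have h2 := suppFun_le hK hx u
  have h3 := suppFun_le hK hy (-u)
  have h4 : inner ℝ (x - y) u = ‖x - y‖ := by
    rw [hu, inner_smul_right, real_inner_self_eq_norm_sq]
    field_simp
  rw [inner_sub_left] at h4
  rw [inner_neg_right] at h3
  linarith

/-- A convex body of constant width `2` is complete. -/
theorem width_complete (hK : IsCompact K) (hcv : Convex ℝ K) (hne : K.Nonempty)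
    (hw : HasConstantWidth K 2) {z : E m} (hz : ∀ y ∈ K, ‖z - y‖ ≤ 2) : z ∈ K := by
  by_contra hzK
  obtain ⟨f, c, hf, hc⟩ := geometric_hahn_banach_closed_point hcv hK.isClosed hzK
  set v : E m := (InnerProductSpace.toDual ℝ (E m)).symm f with hv
  have hfv : ∀ x, f x = inner ℝ x v := by
    intro x
    rw [real_inner_comm, hv, InnerProductSpace.toDual_symm_apply]
  have hv0 : v ≠ 0 := by
    intro h0
    obtain ⟨y, hy⟩ := hne
    have h1 := hf y hy
    rw [hfv, h0, inner_zero_right] at h1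
    rw [hfv, h0, inner_zero_right] at hc
    linarith
  have hpos : 0 < ‖v‖ := norm_pos_iff.mpr hv0
  set u : E m := (‖v‖)⁻¹ • v with hu
  have hu1 : ‖u‖ = 1 := by
    rw [hu, norm_smul, norm_inv, norm_norm, inv_mul_cancel₀ hpos.ne']
  obtain ⟨x, hx, hxu⟩ := suppFun_attained hK hne u
  obtain ⟨y, hy, hyu⟩ := suppFun_attained hK hne (-u)
  have h1 := hw u hu1
  have h2 : inner ℝ x u < inner ℝ z u := by
    have h3 := hf x hx
    rw [hfv] at h3 hc
    rw [hu, inner_smul_right, inner_smul_right]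
    exact mul_lt_mul_of_pos_left (h3.trans hc) (inv_pos.mpr hpos)
  have h4 : inner ℝ (z - y) u ≤ ‖z - y‖ * ‖u‖ := real_inner_le_norm _ _
  rw [hu1, mul_one, inner_sub_left] at h4
  have h5 := hz y hy
  rw [inner_neg_right] at hyu
  linarith

/-- In every direction there is a chord of length `2`. -/
theorem width_chord (hK : IsCompact K) (hne : K.Nonempty)
    (hw : HasConstantWidth K 2) {u : E m} (hu : ‖u‖ = 1) :
    ∃ x ∈ K, ∃ y ∈ K, x - y = (2 : ℝ) • u := by
  obtain ⟨x, hx, hxu⟩ := suppFun_attained hK hne u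
  obtain ⟨y, hy, hyu⟩ := suppFun_attained hK hne (-u)
  refine ⟨x, hx, y, hy, ?_⟩
  have h1 := hw u hu
  have h2 := width_diam hK hw hx hy
  rw [inner_neg_right] at hyu
  have h3 : inner ℝ (x - y) u = 2 := by
    rw [inner_sub_left]; linarith
  have h4 : ‖(x - y) - (2 : ℝ) • u‖ ^ 2 ≤ 0 := by
    rw [norm_sub_sq_real, inner_smul_right, h3, norm_smul, hu]
    have : ‖x - y‖ ^ 2 ≤ 2 ^ 2 := pow_le_pow_left₀ (norm_nonneg _) h2 2
    norm_num
    linarith
  have h5 : ‖(x - y) - (2 : ℝ) • u‖ = 0 := by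
    have := le_antisymm h4 (sq_nonneg _)
    exact pow_eq_zero_iff (two_ne_zero) |>.mp this
  exact sub_eq_zero.mp (norm_eq_zero.mp h5)

end Pool.Agent.Lib.MP_e62723_gt.Rev
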