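import Mathlib
import Pool.Agent.Lib.MP_e62723_gt.RevDefs
import Pool.Agent.Lib.MP_e62723_gt.RevWid
import Pool.Agent.Lib.MP_e62723_gt.RevPlane

/-!
# Reduction to the meridian half-section
-/

namespace Pool.Agent.Lib.MP_e62723_gt.Rev

open Real Set

variable {m : ℕ} {K : Set (E m)} {p v : E m}

/-- The meridian half-section of `K` with respect to the axis `p + ℝ v`. -/
def meridian (K : Set (E m)) (p v : E m) : Set (ℝ × ℝ) :=
  {q | ∃ w : E m, inner ℝ w v = 0 ∧ ‖w‖ = q.2 ∧ p + q.1 • v + w ∈ K}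

theorem norm_axis_sq (hv : ‖v‖ = 1) (a : ℝ) {w : E m} (hw : inner ℝ w v = 0) :
    ‖a • v + w‖ ^ 2 = a ^ 2 + ‖w‖ ^ 2 := by
  rw [norm_add_sq_real, inner_smul_left, real_inner_comm, hw, norm_smul, hv]
  simp

theorem mem_meridian_iff (hrev : IsRevolutionAbout K p v) {a : ℝ} {w : E m}
    (hw : inner ℝ w v = 0) : (a, ‖w‖) ∈ meridian K p v ↔ p + a • v + w ∈ K := by
  constructor
  · rintro ⟨w', hw', hn, hK⟩
    simp only at hn hK
    refine hrev.2 _ _ ?_ ?_ hK
    · have e1 : p + a • v + w' - p = a • v + w' := by abel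
      have e2 : p + a • v + w - p = a • v + w := by abel
      rw [e1, e2, inner_add_left, inner_add_left, hw', hw]
    · have e1 : p + a • v + w' - p = a • v + w' := by abel
      have e2 : p + a • v + w - p = a • v + w := by abel
      rw [e1, e2]
      have h1 := norm_axis_sq hrev.1 a hw'
      have h2 := norm_axis_sq hrev.1 a hw
      rw [hn] at h1
      have h3 : ‖a • v + w'‖ ^ 2 = ‖a • v + w‖ ^ 2 := by rw [h1, h2]
      exact (sq_eq_sq₀ (norm_nonneg _) (norm_nonneg _)).mp h3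
  · intro h
    exact ⟨w, hw, rfl, h⟩

/-- Orthogonal decomposition along the axis. -/
theorem decomp (hv : ‖v‖ = 1) (p x : E m) :
    ∃ (a : ℝ) (w : E m), inner ℝ w v = 0 ∧ a = inner ℝ (x - p) v ∧ x = p + a • v + w := by
  refine ⟨inner ℝ (x - p) v, x - p - (inner ℝ (x - p) v : ℝ) • v, ?_, rfl, ?_⟩
  · rw [inner_sub_left, inner_smul_left, real_inner_self_eq_norm_sq, hv]
    simp
  · abel

theorem exists_unit_orth (hm : 1 ≤ m) (hv : ‖v‖ = 1) : ∃ e : E m, ‖e‖ = 1 ∧ inner ℝ e v = 0 := by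
  have hv0 : v ≠ 0 := by
    intro h
    rw [h, norm_zero] at hv
    exact zero_ne_one hv
  have : Fact (Module.finrank ℝ (E m) = m + 1) := ⟨by simp⟩
  have h1 : Module.finrank ℝ (Submodule.span ℝ {v})ᗮ = m :=
    Submodule.finrank_orthogonal_span_singleton hv0
  have h2 : 0 < Module.finrank ℝ (Submodule.span ℝ {v})ᗮ := by omega
  have := Module.finrank_pos_iff.mp h2
  obtain ⟨⟨w, hw⟩, hw0⟩ := exists_ne (0 : (Submodule.span ℝ {v})ᗮ)
  have hw1 : w ≠ 0 := fun h => hw0 (Subtype.ext h)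
  have hpos : 0 < ‖w‖ := norm_pos_iff.mpr hw1
  refine ⟨(‖w‖)⁻¹ • w, ?_, ?_⟩
  · rw [norm_smul, norm_inv, norm_norm, inv_mul_cancel₀ hpos.ne']
  · rw [inner_smul_left]
    have h3 : inner ℝ v w = (0 : ℝ) := by
      rw [Submodule.mem_orthogonal_singleton_iff_inner_right] at hw
      exact hw
    rw [real_inner_comm, h3, mul_zero]

/-- The meridian half-section of a body of revolution of constant width `2`. -/
theorem meridian_pbody (hm : 1 ≤ m) (hK : IsConvexBody K) (hw : HasConstantWidth K 2)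
    (hrev : IsRevolutionAbout K p v) : PBody (meridian K p v) := by
  obtain ⟨hcp, hcv, hint⟩ := hK
  have hne : K.Nonempty := hint.mono interior_subset
  obtain ⟨e, he1, hev⟩ := exists_unit_orth hm hrev.1
  have hee : inner ℝ e e = (1 : ℝ) := by rw [real_inner_self_eq_norm_sq, he1]; norm_num
  have hmem : ∀ (a r : ℝ), 0 ≤ r →
      ((a, r) ∈ meridian K p v ↔ p + a • v + r • e ∈ K) := by
    intro a r hr
    have h1 : inner ℝ (r • e) v = (0 : ℝ) := by rw [inner_smul_left, hev, mul_zero]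
    have h2 := mem_meridian_iff hrev (a := a) h1
    rw [norm_smul, he1, mul_one, Real.norm_of_nonneg hr] at h2
    exact h2
  have hmem' : ∀ (a r : ℝ), 0 ≤ r →
      ((a, r) ∈ meridian K p v ↔ p + a • v + (-r) • e ∈ K) := by
    intro a r hr
    have h1 : inner ℝ ((-r) • e) v = (0 : ℝ) := by rw [inner_smul_left, hev, mul_zero]
    have h2 := mem_meridian_iff hrev (a := a) h1
    rw [norm_smul, he1, mul_one, Real.norm_eq_abs, abs_neg, abs_of_nonneg hr] at h2
    exact h2
  have hnn : ∀ q ∈ meridian K p v, 0 ≤ q.2 := by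
    rintro q ⟨w, -, hn, -⟩
    rw [← hn]
    exact norm_nonneg _
  have hdiam : ∀ q ∈ meridian K p v, ∀ q' ∈ meridian K p v,
      (q.1 - q'.1) ^ 2 + (q.2 + q'.2) ^ 2 ≤ 4 := by
    rintro ⟨a, r⟩ hq ⟨b, s⟩ hq'
    have hr := hnn _ hq
    have hs := hnn _ hq'
    simp only at hr hs ⊢
    have h1 := (hmem a r hr).mp hq
    have h2 := (hmem' b s hs).mp hq'
    have h3 := width_diam hcp hw h1 h2
    have e1 : p + a • v + r • e - (p + b • v + (-s) • e) = (a - b) • v + (r + s) • e := by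
      module
    rw [e1] at h3
    have h4 := norm_axis_sq hrev.1 (a - b) (w := (r + s) • e)
      (by rw [inner_smul_left, hev, mul_zero])
    rw [norm_smul, he1, mul_one, Real.norm_eq_abs, sq_abs] at h4
    have h5 : ‖(a - b) • v + (r + s) • e‖ ^ 2 ≤ 2 ^ 2 :=
      pow_le_pow_left₀ (norm_nonneg _) h3 2
    rw [h4] at h5
    norm_num at h5
    linarith
  refine ⟨hnn, hdiam, ?_, ?_⟩
  · rintro ⟨a, r⟩ hr h
    simp only at hr
    rw [hmem a r hr]
    refine width_complete hcp hcv hne hw (fun y hy => ?_)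
    obtain ⟨b, w, hwv, -, hyw⟩ := decomp hrev.1 p y
    have hyM : (b, ‖w‖) ∈ meridian K p v := by
      rw [mem_meridian_iff hrev hwv, ← hyw]
      exact hy
    have h1 := h _ hyM
    simp only at h1
    have e1 : p + a • v + r • e - y = (a - b) • v + (r • e - w) := by
      rw [hyw]
      module
    rw [e1]
    have h2 := norm_axis_sq hrev.1 (a - b) (w := r • e - w)
      (by rw [inner_sub_left, inner_smul_left, hev, hwv, mul_zero, sub_zero])
    have h3 : ‖r • e - w‖ ≤ r + ‖w‖ := by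
      refine (norm_sub_le _ _).trans ?_
      rw [norm_smul, he1, mul_one, Real.norm_of_nonneg hr]
    have h4 : ‖r • e - w‖ ^ 2 ≤ (r + ‖w‖) ^ 2 := pow_le_pow_left₀ (norm_nonneg _) h3 2
    have h5 : ‖(a - b) • v + (r • e - w)‖ ^ 2 ≤ 2 ^ 2 := by
      rw [h2]
      norm_num
      linarith
    exact le_of_sq_le_sq h5 (by norm_num)
  · obtain ⟨x, hx, y, hy, hxy⟩ := width_chord hcp hne hw he1
    obtain ⟨a, w, hwv, -, hxw⟩ := decomp hrev.1 p x
    have hyw : y = p + a • v + (w - (2 : ℝ) • e) := by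
      have : y = x - (2 : ℝ) • e := by rw [← hxy]; abel
      rw [this, hxw]
      module
    have hwv' : inner ℝ (w - (2 : ℝ) • e) v = (0 : ℝ) := by
      rw [inner_sub_left, inner_smul_left, hev, hwv, mul_zero, sub_zero]
    have hxM : (a, ‖w‖) ∈ meridian K p v := by
      rw [mem_meridian_iff hrev hwv, ← hxw]
      exact hx
    have hyM : (a, ‖w - (2 : ℝ) • e‖) ∈ meridian K p v := by
      rw [mem_meridian_iff hrev hwv', ← hyw]
      exact hy
    have h1 := hdiam _ hxM _ hxM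
    have h2 := hdiam _ hyM _ hyM
    simp only at h1 h2
    have hn1 := norm_nonneg w
    have hn2 := norm_nonneg (w - (2 : ℝ) • e)
    have h3 : ‖w‖ ≤ 1 := by nlinarith
    have h4 : ‖w - (2 : ℝ) • e‖ ≤ 1 := by nlinarith
    have h5 : ‖(2 : ℝ) • e‖ ≤ ‖w‖ + ‖w - (2 : ℝ) • e‖ := by
      have : (2 : ℝ) • e = w - (w - (2 : ℝ) • e) := by abel
      calc ‖(2 : ℝ) • e‖ = ‖w - (w - (2 : ℝ) • e)‖ := by rw [← this]
        _ ≤ _ := norm_sub_le _ _
    rw [norm_smul, he1, mul_one, Real.norm_of_nonneg (by norm_num)] at h5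
    have h6 : ‖w‖ = 1 := by linarith
    exact ⟨a, by rw [← h6]; exact hxM⟩

end Pool.Agent.Lib.MP_e62723_gt.Rev
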