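import Mathlib
import Pool.Agent.Lib.MP_e62723_gt.RevDefs

/-!
# Volume of a solid of revolution by slicing
-/

namespace Pool.Agent.Lib.MP_e62723_gt.Rev

open Real Set MeasureTheory

variable {m : ℕ}

/-- The solid of revolution with meridian half-section `M`, about the zeroth coordinate axis. -/
def solid (m : ℕ) (M : Set (ℝ × ℝ)) : Set (E m) := {x | (x 0, rho x) ∈ M}

theorem rho_continuous : Continuous (rho : E m → ℝ) := by
  unfold rho
  fun_prop

theorem solid_measurable {M : Set (ℝ × ℝ)} (hM : MeasurableSet M) :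
    MeasurableSet (solid m M) := by
  have h : Continuous fun x : E m => (x 0, rho x) := by
    have := rho_continuous (m := m)
    fun_prop
  exact h.measurable hM

/-- Slicing formula. -/
theorem volume_solid {M : Set (ℝ × ℝ)} (hM : MeasurableSet M) :
    volume (solid m M) =
      ∫⁻ q : EuclideanSpace ℝ (Fin m), volume {x : ℝ | (x, ‖q‖) ∈ M} := by
  have h1 : MeasurePreserving (@WithLp.ofLp 2 (Fin (m + 1) → ℝ)) :=
    PiLp.volume_preserving_ofLp (Fin (m + 1))
  have h2 := volume_preserving_piFinSuccAbove (fun _ : Fin (m + 1) => ℝ) 0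
  have h3 : MeasurePreserving (@WithLp.ofLp 2 (Fin m → ℝ)) :=
    PiLp.volume_preserving_ofLp (Fin m)
  set A : Set (ℝ × (Fin m → ℝ)) :=
    {z | (z.1, √(∑ i, z.2 i ^ 2)) ∈ M} with hA
  have hAm : MeasurableSet A := by
    have h : Continuous fun z : ℝ × (Fin m → ℝ) => (z.1, √(∑ i, z.2 i ^ 2)) := by
      fun_prop
    exact h.measurable hM
  have e1 : solid m M = (@WithLp.ofLp 2 (Fin (m + 1) → ℝ)) ⁻¹'
      ((MeasurableEquiv.piFinSuccAbove (fun _ : Fin (m + 1) => ℝ) 0) ⁻¹' A) := by
    ext x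
    simp only [solid, rho, mem_ofPred_eq, mem_preimage, hA]
    rfl
  rw [e1, h1.measure_preimage (h2.measurable hAm).nullMeasurableSet,
    h2.measure_preimage hAm.nullMeasurableSet]
  have e2 : (volume : Measure (ℝ × (Fin m → ℝ))) A
      = ∫⁻ y : Fin m → ℝ, volume ((fun x : ℝ => (x, y)) ⁻¹' A) :=
    Measure.prod_apply_symm hAm
  rw [e2, ← h3.lintegral_comp (measurable_measure_prodMk_right hAm)]
  refine lintegral_congr (fun q => ?_)
  congr 1
  ext x
  simp only [hA, mem_preimage, mem_ofPred_eq, EuclideanSpace.norm_eq, Real.norm_eq_abs, sq_abs]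

end Pool.Agent.Lib.MP_e62723_gt.Rev
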