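import Mathlib
import Pool.Agent.Lib.MP_e62723_gt.RevDefs
import Pool.Agent.Lib.MP_e62723_gt.RevRed
import Pool.Agent.Lib.MP_e62723_gt.RevVol

/-!
# Moving the axis to the zeroth coordinate axis
-/

namespace Pool.Agent.Lib.MP_e62723_gt.Rev

open Real Set MeasureTheory

variable {m : ℕ} {K : Set (E m)} {p v : E m}

theorem ezero_norm : ‖ezero m‖ = 1 := by simp [ezero]

theorem inner_ezero (x : E m) : inner ℝ x (ezero m) = x 0 := by
  simp [ezero, EuclideanSpace.inner_single_right]

theorem rho_sq (x : E m) : rho x ^ 2 = ‖x‖ ^ 2 - x 0 ^ 2 := by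
  have h0 : 0 ≤ ∑ i : Fin m, x i.succ ^ 2 := Finset.sum_nonneg (fun i _ => sq_nonneg _)
  rw [rho, Real.sq_sqrt h0, EuclideanSpace.norm_sq_eq, Fin.sum_univ_succ]
  simp

theorem rho_nonneg (x : E m) : 0 ≤ rho x := Real.sqrt_nonneg _

theorem exists_move (hv : ‖v‖ = 1) : ∃ φ : E m ≃ₗᵢ[ℝ] E m, φ v = ezero m := by
  refine ⟨(Submodule.span ℝ {v - ezero m})ᗮ.reflection, ?_⟩
  exact Submodule.reflection_sub (hv.trans ezero_norm.symm)

/-- A body of revolution is congruent to the solid spanned by its meridian half-section. -/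
theorem mem_iff_move (hrev : IsRevolutionAbout K p v) {φ : E m ≃ₗᵢ[ℝ] E m}
    (hφ : φ v = ezero m) (x : E m) : x ∈ K ↔ φ (x - p) ∈ solid m (meridian K p v) := by
  obtain ⟨a, w, hw, -, hx⟩ := decomp hrev.1 p x
  have h1 : x - p = a • v + w := by rw [hx]; abel
  have h2 : (φ (x - p)) 0 = a := by
    rw [← inner_ezero, ← hφ, LinearIsometryEquiv.inner_map_map, h1, inner_add_left,
      inner_smul_left, hw, real_inner_self_eq_norm_sq, hrev.1]
    simp
  have h3 : rho (φ (x - p)) = ‖w‖ := by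
    have h4 := rho_sq (φ (x - p))
    rw [h2, LinearIsometryEquiv.norm_map] at h4
    have h4' := norm_axis_sq hrev.1 a hw
    rw [← h1] at h4'
    have h5 : rho (φ (x - p)) ^ 2 = ‖w‖ ^ 2 := by
      rw [h4, h4']
      ring
    exact (sq_eq_sq₀ (rho_nonneg _) (norm_nonneg _)).mp h5
  have h6 : φ (x - p) ∈ solid m (meridian K p v) ↔ (a, ‖w‖) ∈ meridian K p v := by
    show ((φ (x - p)) 0, rho (φ (x - p))) ∈ meridian K p v ↔ _
    rw [h2, h3]
  rw [h6, mem_meridian_iff hrev hw, ← hx]

theorem volume_move (φ : E m ≃ₗᵢ[ℝ] E m) (p : E m) {S : Set (E m)} (hS : MeasurableSet S) :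
    volume {x | φ (x - p) ∈ S} = volume S := by
  have h1 : MeasurePreserving φ volume volume := φ.measurePreserving
  have h2 : MeasurePreserving (fun x : E m => x - p) volume volume :=
    measurePreserving_sub_right volume p
  have h3 := (h1.comp h2).measure_preimage hS.nullMeasurableSet
  exact h3

/-- The chords of `K` parallel to the axis. -/
theorem chord_set (hrev : IsRevolutionAbout K p v) {w : E m} (hw : inner ℝ w v = 0) :
    {s : ℝ | p + w + s • v ∈ K} = {s : ℝ | (s, ‖w‖) ∈ meridian K p v} := by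
  ext s
  simp only [mem_ofPred_eq]
  rw [mem_meridian_iff hrev hw]
  have : p + w + s • v = p + s • v + w := by abel
  rw [this]

end Pool.Agent.Lib.MP_e62723_gt.Rev
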