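import Mathlib
import Pool.Agent.Lib.MP_e62723_gt.RevDefs
import Pool.Agent.Lib.MP_e62723_gt.RevWid
import Pool.Agent.Lib.MP_e62723_gt.RevMove

/-!
# The rotated Reuleaux triangle is a body of revolution of constant width `2`
-/

namespace Pool.Agent.Lib.MP_e62723_gt.Rev

open Real Set MeasureTheory

variable {m : ℕ}

theorem rotReuleaux_eq (m : ℕ) : rotReuleaux m = solid m tri := by
  ext x
  have h0 := rho_nonneg x
  show (x 0, rho x) ∈ reuleaux ↔ (x 0, rho x) ∈ tri
  simp only [reuleaux, tri, mem_ofPred_eq]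
  constructor
  · rintro ⟨h1, -, h3⟩
    exact ⟨h0, h1, h3⟩
  · rintro ⟨-, h1, h3⟩
    refine ⟨h1, ?_, h3⟩
    nlinarith

theorem mem_rot_iff (x : E m) : x ∈ rotReuleaux m ↔ (x 0, rho x) ∈ tri := by
  rw [rotReuleaux_eq]
  rfl

theorem coord_zero {a : ℝ} {w : E m} (hw : inner ℝ w (ezero m) = 0) :
    (a • ezero m + w) 0 = a := by
  rw [← inner_ezero, inner_add_left, inner_smul_left, hw, real_inner_self_eq_norm_sq,
    ezero_norm]
  simp

theorem coord_rho {a : ℝ} {w : E m} (hw : inner ℝ w (ezero m) = 0) :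
    rho (a • ezero m + w) = ‖w‖ := by
  have h1 := rho_sq (a • ezero m + w)
  rw [coord_zero hw, norm_axis_sq ezero_norm a hw] at h1
  have h2 : rho (a • ezero m + w) ^ 2 = ‖w‖ ^ 2 := by
    rw [h1]; ring
  exact (sq_eq_sq₀ (rho_nonneg _) (norm_nonneg _)).mp h2

theorem coord_decomp (x : E m) : ∃ w : E m, inner ℝ w (ezero m) = 0 ∧
    x = x 0 • ezero m + w ∧ ‖w‖ = rho x := by
  obtain ⟨a, w, hw, ha, hx⟩ := decomp (ezero_norm (m := m)) 0 x
  rw [zero_add] at hx
  have h0 : x 0 = a := by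
    rw [hx]
    exact coord_zero hw
  refine ⟨w, hw, ?_, ?_⟩
  · rw [h0]; exact hx
  · rw [hx]
    exact (coord_rho hw).symm

theorem norm_sub_sq_le (x y : E m) :
    ‖x - y‖ ^ 2 ≤ (x 0 - y 0) ^ 2 + (rho x + rho y) ^ 2 := by
  obtain ⟨w, hw, hx, hwn⟩ := coord_decomp x
  obtain ⟨z, hz, hy, hzn⟩ := coord_decomp y
  have e : x - y = (x 0 - y 0) • ezero m + (w - z) := by
    conv_lhs => rw [hx, hy]
    module
  have hwz : inner ℝ (w - z) (ezero m) = 0 := by rw [inner_sub_left, hw, hz, sub_zero]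
  rw [e, norm_axis_sq ezero_norm _ hwz]
  have h1 : ‖w - z‖ ≤ rho x + rho y := by
    rw [← hwn, ← hzn]
    exact norm_sub_le _ _
  have h2 := pow_le_pow_left₀ (norm_nonneg _) h1 2
  linarith

theorem rot_diam {x y : E m} (hx : x ∈ rotReuleaux m) (hy : y ∈ rotReuleaux m) :
    ‖x - y‖ ≤ 2 := by
  rw [mem_rot_iff] at hx hy
  have h1 := tri_pbody.diam _ hx _ hy
  simp only at h1
  have h2 := norm_sub_sq_le x y
  have h3 : ‖x - y‖ ^ 2 ≤ 2 ^ 2 := by linarith
  exact le_of_sq_le_sq h3 (by norm_num)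

theorem rot_eq_inter (hm : 1 ≤ m) : rotReuleaux m =
    Metric.closedBall ((-√3) • ezero m) 2 ∩
      ⋂ w ∈ {w : E m | ‖w‖ = 1 ∧ inner ℝ w (ezero m) = 0}, Metric.closedBall w 2 := by
  ext x
  obtain ⟨w, hw, hx, hwn⟩ := coord_decomp x
  have hr0 := rho_nonneg x
  have hzero : ∀ z : E m, inner ℝ z (ezero m) = 0 → ‖x - z‖ ^ 2 = (x 0) ^ 2 + ‖w - z‖ ^ 2 := by
    intro z hz
    have e : x - z = (x 0) • ezero m + (w - z) := by
      conv_lhs => rw [hx]
      module
    rw [e, norm_axis_sq ezero_norm _ (by rw [inner_sub_left, hw, hz, sub_zero])]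
  have hA : ‖x - (-√3) • ezero m‖ ^ 2 = (x 0 + √3) ^ 2 + rho x ^ 2 := by
    have e : x - (-√3) • ezero m = (x 0 + √3) • ezero m + w := by
      conv_lhs => rw [hx]
      module
    rw [e, norm_axis_sq ezero_norm _ hw, hwn]
  rw [mem_rot_iff]
  simp only [mem_inter_iff, Metric.mem_closedBall, dist_eq_norm, mem_iInter, mem_ofPred_eq]
  constructor
  · rintro ⟨-, h1, h2⟩
    simp only at h1 h2
    refine ⟨?_, ?_⟩
    · refine le_of_sq_le_sq ?_ (by norm_num)
      rw [hA]; linarith
    · rintro z ⟨hz1, hz2⟩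
      refine le_of_sq_le_sq ?_ (by norm_num)
      rw [hzero z hz2]
      have h3 : ‖w - z‖ ≤ rho x + 1 := by
        rw [← hwn, ← hz1]
        exact norm_sub_le _ _
      have h4 := pow_le_pow_left₀ (norm_nonneg _) h3 2
      linarith
  · rintro ⟨h1, h2⟩
    refine ⟨hr0, ?_, ?_⟩
    · have := pow_le_pow_left₀ (norm_nonneg _) h1 2
      rw [hA] at this
      simp only
      linarith
    · simp only
      have key : ∃ z : E m, ‖z‖ = 1 ∧ inner ℝ z (ezero m) = 0 ∧ ‖w - z‖ = rho x + 1 := by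
        by_cases h0 : rho x = 0
        · obtain ⟨e, he1, he2⟩ := exists_unit_orth hm (ezero_norm (m := m))
          refine ⟨e, he1, he2, ?_⟩
          have hw0 : w = 0 := by rw [← norm_eq_zero, hwn, h0]
          rw [hw0, zero_sub, norm_neg, he1, h0, zero_add]
        · have hpos : 0 < rho x := lt_of_le_of_ne hr0 (Ne.symm h0)
          refine ⟨(-(rho x)⁻¹) • w, ?_, ?_, ?_⟩
          · rw [norm_smul, hwn, norm_neg, norm_inv, Real.norm_of_nonneg hr0,
              inv_mul_cancel₀ h0]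
          · rw [inner_smul_left, hw, mul_zero]
          · have e : w - (-(rho x)⁻¹) • w = (1 + (rho x)⁻¹) • w := by module
            rw [e, norm_smul, hwn, Real.norm_of_nonneg (by positivity), add_mul, one_mul,
              inv_mul_cancel₀ h0]
      obtain ⟨z, hz1, hz2, hz3⟩ := key
      have h3 := pow_le_pow_left₀ (norm_nonneg _) (h2 z ⟨hz1, hz2⟩) 2
      rw [hzero z hz2, hz3] at h3
      linarith

theorem rot_convexBody (hm : 1 ≤ m) : IsConvexBody (rotReuleaux m) := by
  have h3 : (√3 : ℝ) ^ 2 = 3 := Real.sq_sqrt (by norm_num)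
  refine ⟨?_, ?_, ?_⟩
  · rw [rot_eq_inter hm]
    refine (isCompact_closedBall _ _).inter_right ?_
    exact isClosed_biInter (fun w _ => Metric.isClosed_closedBall)
  · rw [rot_eq_inter hm]
    refine (convex_closedBall _ _).inter ?_
    exact convex_iInter₂ (fun w _ => convex_closedBall _ _)
  · refine ⟨0, ?_⟩
    rw [mem_interior]
    refine ⟨{x : E m | (x 0 + √3) ^ 2 + rho x ^ 2 < 4} ∩
      {x : E m | x 0 ^ 2 + (rho x + 1) ^ 2 < 4}, ?_, ?_, ?_⟩
    · rintro x ⟨h1, h2⟩
      rw [mem_rot_iff]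
      exact ⟨rho_nonneg x, le_of_lt h1, le_of_lt h2⟩
    · have hr := rho_continuous (m := m)
      refine IsOpen.inter ?_ ?_
      · exact isOpen_lt (by fun_prop) continuous_const
      · exact isOpen_lt (by fun_prop) continuous_const
    · have hr0 : rho (0 : E m) = 0 := by simp [rho]
      refine ⟨?_, ?_⟩
      · simp only [mem_ofPred_eq, hr0, PiLp.zero_apply, zero_add, h3]
        norm_num
      · simp only [mem_ofPred_eq, hr0, PiLp.zero_apply, zero_add]
        norm_num

theorem rot_revolution : IsRevolutionAbout (rotReuleaux m) 0 (ezero m) := by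
  refine ⟨ezero_norm, fun x y h1 h2 hx => ?_⟩
  rw [sub_zero, sub_zero] at h1 h2
  rw [inner_ezero, inner_ezero] at h1
  rw [mem_rot_iff] at hx ⊢
  have h3 : rho x = rho y := by
    have h4 := rho_sq x
    have h5 := rho_sq y
    rw [h1, h2, ← h5] at h4
    exact (sq_eq_sq₀ (rho_nonneg _) (rho_nonneg _)).mp h4
  rw [← h1, ← h3]
  exact hx

/-- A chord of length `2` in the direction `u`, when `u 0 ≥ 0`. -/
theorem rot_chord (u : E m) (hu : ‖u‖ = 1) (hu0 : 0 ≤ u 0) :
    ∃ x ∈ rotReuleaux m, ∃ y ∈ rotReuleaux m, x - y = (2 : ℝ) • u := by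
  have h3 : (√3 : ℝ) ^ 2 = 3 := Real.sq_sqrt (by norm_num)
  have h30 : (0 : ℝ) ≤ √3 := Real.sqrt_nonneg _
  obtain ⟨w, hw, hx, hwn⟩ := coord_decomp u
  set a := u 0 with ha
  set s := rho u with hs
  have hs0 : 0 ≤ s := rho_nonneg u
  have has : a ^ 2 + s ^ 2 = 1 := by
    have := rho_sq u
    rw [hu] at this
    linarith
  rcases le_total s (1 / 2) with h | h
  · -- the vertex on the axis and the opposite arc
    have hc : 1 + s ≤ √3 * a := by
      refine le_of_sq_le_sq ?_ (by positivity)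
      rw [mul_pow, h3]
      nlinarith
    have hz : inner ℝ (0 : E m) (ezero m) = 0 := inner_zero_left _
    refine ⟨(2 * a - √3) • ezero m + (2 : ℝ) • w, ?_, (-√3) • ezero m + 0, ?_, ?_⟩
    · have hw2 : inner ℝ ((2 : ℝ) • w) (ezero m) = 0 := by rw [inner_smul_left, hw, mul_zero]
      rw [mem_rot_iff, coord_zero hw2, coord_rho hw2, norm_smul, hwn,
        Real.norm_of_nonneg (by norm_num)]
      refine ⟨by positivity, ?_, ?_⟩
      · simp only
        nlinarith
      · simp only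
        nlinarith
    · rw [mem_rot_iff, coord_zero hz, coord_rho hz, norm_zero]
      refine ⟨le_rfl, ?_, ?_⟩
      · simp
      · simp only [neg_sq, h3]; norm_num
    · rw [hx]
      module
  · -- a vertex on the rotated edge
    have hspos : 0 < s := by linarith
    have hc : 1 - s ≤ √3 * a := by
      have h1s : s ≤ 1 := by nlinarith
      refine le_of_sq_le_sq ?_ (by positivity)
      rw [mul_pow, h3]
      nlinarith
    have hP : inner ℝ (s⁻¹ • w) (ezero m) = 0 := by rw [inner_smul_left, hw, mul_zero]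
    have hQ : inner ℝ ((s⁻¹ - 2) • w) (ezero m) = 0 := by rw [inner_smul_left, hw, mul_zero]
    have hPn : ‖s⁻¹ • w‖ = 1 := by
      rw [norm_smul, hwn, norm_inv, Real.norm_of_nonneg hs0, inv_mul_cancel₀ hspos.ne']
    have hQn : ‖(s⁻¹ - 2) • w‖ = 2 * s - 1 := by
      rw [norm_smul, hwn, Real.norm_eq_abs]
      have h1 : s⁻¹ - 2 ≤ 0 := by
        have : s⁻¹ ≤ 2 := by
          rw [inv_le_comm₀ hspos (by norm_num)]
          linarith
        linarith
      rw [abs_of_nonpos h1]
      have : s⁻¹ * s = 1 := inv_mul_cancel₀ hspos.ne'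
      nlinarith
    refine ⟨(0 : ℝ) • ezero m + s⁻¹ • w, ?_, (-(2 * a)) • ezero m + (s⁻¹ - 2) • w, ?_, ?_⟩
    · rw [mem_rot_iff, coord_zero hP, coord_rho hP, hPn]
      refine ⟨zero_le_one, ?_, ?_⟩
      · simp only [zero_add, h3]; norm_num
      · norm_num
    · rw [mem_rot_iff, coord_zero hQ, coord_rho hQ, hQn]
      refine ⟨by simp only; linarith, ?_, ?_⟩
      · simp only
        nlinarith
      · simp only
        nlinarith
    · rw [hx]
      module

theorem rot_width (hm : 1 ≤ m) : HasConstantWidth (rotReuleaux m) 2 := by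
  intro u hu
  have hcp := (rot_convexBody hm).1
  have hne : (rotReuleaux m).Nonempty := (rot_convexBody hm).2.2.mono interior_subset
  apply le_antisymm
  · obtain ⟨x, hx, hxu⟩ := suppFun_attained hcp hne u
    obtain ⟨y, hy, hyu⟩ := suppFun_attained hcp hne (-u)
    have h1 := rot_diam hx hy
    have h2 : inner ℝ (x - y) u ≤ ‖x - y‖ * ‖u‖ := real_inner_le_norm _ _
    rw [hu, mul_one, inner_sub_left] at h2
    rw [inner_neg_right] at hyu
    linarith
  · have key : ∃ x ∈ rotReuleaux m, ∃ y ∈ rotReuleaux m, x - y = (2 : ℝ) • u := by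
      rcases le_total 0 (u 0) with h | h
      · exact rot_chord u hu h
      · obtain ⟨x, hx, y, hy, hxy⟩ := rot_chord (-u) (by rw [norm_neg, hu])
          (by rw [PiLp.neg_apply]; linarith)
        refine ⟨y, hy, x, hx, ?_⟩
        have : y - x = -(x - y) := by abel
        rw [this, hxy]
        module
    obtain ⟨x, hx, y, hy, hxy⟩ := key
    have h1 := suppFun_le hcp hx u
    have h2 := suppFun_le hcp hy (-u)
    rw [inner_neg_right] at h2
    have h3 : inner ℝ (x - y) u = (2 : ℝ) := by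
      rw [hxy, inner_smul_left, real_inner_self_eq_norm_sq, hu]
      simp
    rw [inner_sub_left] at h3
    linarith

end Pool.Agent.Lib.MP_e62723_gt.Rev
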