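import Mathlib
import Pool.Agent.Lib.MP_e62723_gt.RevDefs
import Pool.Agent.Lib.MP_e62723_gt.RevReul

/-!
# Comparison of volumes, rigidity, and the value of the minimum
-/

namespace Pool.Agent.Lib.MP_e62723_gt.Rev

open Real Set MeasureTheory

variable {m : ℕ} {K : Set (E m)} {p v : E m}

theorem chordLen_eq (t : ℝ) : chordLen t = len t := by
  unfold chordLen len
  rw [gg_one]
  rfl

theorem slice_tri_le {r : ℝ} (h0 : 0 ≤ r) (h1 : r ≤ 1) :
    volume {x : ℝ | (x, r) ∈ tri} = ENNReal.ofReal (len r) := by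
  have e : {x : ℝ | (x, r) ∈ tri} = Icc (-gg (1 + r)) (gg r - gg 1) := by
    ext x
    simp only [mem_ofPred_eq, mem_Icc]
    exact tri_iff h0 h1
  rw [e, Real.volume_Icc]
  congr 1
  unfold len
  ring

theorem slice_empty {M : Set (ℝ × ℝ)} (h : PBody M) {r : ℝ} (h1 : 1 < r) :
    {x : ℝ | (x, r) ∈ M} = ∅ := by
  rw [eq_empty_iff_forall_notMem]
  intro x hx
  have := h.le_one (p := (x, r)) hx
  simp only at this
  linarith

theorem slice_chord {M : Set (ℝ × ℝ)} {r a b : ℝ}
    (hab : ∀ x, (x, r) ∈ M ↔ a ≤ x ∧ x ≤ b) :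
    volume {x : ℝ | (x, r) ∈ M} = ENNReal.ofReal (b - a) := by
  have e : {x : ℝ | (x, r) ∈ M} = Icc a b := by
    ext x
    simp only [mem_ofPred_eq, mem_Icc]
    exact hab x
  rw [e, Real.volume_Icc]

theorem slice_bound {M : Set (ℝ × ℝ)} (h : PBody M) {r : ℝ} (h0 : 0 ≤ r) (h1 : r ≤ 1) :
    ENNReal.ofReal (len r) ≤ volume {x : ℝ | (x, r) ∈ M} := by
  obtain ⟨a, b, hab, hqa, hqb⟩ := h.chord h0 h1
  have h2 := h.chord_bound h0 h1 hab hqa hqb
  rw [slice_chord hab]
  exact ENNReal.ofReal_le_ofReal h2.2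

theorem slice_mono {M : Set (ℝ × ℝ)} (h : PBody M) {r : ℝ} (h0 : 0 ≤ r) :
    volume {x : ℝ | (x, r) ∈ tri} ≤ volume {x : ℝ | (x, r) ∈ M} := by
  rcases le_or_gt r 1 with h1 | h1
  · rw [slice_tri_le h0 h1]
    exact slice_bound h h0 h1
  · rw [slice_empty tri_pbody h1, measure_empty]
    exact bot_le

/-- Chord bound. -/
theorem chord_main (hm : 1 ≤ m) (hK : IsConvexBody K) (hw : HasConstantWidth K 2)
    (hrev : IsRevolutionAbout K p v) {w : E m} (hwv : inner ℝ w v = 0) (hw1 : ‖w‖ ≤ 1) :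
    chordLen ‖w‖ ≤ volume.real {s : ℝ | p + w + s • v ∈ K} := by
  have h := meridian_pbody hm hK hw hrev
  rw [chord_set hrev hwv, chordLen_eq]
  obtain ⟨a, b, hab, hqa, hqb⟩ := h.chord (norm_nonneg w) hw1
  have h2 := h.chord_bound (norm_nonneg w) hw1 hab hqa hqb
  rw [measureReal_def, slice_chord hab, ENNReal.toReal_ofReal (by linarith [h2.1])]
  exact h2.2

theorem volume_eq_solid (hrev : IsRevolutionAbout K p v)
    (hM : MeasurableSet (meridian K p v)) :
    volume K = volume (solid m (meridian K p v)) := by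
  obtain ⟨φ, hφ⟩ := exists_move hrev.1
  have e : K = {x | φ (x - p) ∈ solid m (meridian K p v)} := by
    ext x
    exact mem_iff_move hrev hφ x
  conv_lhs => rw [e]
  exact volume_move φ p (solid_measurable hM)

theorem volume_mono (hm : 1 ≤ m) (hK : IsConvexBody K) (hw : HasConstantWidth K 2)
    (hrev : IsRevolutionAbout K p v) : volume (rotReuleaux m) ≤ volume K := by
  have h := meridian_pbody hm hK hw hrev
  rw [volume_eq_solid hrev h.isClosed.measurableSet, rotReuleaux_eq,
    volume_solid h.isClosed.measurableSet, volume_solid tri_pbody.isClosed.measurableSet]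
  exact lintegral_mono (fun q => slice_mono h (norm_nonneg q))

theorem exists_unit (hm : 1 ≤ m) : ∃ e : EuclideanSpace ℝ (Fin m), ‖e‖ = 1 :=
  ⟨EuclideanSpace.single ⟨0, by omega⟩ (1 : ℝ), by simp⟩

/-- Rigidity. -/
theorem volume_rigid (hm : 1 ≤ m) (hK : IsConvexBody K) (hw : HasConstantWidth K 2)
    (hrev : IsRevolutionAbout K p v) (heq : volume K = volume (rotReuleaux m)) :
    ∃ (ψ : E m ≃ₗᵢ[ℝ] E m) (c : E m), ∀ x, x ∈ K ↔ ψ (x - c) ∈ rotReuleaux m := by
  have h := meridian_pbody hm hK hw hrev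
  set M := meridian K p v with hMdef
  have hMm : MeasurableSet M := h.isClosed.measurableSet
  have htm : MeasurableSet tri := tri_pbody.isClosed.measurableSet
  have hfin : volume (rotReuleaux m) ≠ ⊤ :=
    ((rot_convexBody hm).1.measure_lt_top).ne
  have hae : (fun q : EuclideanSpace ℝ (Fin m) => volume {x : ℝ | (x, ‖q‖) ∈ tri})
      =ᵐ[volume] (fun q : EuclideanSpace ℝ (Fin m) => volume {x : ℝ | (x, ‖q‖) ∈ M}) := by
    refine ae_eq_of_ae_le_of_lintegral_le
      (Filter.Eventually.of_forall (fun q => slice_mono h (norm_nonneg q))) ?_ ?_ ?_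
    · rw [← volume_solid htm, ← rotReuleaux_eq]
      exact hfin
    · have hmeas : Measurable fun r : ℝ => volume {x : ℝ | (x, r) ∈ M} :=
        measurable_measure_prodMk_right hMm
      exact (hmeas.comp measurable_norm).aemeasurable
    · rw [← volume_solid htm, ← volume_solid hMm, ← rotReuleaux_eq, ← heq,
        volume_eq_solid hrev hMm]
  set D : Set (EuclideanSpace ℝ (Fin m)) :=
    {q | volume {x : ℝ | (x, ‖q‖) ∈ tri} = volume {x : ℝ | (x, ‖q‖) ∈ M}} with hD
  have hDd : Dense D := Measure.dense_of_ae hae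
  set T : Set ℝ :=
    {t | t ∈ Ioo (0 : ℝ) 1 ∧ volume {x : ℝ | (x, t) ∈ tri} = volume {x : ℝ | (x, t) ∈ M}}
    with hTdef
  obtain ⟨e, he⟩ := exists_unit hm
  have hT : Icc (0 : ℝ) 1 ⊆ closure T := by
    have h1 : Ioo (0 : ℝ) 1 ⊆ closure T := by
      intro t ht
      set U : Set (EuclideanSpace ℝ (Fin m)) := {q | ‖q‖ ∈ Ioo (0 : ℝ) 1} with hU
      have hUo : IsOpen U := isOpen_Ioo.preimage continuous_norm
      have hq : t • e ∈ U := by
        show ‖t • e‖ ∈ Ioo (0 : ℝ) 1
        rw [norm_smul, he, mul_one, Real.norm_of_nonneg ht.1.le]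
        exact ht
      have h2 := hDd.open_subset_closure_inter hUo hq
      have h3 : ‖t • e‖ ∈ closure T := by
        refine map_mem_closure continuous_norm h2 ?_
        rintro q ⟨hqU, hqD⟩
        exact ⟨hqU, hqD⟩
      rw [norm_smul, he, mul_one, Real.norm_of_nonneg ht.1.le] at h3
      exact h3
    have h2 := closure_minimal h1 isClosed_closure
    rw [closure_Ioo (by norm_num)] at h2
    exact h2
  have hT2 : ∀ t ∈ T, ∀ a b : ℝ, (∀ x, (x, t) ∈ M ↔ a ≤ x ∧ x ≤ b) → b - a ≤ len t := by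
    rintro t ⟨ht, hteq⟩ a b hab
    rw [slice_tri_le ht.1.le ht.2.le, slice_chord hab] at hteq
    by_contra hlt
    push Not at hlt
    have h1 : ENNReal.ofReal (len t) < ENNReal.ofReal (b - a) :=
      (ENNReal.ofReal_lt_ofReal_iff (lt_of_le_of_lt (len_nonneg ht.1.le ht.2.le) hlt)).mpr hlt
    rw [hteq] at h1
    exact lt_irrefl _ h1
  obtain ⟨φ, hφ⟩ := exists_move hrev.1
  obtain ⟨x0, hx0⟩ := h.rigidity hT (fun t ht => ht.1) hT2
  have hmove := mem_iff_move hrev hφ
  rcases hx0 with hx0 | hx0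
  · refine ⟨φ, p + x0 • v, fun x => ?_⟩
    rw [hmove x]
    show ((φ (x - p)) 0, rho (φ (x - p))) ∈ M ↔ _
    rw [hx0, mem_rot_iff]
    have e1 : φ (x - (p + x0 • v)) = φ (x - p) - x0 • ezero m := by
      have : x - (p + x0 • v) = (x - p) - x0 • v := by abel
      rw [this, map_sub, map_smul, hφ]
    obtain ⟨w, hwz, hy, hwn⟩ := coord_decomp (φ (x - p))
    have e2 : φ (x - p) - x0 • ezero m = ((φ (x - p)) 0 - x0) • ezero m + w := by
      conv_lhs => rw [hy]
      module
    rw [e1, e2, coord_zero hwz, coord_rho hwz, hwn]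
  · refine ⟨φ.trans (LinearIsometryEquiv.neg ℝ), p + x0 • v, fun x => ?_⟩
    rw [hmove x]
    show ((φ (x - p)) 0, rho (φ (x - p))) ∈ M ↔ _
    rw [hx0, mem_rot_iff]
    have e1 : (φ.trans (LinearIsometryEquiv.neg ℝ)) (x - (p + x0 • v))
        = x0 • ezero m - φ (x - p) := by
      have : x - (p + x0 • v) = (x - p) - x0 • v := by abel
      rw [LinearIsometryEquiv.trans_apply, this, map_sub, map_smul, hφ]
      show -(φ (x - p) - x0 • ezero m) = _
      abel
    obtain ⟨w, hwz, hy, hwn⟩ := coord_decomp (φ (x - p))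
    have e2 : x0 • ezero m - φ (x - p) = (x0 - (φ (x - p)) 0) • ezero m + -w := by
      conv_lhs => rw [hy]
      module
    have hwz' : inner ℝ (-w) (ezero m) = 0 := by rw [inner_neg_left, hwz, neg_zero]
    rw [e1, e2, coord_zero hwz', coord_rho hwz', norm_neg, hwn]

theorem congr_volume (ψ : E m ≃ₗᵢ[ℝ] E m) (c : E m) :
    volume ((fun x => ψ x + c) '' rotReuleaux m) = volume (rotReuleaux m) := by
  have hm : MeasurableSet (rotReuleaux m) := by
    rw [rotReuleaux_eq]
    exact solid_measurable tri_pbody.isClosed.measurableSet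
  have e : (fun x => ψ x + c) '' rotReuleaux m = {x | ψ.symm (x - c) ∈ rotReuleaux m} := by
    ext x
    simp only [mem_image, mem_ofPred_eq]
    constructor
    · rintro ⟨y, hy, rfl⟩
      simpa using hy
    · intro hx
      exact ⟨_, hx, by simp⟩
  rw [e]
  exact volume_move ψ.symm c hm

theorem volume_eq_iff (hm : 1 ≤ m) (hK : IsConvexBody K) (hw : HasConstantWidth K 2)
    (hrev : IsRevolutionAbout K p v) :
    volume K = volume (rotReuleaux m) ↔
      ∃ (ψ : E m ≃ₗᵢ[ℝ] E m) (c : E m), K = (fun x => ψ x + c) '' rotReuleaux m := by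
  constructor
  · intro heq
    obtain ⟨ψ, c, h⟩ := volume_rigid hm hK hw hrev heq
    refine ⟨ψ.symm, c, ?_⟩
    ext x
    rw [h x]
    constructor
    · intro hx
      exact ⟨_, hx, by simp⟩
    · rintro ⟨y, hy, rfl⟩
      simpa using hy
  · rintro ⟨ψ, c, rfl⟩
    exact congr_volume ψ c

/-- The chords of the rotated Reuleaux triangle. -/
theorem rot_chord_len {w : E m} (hw : inner ℝ w (ezero m) = 0) :
    volume.real {s : ℝ | w + s • ezero m ∈ rotReuleaux m} =
      if ‖w‖ ≤ 1 then chordLen ‖w‖ else 0 := by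
  have e : {s : ℝ | w + s • ezero m ∈ rotReuleaux m} = {s : ℝ | (s, ‖w‖) ∈ tri} := by
    ext s
    simp only [mem_ofPred_eq]
    have : w + s • ezero m = s • ezero m + w := by abel
    rw [this, mem_rot_iff, coord_zero hw, coord_rho hw]
  rw [e, measureReal_def]
  split_ifs with h
  · rw [slice_tri_le (norm_nonneg w) h, ENNReal.toReal_ofReal (len_nonneg (norm_nonneg w) h),
      chordLen_eq]
  · rw [slice_empty tri_pbody (not_le.mp h)]
    simp

/-- The volume of the rotated Reuleaux triangle. -/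
theorem rot_volume (hm : 1 ≤ m) :
    volume.real (rotReuleaux m) =
      m * volume.real (Metric.ball (0 : EuclideanSpace ℝ (Fin m)) 1) *
        ∫ t in (0 : ℝ)..1, t ^ (m - 1) * chordLen t := by
  have : Nonempty (Fin m) := ⟨⟨0, by omega⟩⟩
  set f : ℝ → ℝ := (Iic (1 : ℝ)).indicator len with hf
  have hlenc : Continuous len := by
    unfold len
    have := gg_continuous
    fun_prop
  have hfm : Measurable f := hlenc.measurable.indicator measurableSet_Iic
  have hf0 : ∀ r, 0 ≤ r → 0 ≤ f r := by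
    intro r hr
    rw [hf]
    by_cases h : r ≤ 1
    · rw [indicator_of_mem (show r ∈ Iic (1 : ℝ) from h)]
      exact len_nonneg hr h
    · rw [indicator_of_notMem (show r ∉ Iic (1 : ℝ) from h)]
  have hslice : ∀ r, 0 ≤ r → volume {x : ℝ | (x, r) ∈ tri} = ENNReal.ofReal (f r) := by
    intro r hr
    rw [hf]
    by_cases h : r ≤ 1
    · rw [indicator_of_mem (show r ∈ Iic (1 : ℝ) from h)]
      exact slice_tri_le hr h
    · rw [indicator_of_notMem (show r ∉ Iic (1 : ℝ) from h),
        slice_empty tri_pbody (not_le.mp h)]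
      simp
  have h1 : volume (rotReuleaux m) =
      ∫⁻ q : EuclideanSpace ℝ (Fin m), ENNReal.ofReal (f ‖q‖) := by
    rw [rotReuleaux_eq, volume_solid tri_pbody.isClosed.measurableSet]
    exact lintegral_congr (fun q => hslice _ (norm_nonneg q))
  have h2 : volume.real (rotReuleaux m) = ∫ q : EuclideanSpace ℝ (Fin m), f ‖q‖ := by
    rw [measureReal_def, h1, integral_eq_lintegral_of_nonneg_ae]
    · exact Filter.Eventually.of_forall (fun q => hf0 _ (norm_nonneg q))
    · exact (hfm.comp measurable_norm).aestronglyMeasurable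
  have h3 : ∫ y in Ioi (0 : ℝ), y ^ (m - 1) • f y = ∫ t in (0 : ℝ)..1, t ^ (m - 1) * chordLen t := by
    rw [intervalIntegral.integral_of_le zero_le_one]
    have e1 : ∀ y : ℝ, y ^ (m - 1) • f y =
        (Iic (1 : ℝ)).indicator (fun t => t ^ (m - 1) * chordLen t) y := by
      intro y
      rw [hf]
      by_cases h : y ≤ 1
      · rw [indicator_of_mem (show y ∈ Iic (1 : ℝ) from h),
          indicator_of_mem (show y ∈ Iic (1 : ℝ) from h), smul_eq_mul, chordLen_eq]
      · rw [indicator_of_notMem (show y ∉ Iic (1 : ℝ) from h),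
          indicator_of_notMem (show y ∉ Iic (1 : ℝ) from h), smul_zero]
    simp_rw [e1]
    rw [setIntegral_indicator measurableSet_Iic, Ioi_inter_Iic]
  rw [h2, integral_fun_norm_addHaar, finrank_euclideanSpace_fin, h3, nsmul_eq_mul, smul_eq_mul,
    mul_assoc]

end Pool.Agent.Lib.MP_e62723_gt.Rev
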